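import Mathlib
import Pool.Agent.H373R2.T7.Minor

/-! Vinogradov's bound for the exponential sum over primes, uniform in the denominator. -/

set_option autoImplicit false

namespace Pool.Agent.W301.SS
open Finset
open Pool.Agent.H807R2.Dav

/-- the exponential sum over primes -/
noncomputable def SL (N : ℕ) (α : ℝ) : ℂ :=
  ∑ n ∈ Icc 1 N, ((ArithmeticFunction.vonMangoldt n : ℝ) : ℂ) * ee ((n : ℝ) * α)

/-- the right side of Vinogradov's bound -/
noncomputable def VB (N q : ℝ) : ℝ := N / √q + N ^ (4 / 5 : ℝ) + √(N * q)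

lemma VB_mono {P N q : ℝ} (hP : 0 ≤ P) (hPN : P ≤ N) (hq : 0 < q) : VB P q ≤ VB N q := by
  unfold VB
  have h1 : 0 < √q := Real.sqrt_pos.2 hq
  gcongr

lemma block (N q : ℕ) (hN : 1 ≤ N) (hq : 1 ≤ q) (hqN : q ≤ N) {c : ℤ} (hcop : IsCoprime c (q : ℤ))
    {α : ℝ} (hα : |α - c / q| ≤ 1 / (q : ℝ) ^ 2) (P P' : ℕ) (hP : 1 ≤ P) (hPP : P ≤ P')
    (hP' : P' ≤ 2 * P) (hPN : P ≤ N) :
    ‖∑ n ∈ Ioc P P', ((ArithmeticFunction.vonMangoldt n : ℝ) : ℂ) * ee ((n : ℝ) * α)‖ ≤
      300000 * (1 + Real.log N) ^ 6 * VB N q := by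
  have hP1 : (1 : ℝ) ≤ P := by exact_mod_cast hP
  have hP0 : (0 : ℝ) < P := by linarith
  have hq1 : (1 : ℝ) ≤ q := by exact_mod_cast hq
  have hq0 : (0 : ℝ) < q := by linarith
  have hN1 : (1 : ℝ) ≤ N := by exact_mod_cast hN
  have hPNr : (P : ℝ) ≤ N := by exact_mod_cast hPN
  have hqNr : (q : ℝ) ≤ N := by exact_mod_cast hqN
  set U : ℕ := ⌊(P : ℝ) ^ (2 / 5 : ℝ)⌋₊ with hU
  have hr1 : (1 : ℝ) ≤ (P : ℝ) ^ (2 / 5 : ℝ) := Real.one_le_rpow hP1 (by norm_num)
  have hU1 : 1 ≤ U := Nat.le_floor (by exact_mod_cast hr1)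
  have hU1r : (1 : ℝ) ≤ U := by exact_mod_cast hU1
  have hUle : (U : ℝ) ≤ (P : ℝ) ^ (2 / 5 : ℝ) := Nat.floor_le (by positivity)
  have hUge : (P : ℝ) ^ (2 / 5 : ℝ) ≤ 2 * U := by
    have := Nat.lt_floor_add_one ((P : ℝ) ^ (2 / 5 : ℝ))
    rw [← hU] at this
    linarith
  have hUU : ((U * U : ℕ) : ℝ) ≤ (P : ℝ) ^ (4 / 5 : ℝ) := by
    push_cast
    calc (U : ℝ) * U ≤ (P : ℝ) ^ (2 / 5 : ℝ) * (P : ℝ) ^ (2 / 5 : ℝ) :=
          mul_le_mul hUle hUle (by positivity) (by positivity)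
      _ = (P : ℝ) ^ (4 / 5 : ℝ) := by rw [← Real.rpow_add hP0]; norm_num
  have hP45 : (P : ℝ) ^ (4 / 5 : ℝ) ≤ P := by
    calc (P : ℝ) ^ (4 / 5 : ℝ) ≤ (P : ℝ) ^ (1 : ℝ) :=
          Real.rpow_le_rpow_of_exponent_le hP1 (by norm_num)
      _ = P := Real.rpow_one _
  have hUUP : U * U ≤ P := by exact_mod_cast hUU.trans hP45
  have hPU : (P : ℝ) / U ≤ 2 * (P : ℝ) ^ (3 / 5 : ℝ) := by
    rw [div_le_iff₀ (by linarith)]
    have e : (P : ℝ) = (P : ℝ) ^ (3 / 5 : ℝ) * (P : ℝ) ^ (2 / 5 : ℝ) := by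
      rw [← Real.rpow_add hP0]; norm_num
    have h3 : (0 : ℝ) ≤ (P : ℝ) ^ (3 / 5 : ℝ) := by positivity
    calc (P : ℝ) = (P : ℝ) ^ (3 / 5 : ℝ) * (P : ℝ) ^ (2 / 5 : ℝ) := e
      _ ≤ (P : ℝ) ^ (3 / 5 : ℝ) * (2 * U) := mul_le_mul_of_nonneg_left hUge h3
      _ = _ := by ring
  have key := Pool.Agent.H373R2.T7.block_lin hq hcop hα P P' U hP hPP hP' hU1 hUUP
  refine key.trans ?_
  set L : ℝ := 1 + Real.log N with hL
  have hlogN : 0 ≤ Real.log N := Real.log_nonneg hN1
  have hL1 : 1 ≤ L := by linarith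
  have hlq : 1 + Real.log q ≤ L := by
    have := Real.log_le_log hq0 hqNr; linarith
  have hlq0 : 0 ≤ Real.log q := Real.log_nonneg hq1
  have hlog4 : Real.log 4 ≤ 2 := by
    have h1 : Real.log 4 = 2 * Real.log 2 := by
      rw [show (4 : ℝ) = 2 ^ 2 by norm_num, Real.log_pow]; push_cast; ring
    have := Real.log_two_lt_d9
    linarith
  have hl4P : 1 + Real.log (4 * P) ≤ 3 * L := by
    rw [Real.log_mul (by norm_num) (by linarith)]
    have := Real.log_le_log hP0 hPNr
    linarith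
  have hl4P0 : 0 ≤ 1 + Real.log (4 * P) := by
    have := Real.log_nonneg (show (1 : ℝ) ≤ 4 * P by linarith)
    linarith
  have hVlog : (Nat.log 2 (U * U) + 1 : ℝ) ≤ 2 * L := by
    have h3 : (Nat.log 2 (U * U) : ℝ) * Real.log 2 ≤ Real.log N := by
      have h4 : (2 : ℝ) ^ Nat.log 2 (U * U) ≤ ((U * U : ℕ) : ℝ) := by
        exact_mod_cast Nat.pow_log_le_self 2 (by positivity)
      have h5 : ((U * U : ℕ) : ℝ) ≤ N := (hUU.trans hP45).trans hPNr
      have h7 := Real.log_le_log (by positivity) (h4.trans h5)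
      rwa [Real.log_pow] at h7
    have h4 := Real.log_two_gt_d9
    have h5 : (0 : ℝ) ≤ Nat.log 2 (U * U) := Nat.cast_nonneg _
    rw [hL]
    nlinarith
  have hsq : 0 < √(q : ℝ) := Real.sqrt_pos.2 hq0
  have hsq1 : 1 ≤ √(q : ℝ) := Real.one_le_sqrt.2 hq1
  have hVB := VB_mono hP0.le hPNr hq0
  have hVB0 : 0 ≤ VB P q := by unfold VB; positivity
  have hVN0 : 0 ≤ VB N q := by unfold VB; positivity
  have hR : √(672 * (1 + Real.log q) * (P * ((P : ℝ) / q + P / U + q))) ≤ 52 * L * VB N q := by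
    apply Real.sqrt_le_iff.2
    refine ⟨by positivity, ?_⟩
    have h1 : (P : ℝ) * ((P : ℝ) / q + P / U + q) ≤ 4 * VB P q ^ 2 := by
      unfold VB
      have a1 : (P : ℝ) * (P / q) = (P / √q) ^ 2 := by
        rw [div_pow, Real.sq_sqrt hq0.le]; ring
      have a2 : (P : ℝ) * (P / U) ≤ 2 * ((P : ℝ) ^ (4 / 5 : ℝ)) ^ 2 := by
        have e : ((P : ℝ) ^ (4 / 5 : ℝ)) ^ 2 = P * (P : ℝ) ^ (3 / 5 : ℝ) := by
          rw [← Real.rpow_natCast, ← Real.rpow_mul hP0.le]
          nth_rewrite 2 [← Real.rpow_one (P : ℝ)]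
          rw [← Real.rpow_add hP0]; norm_num
        rw [e]
        calc (P : ℝ) * (P / U) ≤ P * (2 * (P : ℝ) ^ (3 / 5 : ℝ)) :=
              mul_le_mul_of_nonneg_left hPU hP0.le
          _ = _ := by ring
      have a3 : (P : ℝ) * q = √(P * q) ^ 2 := by rw [Real.sq_sqrt (by positivity)]
      have b1 : 0 ≤ (P : ℝ) / √q := by positivity
      have b2 : 0 ≤ (P : ℝ) ^ (4 / 5 : ℝ) := by positivity
      have b3 : 0 ≤ √((P : ℝ) * q) := by positivity
      calc (P : ℝ) * ((P : ℝ) / q + P / U + q) = P * (P / q) + P * (P / U) + P * q := by ring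
        _ ≤ (P / √q) ^ 2 + 2 * ((P : ℝ) ^ (4 / 5 : ℝ)) ^ 2 + √(P * q) ^ 2 := by
            rw [a1, ← a3]; linarith
        _ ≤ _ := by nlinarith [mul_nonneg b1 b2, mul_nonneg b1 b3, mul_nonneg b2 b3]
    have h2 : VB P q ^ 2 ≤ VB N q ^ 2 := pow_le_pow_left₀ hVB0 hVB 2
    calc 672 * (1 + Real.log q) * (P * ((P : ℝ) / q + P / U + q)) ≤
          672 * L * (4 * VB N q ^ 2) := by
            apply mul_le_mul (by linarith) (h1.trans (by linarith)) (by positivity) (by positivity)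
      _ = 2688 * L * VB N q ^ 2 := by ring
      _ ≤ 2704 * L ^ 2 * VB N q ^ 2 := by
            apply mul_le_mul_of_nonneg_right _ (by positivity)
            nlinarith
      _ = _ := by ring
  have t1 : 8 * (1 + Real.log (4 * P)) ^ 5 *
      √(672 * (1 + Real.log q) * (P * ((P : ℝ) / q + P / U + q))) ≤
      8 * (3 * L) ^ 5 * (52 * L * VB N q) := by
    gcongr
  have t2 : 3 * (1 + Real.log (4 * P)) * (600 * (Nat.log 2 (U * U) + 1 : ℝ) *
      ((P : ℝ) / q + (U * U : ℕ) + q) * (1 + Real.log q)) ≤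
      3 * (3 * L) * (600 * (2 * L) * VB N q * L) := by
    have h1 : (P : ℝ) / q + (U * U : ℕ) + q ≤ VB N q := by
      unfold VB
      have a1 : (P : ℝ) / q ≤ N / √q := by
        apply div_le_div₀ (by linarith) hPNr hsq
        nlinarith [Real.mul_self_sqrt hq0.le]
      have a2 : ((U * U : ℕ) : ℝ) ≤ (N : ℝ) ^ (4 / 5 : ℝ) :=
        hUU.trans (Real.rpow_le_rpow hP0.le hPNr (by norm_num))
      have a3 : (q : ℝ) ≤ √(N * q) := by
        apply Real.le_sqrt_of_sq_le
        nlinarith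
      linarith
    have h0 : 0 ≤ (P : ℝ) / q + (U * U : ℕ) + q := by positivity
    have h00 : (0 : ℝ) ≤ Nat.log 2 (U * U) + 1 := by positivity
    gcongr
  refine (add_le_add t1 t2).trans ?_
  have hL3 : L ^ 3 ≤ L ^ 6 := pow_le_pow_right₀ hL1 (by norm_num)
  have e1 : 8 * (3 * L) ^ 5 * (52 * L * VB N q) + 3 * (3 * L) * (600 * (2 * L) * VB N q * L) =
      (101088 * L ^ 6 + 10800 * L ^ 3) * VB N q := by ring
  rw [e1]
  apply mul_le_mul_of_nonneg_right _ hVN0
  have : 0 ≤ L ^ 6 := by positivity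
  linarith

/-- **Vinogradov's bound** -/
theorem vino : ∃ C : ℝ, 0 < C ∧ ∀ N q : ℕ, 1 ≤ N → 1 ≤ q → ∀ c : ℤ, IsCoprime c (q : ℤ) →
    ∀ α : ℝ, |α - c / q| ≤ 1 / (q : ℝ) ^ 2 →
    ‖SL N α‖ ≤ C * (1 + Real.log N) ^ 7 * VB N q := by
  refine ⟨1500000, by norm_num, fun N q hN hq c hcop α hα => ?_⟩
  have hq1 : (1 : ℝ) ≤ q := by exact_mod_cast hq
  have hq0 : (0 : ℝ) < q := by linarith
  have hN1 : (1 : ℝ) ≤ N := by exact_mod_cast hN
  have hlogN : 0 ≤ Real.log N := Real.log_nonneg hN1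
  set L : ℝ := 1 + Real.log N with hL
  have hL1 : 1 ≤ L := by linarith
  have hVN0 : 0 ≤ VB N q := by unfold VB; positivity
  rcases le_or_gt q N with hqN | hqN
  · set G : ℝ := 300000 * L ^ 6 * VB N q with hG
    have hG0 : 0 ≤ G := by positivity
    have ind : ∀ n : ℕ, n ≤ N → ‖SL n α‖ ≤ (Nat.clog 2 n + 1 : ℝ) * G := by
      intro n
      induction n using Nat.strong_induction_on with
      | _ n ih =>
        intro hn
        rcases le_or_gt n 1 with h1 | h1
        · have : SL n α = 0 := by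
            unfold SL
            apply sum_eq_zero
            intro i hi
            rw [mem_Icc] at hi
            have : i = 1 := by omega
            subst this
            simp
          rw [this, norm_zero]
          positivity
        · have hm1 : (n + 1) / 2 < n := by omega
          have hcl : Nat.clog 2 n = Nat.clog 2 ((n + 1) / 2) + 1 := by
            have := Nat.clog_of_two_le (b := 2) (n := n) (by norm_num) (by omega)
            simpa using this
          have h2 := ih _ hm1 (by omega)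
          have h3 := block N q hN hq hqN hcop hα ((n + 1) / 2) n (by omega) (by omega) (by omega)
            (by omega)
          have h4 : SL n α = SL ((n + 1) / 2) α + ∑ i ∈ Ioc ((n + 1) / 2) n,
              ((ArithmeticFunction.vonMangoldt i : ℝ) : ℂ) * ee ((i : ℝ) * α) := by
            unfold SL
            rw [← sum_union]
            · apply sum_congr _ (fun _ _ => rfl)
              ext i; simp only [mem_union, mem_Icc, mem_Ioc]; omega
            · rw [disjoint_left]; intro i hi hi'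
              rw [mem_Icc] at hi; rw [mem_Ioc] at hi'; omega
          rw [h4, hcl]
          refine (norm_add_le _ _).trans ?_
          push_cast
          have h5 : ((Nat.clog 2 ((n + 1) / 2) : ℝ) + 1 + 1) * G =
            ((Nat.clog 2 ((n + 1) / 2) : ℝ) + 1) * G + G := by ring
          rw [h5]
          linarith
    have h1 := ind N le_rfl
    have h2 : (Nat.clog 2 N : ℝ) + 1 ≤ 5 * L := by
      have h3 : Nat.clog 2 N ≤ Nat.log 2 N + 1 := by
        apply Nat.clog_le_of_le_pow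
        exact (Nat.lt_pow_succ_log_self (by norm_num) N).le
      have h4 : (Nat.log 2 N : ℝ) * Real.log 2 ≤ Real.log N := by
        have h4 : (2 : ℝ) ^ Nat.log 2 N ≤ (N : ℝ) := by
          exact_mod_cast Nat.pow_log_le_self 2 (by omega)
        have h7 := Real.log_le_log (by positivity) h4
        rwa [Real.log_pow] at h7
      have h5 := Real.log_two_gt_d9
      have h6 : (Nat.clog 2 N : ℝ) ≤ Nat.log 2 N + 1 := by exact_mod_cast h3
      have h7 : (0 : ℝ) ≤ Nat.log 2 N := Nat.cast_nonneg _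
      nlinarith
    calc ‖SL N α‖ ≤ (Nat.clog 2 N + 1 : ℝ) * G := h1
      _ ≤ 5 * L * G := mul_le_mul_of_nonneg_right h2 hG0
      _ = 1500000 * L ^ 7 * VB N q := by rw [hG]; ring
  · have h1 : ‖SL N α‖ ≤ Chebyshev.psi N := by
      unfold SL
      refine (norm_sum_le _ _).trans (le_of_eq ?_)
      rw [Chebyshev.psi_eq_sum_Icc]
      rw [Nat.floor_natCast]
      have : Icc 0 N = insert 0 (Icc 1 N) := by
        ext i; simp only [mem_insert, mem_Icc]; omega
      rw [this, sum_insert (by simp)]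
      simp only [ArithmeticFunction.map_zero, zero_add]
      apply sum_congr rfl
      intro i _
      rw [norm_mul, norm_ee, mul_one, Complex.norm_real, Real.norm_eq_abs,
        abs_of_nonneg ArithmeticFunction.vonMangoldt_nonneg]
    have h2 := Chebyshev.psi_le_const_mul_self (x := N) (by positivity)
    have hlog4 : Real.log 4 ≤ 2 := by
      have h1 : Real.log 4 = 2 * Real.log 2 := by
        rw [show (4 : ℝ) = 2 ^ 2 by norm_num, Real.log_pow]; push_cast; ring
      have := Real.log_two_lt_d9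
      linarith
    have h3 : (N : ℝ) ≤ VB N q := by
      unfold VB
      have a3 : (N : ℝ) ≤ √(N * q) := by
        apply Real.le_sqrt_of_sq_le
        have : (N : ℝ) ≤ q := by exact_mod_cast hqN.le
        nlinarith
      have : 0 ≤ (N : ℝ) / √q := by positivity
      have : 0 ≤ (N : ℝ) ^ (4 / 5 : ℝ) := by positivity
      linarith
    have h4 : 1 ≤ L ^ 7 := one_le_pow₀ hL1
    calc ‖SL N α‖ ≤ (Real.log 4 + 4) * N := h1.trans h2
      _ ≤ 6 * VB N q := by nlinarith
      _ ≤ 1500000 * L ^ 7 * VB N q := by nlinarith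

end Pool.Agent.W301.SS
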