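import Mathlib
import Pool.Agent.W301.SS.Count

/-! Averages over the translates of a set. -/

set_option autoImplicit false

namespace Pool.Agent.W301.SS
open Finset Filter

/-- the number of pairs `(a, p)`, `a ∈ A`, with a prime `p` in `(a + b, a + b + y]` -/
noncomputable def cs (A : Finset ℕ) (b y : ℕ) : ℝ := ∑ a ∈ A, (pn (a + b) y : ℝ)

lemma PCs_eq (A B : Finset ℕ) (y : ℕ) : PCs A B y = ∑ b ∈ B, cs A b y := by
  unfold PCs cs
  rw [sum_comm]

lemma cs_mono (A : Finset ℕ) (b : ℕ) {y z : ℕ} (h : y ≤ z) : cs A b y ≤ cs A b z := by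
  unfold cs
  apply sum_le_sum
  intro a _
  exact_mod_cast pn_mono h

lemma cs_nonneg (A : Finset ℕ) (b y : ℕ) : 0 ≤ cs A b y :=
  sum_nonneg fun _ _ => Nat.cast_nonneg _

/-- the exceptional shifts for one length -/
noncomputable def Bad (A : Finset ℕ) (N g : ℕ) (η : ℝ) : Finset ℕ := by
  classical
  exact (Icc 1 N).filter (fun b => η * ((A.card : ℝ) * g) < |cs A b g * Real.log N - (A.card : ℝ) * g|)

lemma bad_card {A : Finset ℕ} {N g k : ℕ} {η : ℝ} (hN : 1 ≤ N)
    (hpair : ∀ B : Finset ℕ, (∀ b ∈ B, b ≤ N) →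
      (N : ℝ) ^ 2 ≤ (A.card : ℝ) * B.card * Real.log N ^ k →
      |PCs A B g * Real.log N - (A.card : ℝ) * B.card * g| ≤ η * ((A.card : ℝ) * B.card * g)) :
    ((Bad A N g η).card : ℝ) * A.card * Real.log N ^ k ≤ 2 * (N : ℝ) ^ 2 := by
  classical
  have hN0 : (0 : ℝ) < N := by exact_mod_cast hN
  set ℓ := Real.log N with hℓ
  have hℓ0 : 0 ≤ ℓ := Real.log_natCast_nonneg N
  set Bp : Finset ℕ := (Icc 1 N).filter (fun b => η * ((A.card : ℝ) * g) < cs A b g * ℓ - (A.card : ℝ) * g)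
    with hBp
  set Bm : Finset ℕ := (Icc 1 N).filter (fun b => η * ((A.card : ℝ) * g) < (A.card : ℝ) * g - cs A b g * ℓ)
    with hBm
  have hsub : Bad A N g η ⊆ Bp ∪ Bm := by
    intro b hb
    unfold Bad at hb
    rw [mem_filter] at hb
    rw [mem_union, hBp, hBm, mem_filter, mem_filter]
    rcases lt_abs.1 hb.2 with h | h
    · exact Or.inl ⟨hb.1, h⟩
    · exact Or.inr ⟨hb.1, by linarith⟩
  have hcard : ((Bad A N g η).card : ℝ) ≤ Bp.card + Bm.card := by
    exact_mod_cast (card_le_card hsub).trans (card_union_le _ _)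
  have hp : (Bp.card : ℝ) * A.card * ℓ ^ k ≤ (N : ℝ) ^ 2 := by
    by_contra hcon
    rw [not_le] at hcon
    have h1 : (N : ℝ) ^ 2 ≤ (A.card : ℝ) * Bp.card * ℓ ^ k := by
      rw [mul_comm (A.card : ℝ)]; exact hcon.le
    have h2 := hpair Bp (fun b hb => by rw [hBp, mem_filter, mem_Icc] at hb; exact hb.1.2) h1
    have hne : Bp.Nonempty := by
      by_contra hne
      rw [not_nonempty_iff_eq_empty] at hne
      rw [hne] at h1
      simp at h1
      nlinarith
    have h3 : ∑ b ∈ Bp, η * ((A.card : ℝ) * g) < ∑ b ∈ Bp, (cs A b g * ℓ - (A.card : ℝ) * g) := by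
      apply sum_lt_sum_of_nonempty hne
      intro b hb
      rw [hBp, mem_filter] at hb
      exact hb.2
    rw [sum_const, nsmul_eq_mul, sum_sub_distrib, ← sum_mul, ← PCs_eq, sum_const, nsmul_eq_mul] at h3
    have h4 := (abs_le.1 h2).2
    nlinarith
  have hm : (Bm.card : ℝ) * A.card * ℓ ^ k ≤ (N : ℝ) ^ 2 := by
    by_contra hcon
    rw [not_le] at hcon
    have h1 : (N : ℝ) ^ 2 ≤ (A.card : ℝ) * Bm.card * ℓ ^ k := by
      rw [mul_comm (A.card : ℝ)]; exact hcon.le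
    have h2 := hpair Bm (fun b hb => by rw [hBm, mem_filter, mem_Icc] at hb; exact hb.1.2) h1
    have hne : Bm.Nonempty := by
      by_contra hne
      rw [not_nonempty_iff_eq_empty] at hne
      rw [hne] at h1
      simp at h1
      nlinarith
    have h3 : ∑ b ∈ Bm, η * ((A.card : ℝ) * g) < ∑ b ∈ Bm, ((A.card : ℝ) * g - cs A b g * ℓ) := by
      apply sum_lt_sum_of_nonempty hne
      intro b hb
      rw [hBm, mem_filter] at hb
      exact hb.2
    rw [sum_const, nsmul_eq_mul, sum_sub_distrib, sum_const, nsmul_eq_mul, ← sum_mul, ← PCs_eq] at h3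
    have h4 := (abs_le.1 h2).1
    nlinarith
  have hk : 0 ≤ (A.card : ℝ) * ℓ ^ k := by positivity
  calc ((Bad A N g η).card : ℝ) * A.card * ℓ ^ k = (Bad A N g η).card * (A.card * ℓ ^ k) := by ring
    _ ≤ (Bp.card + Bm.card) * (A.card * ℓ ^ k) := mul_le_mul_of_nonneg_right hcard hk
    _ = Bp.card * A.card * ℓ ^ k + Bm.card * A.card * ℓ ^ k := by ring
    _ ≤ _ := by linarith

/-- the grid of lengths -/
noncomputable def gr (η : ℝ) (j : ℕ) : ℕ := ⌊(1 + η) ^ j⌋₊

lemma gr_mem {η : ℝ} (hη : 0 < η) (hη1 : η ≤ 1) (y : ℕ) (hy : 1 ≤ y) (hyη : 1 / η ≤ y) :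
    ∃ j : ℕ, (1 + η) ^ j ≤ (y : ℝ) ∧ gr η j ≤ y ∧ y ≤ gr η (j + 1) ∧
      (gr η (j + 1) : ℝ) ≤ (1 + η) * y ∧ (1 - 2 * η) * y ≤ gr η j := by
  have hy1 : (1 : ℝ) ≤ y := by exact_mod_cast hy
  obtain ⟨j, h1, h2⟩ := exists_nat_pow_near hy1 (show 1 < 1 + η by linarith)
  refine ⟨j, h1, ?_, ?_, ?_, ?_⟩
  · have : (gr η j : ℝ) ≤ y := (Nat.floor_le (by positivity)).trans h1
    exact_mod_cast this
  · exact Nat.le_floor h2.le
  · refine (Nat.floor_le (by positivity)).trans ?_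
    rw [pow_succ]
    nlinarith
  · have h3 := Nat.lt_floor_add_one ((1 + η) ^ j)
    have h4 : (1 + η) ^ j < (gr η j : ℝ) + 1 := h3
    have h5 : (y : ℝ) < (1 + η) * (1 + η) ^ j := by rw [pow_succ] at h2; linarith
    have h6 : (1 - η) * (y : ℝ) ≤ (1 + η) ^ j := by
      have h7 : (1 - η) * (y : ℝ) ≤ (1 - η) * ((1 + η) * (1 + η) ^ j) :=
        mul_le_mul_of_nonneg_left h5.le (by linarith)
      have h8 : (1 - η) * ((1 + η) * (1 + η) ^ j) = (1 - η ^ 2) * (1 + η) ^ j := by ring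
      have h9 : (1 - η ^ 2) * (1 + η) ^ j ≤ 1 * (1 + η) ^ j :=
        mul_le_mul_of_nonneg_right (by nlinarith) (by positivity)
      linarith
    have h7 : 1 ≤ η * y := by
      rw [div_le_iff₀ hη] at hyη
      linarith
    linarith

/-- **Averages over translates.** For every set `A` which is not too sparse and all shifts `b`
outside a small set, for all lengths `y` above a power of the logarithm, the average over `a ∈ A`
of the number of primes in `(a + b, a + b + y]` is asymptotically `y / log N`. -/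
theorem transAvg (C : ℕ) (ε : ℝ) (hε : 0 < ε) (hε1 : ε ≤ 1) : ∃ K : ℕ, ∀ᶠ N : ℕ in atTop,
    ∀ A : Finset ℕ, (∀ a ∈ A, a ≤ N) → (N : ℝ) ≤ (A.card : ℝ) * Real.log N ^ C →
    ∃ E : Finset ℕ, E ⊆ Icc 1 N ∧ (E.card : ℝ) * Real.log N ^ C ≤ N ∧
      ∀ b ∈ Icc 1 N, b ∉ E → ∀ y : ℕ, Real.log N ^ K ≤ y → y ≤ N →
        |cs A b y * Real.log N - (A.card : ℝ) * y| ≤ ε * ((A.card : ℝ) * y) := by
  classical
  set η : ℝ := ε / 8 with hη
  have hη0 : 0 < η := by positivity
  have hη1 : η ≤ 1 / 8 := by rw [hη]; linarith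
  obtain ⟨K, hK⟩ := countPair (C + 1) η hη0 (by linarith)
  have hlr : 0 < Real.log (1 + η) := Real.log_pos (by linarith)
  refine ⟨K + 1, ?_⟩
  filter_upwards [hK, ev_L (1 / η + 2 / Real.log (1 + η) + 8), eventually_ge_atTop 16] with
    N hpair hL hN16 A hA hAN
  have hNr : (16 : ℝ) ≤ N := by exact_mod_cast hN16
  have hN0 : (0 : ℝ) < N := by linarith
  set ℓ := Real.log N with hℓ
  have hd1 : 0 < 1 / η := by positivity
  have hd2 : 0 < 2 / Real.log (1 + η) := by positivity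
  have hℓ8 : 8 ≤ ℓ := by linarith
  have hℓ0 : 0 < ℓ := by linarith
  set c : ℝ := (A.card : ℝ) with hc
  have hc0 : 0 < c := by
    by_contra hcon
    have : c = 0 := le_antisymm (not_lt.1 hcon) (Nat.cast_nonneg _)
    rw [this, zero_mul] at hAN
    linarith
  set E : Finset ℕ := (Icc 1 N).filter (fun b => ∃ y : ℕ, ℓ ^ (K + 1) ≤ y ∧ y ≤ N ∧
    ε * (c * y) < |cs A b y * ℓ - c * y|) with hE
  set J : ℕ := ⌊ℓ / Real.log (1 + η)⌋₊ + 2 with hJ
  set BB : ℕ → Finset ℕ := fun j => if ℓ ^ K ≤ (gr η j : ℝ) ∧ gr η j ≤ 2 * N then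
    Bad A N (gr η j) η else ∅ with hBB
  have hBBc : ∀ j, ((BB j).card : ℝ) * c * ℓ ^ (2 * (C + 1)) ≤ 2 * (N : ℝ) ^ 2 := by
    intro j
    simp only [hBB]
    split_ifs with h
    · exact bad_card (by omega) (fun B hB hAB => hpair A B hA hB hAB (gr η j) h.1 h.2)
    · simp
  have hsub : E ⊆ (range J).biUnion BB := by
    intro b hb
    rw [hE, mem_filter] at hb
    obtain ⟨hbN, y, hy1, hy2, hy3⟩ := hb
    have hyℓ : ℓ ≤ y := by
      refine le_trans ?_ hy1
      calc ℓ = ℓ ^ 1 := (pow_one _).symm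
        _ ≤ ℓ ^ (K + 1) := pow_le_pow_right₀ (by linarith) (by omega)
    have hy0 : (1 : ℝ) ≤ y := by linarith
    obtain ⟨j, g1, g2, g3, g4, g5⟩ := gr_mem hη0 (by linarith) y (by exact_mod_cast hy0)
      (by linarith)
    have hyK : ℓ ^ K ≤ (gr η j : ℝ) := by
      refine le_trans ?_ g5
      have h1 : ℓ ^ K * ℓ ≤ y := by rw [← pow_succ]; exact hy1
      have h2 : 0 ≤ ℓ ^ K := by positivity
      have h3 : ℓ ^ K * 2 ≤ y := by nlinarith
      have h4 : (1 / 2) * (y : ℝ) ≤ (1 - 2 * η) * y := by nlinarith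
      linarith
    have hjJ : j + 1 < J := by
      have h1 : (j : ℝ) ≤ ℓ / Real.log (1 + η) := by
        rw [le_div_iff₀ hlr, ← Real.log_pow]
        apply Real.log_le_log (by positivity)
        refine g1.trans ?_
        exact_mod_cast hy2
      have h2 : j ≤ ⌊ℓ / Real.log (1 + η)⌋₊ := Nat.le_floor h1
      omega
    have hg2N : gr η (j + 1) ≤ 2 * N := by
      have h1 : (gr η (j + 1) : ℝ) ≤ 2 * N := by
        refine g4.trans ?_
        have : (y : ℝ) ≤ N := by exact_mod_cast hy2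
        nlinarith
      exact_mod_cast h1
    have hyN : (y : ℝ) ≤ N := by exact_mod_cast hy2
    rw [mem_biUnion]
    by_contra hcon
    push Not at hcon
    have n1 := hcon j (mem_range.2 (by omega))
    have n2 := hcon (j + 1) (mem_range.2 hjJ)
    have hgg : (gr η j : ℝ) ≤ gr η (j + 1) := by exact_mod_cast g2.trans g3
    simp only [hBB] at n1 n2
    rw [if_pos ⟨hyK, by omega⟩] at n1
    rw [if_pos ⟨hyK.trans hgg, hg2N⟩] at n2
    unfold Bad at n1 n2
    rw [mem_filter, not_and, not_lt] at n1 n2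
    have m1 := (abs_le.1 (n1 hbN)).1
    have m2 := (abs_le.1 (n2 hbN)).2
    have c1 := mul_le_mul_of_nonneg_right (cs_mono A b g2) hℓ0.le
    have c2 := mul_le_mul_of_nonneg_right (cs_mono A b g3) hℓ0.le
    have hcy : 0 ≤ c * y := by positivity
    have u1 : cs A b y * ℓ ≤ (1 + η) * (c * ((1 + η) * y)) := by
      calc cs A b y * ℓ ≤ cs A b (gr η (j + 1)) * ℓ := c2
        _ ≤ (1 + η) * (c * gr η (j + 1)) := by linarith
        _ ≤ _ := by gcongr
    have u2 : (1 - η) * (c * ((1 - 2 * η) * y)) ≤ cs A b y * ℓ := by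
      calc (1 - η) * (c * ((1 - 2 * η) * y)) ≤ (1 - η) * (c * gr η j) := by
            apply mul_le_mul_of_nonneg_left _ (by linarith)
            gcongr
        _ ≤ cs A b (gr η j) * ℓ := by linarith
        _ ≤ _ := c1
    have u3 : |cs A b y * ℓ - c * y| ≤ ε * (c * y) := by
      rw [abs_le]
      constructor
      · have : (1 - η) * (c * ((1 - 2 * η) * y)) = (1 - 3 * η + 2 * η ^ 2) * (c * y) := by ring
        rw [this] at u2
        have h8 : ε = 8 * η := by rw [hη]; ring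
        rw [h8]
        nlinarith [mul_nonneg (sq_nonneg η) hcy]
      · have : (1 + η) * (c * ((1 + η) * y)) = (1 + 2 * η + η ^ 2) * (c * y) := by ring
        rw [this] at u1
        have h8 : ε = 8 * η := by rw [hη]; ring
        rw [h8]
        have h9 : η ^ 2 ≤ η := by nlinarith
        nlinarith [mul_le_mul_of_nonneg_right h9 hcy]
    linarith
  refine ⟨E, filter_subset _ _, ?_, ?_⟩
  · have h1 : (E.card : ℝ) ≤ ∑ j ∈ range J, ((BB j).card : ℝ) := by
      exact_mod_cast (card_le_card hsub).trans card_biUnion_le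
    have h2 : (E.card : ℝ) * (c * ℓ ^ (2 * (C + 1))) ≤ J * (2 * (N : ℝ) ^ 2) := by
      calc (E.card : ℝ) * (c * ℓ ^ (2 * (C + 1))) ≤
            (∑ j ∈ range J, ((BB j).card : ℝ)) * (c * ℓ ^ (2 * (C + 1))) := by gcongr
        _ = ∑ j ∈ range J, ((BB j).card : ℝ) * c * ℓ ^ (2 * (C + 1)) := by
            rw [sum_mul]; apply sum_congr rfl; intro j _; ring
        _ ≤ ∑ _j ∈ range J, (2 * (N : ℝ) ^ 2) := sum_le_sum fun j _ => hBBc j
        _ = _ := by rw [sum_const, nsmul_eq_mul, card_range]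
    have h3 : (J : ℝ) * 2 ≤ ℓ ^ 2 := by
      have h4 : (J : ℝ) ≤ ℓ / Real.log (1 + η) + 2 := by
        rw [hJ]; push_cast
        have := Nat.floor_le (show 0 ≤ ℓ / Real.log (1 + η) by positivity)
        linarith
      have h5 : 2 / Real.log (1 + η) ≤ ℓ - 8 := by linarith
      have h6 : ℓ / Real.log (1 + η) * 2 ≤ ℓ * (ℓ - 8) := by
        calc ℓ / Real.log (1 + η) * 2 = ℓ * (2 / Real.log (1 + η)) := by ring
          _ ≤ _ := mul_le_mul_of_nonneg_left h5 hℓ0.le
      nlinarith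
    have h4 : (E.card : ℝ) * (N * ℓ ^ (C + 2)) ≤ (E.card : ℝ) * (c * ℓ ^ (2 * (C + 1))) := by
      apply mul_le_mul_of_nonneg_left _ (Nat.cast_nonneg _)
      calc (N : ℝ) * ℓ ^ (C + 2) ≤ (c * ℓ ^ C) * ℓ ^ (C + 2) := by gcongr
        _ = _ := by rw [mul_assoc, ← pow_add]; congr 2; ring
    have h5 : ((E.card : ℝ) * ℓ ^ C) * (N * ℓ ^ 2) ≤ N * (N * ℓ ^ 2) := by
      calc ((E.card : ℝ) * ℓ ^ C) * (N * ℓ ^ 2) = (E.card : ℝ) * (N * ℓ ^ (C + 2)) := by
            rw [pow_add]; ring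
        _ ≤ J * (2 * (N : ℝ) ^ 2) := h4.trans h2
        _ = (J * 2) * (N : ℝ) ^ 2 := by ring
        _ ≤ ℓ ^ 2 * (N : ℝ) ^ 2 := by gcongr
        _ = _ := by ring
    exact le_of_mul_le_mul_right h5 (by positivity)
  · intro b hb hbE y hy1 hy2
    rw [hE, mem_filter] at hbE
    push Not at hbE
    exact hbE hb y hy1 hy2

end Pool.Agent.W301.SS
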