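import Mathlib
import Pool.Agent.W301.SS.Good
import Pool.Agent.H295R3.Hoheisel

/-! Sparse sets: `|A| ≥ N ^ (1 - κ)`, with a power saving. -/

set_option autoImplicit false

namespace Pool.Agent.W301.SS
open Finset Filter

lemma ev_pow (c δ : ℝ) (hδ : 0 < δ) : ∀ᶠ N : ℕ in atTop, c ≤ (N : ℝ) ^ δ := by
  filter_upwards [ev_log 0 c δ hδ] with N h
  simpa using h

/-- long intervals -/
lemma theta_long {δ η : ℝ} (hδ : 0 < δ) (hδ1 : δ < 1) (hη : 0 < η) {X₀ : ℕ}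
    (hH : ∀ X Y : ℕ, X₀ ≤ X → (X : ℝ) ^ (1 - δ) ≤ Y → Y ≤ X →
      η * Y / Real.log X ≤ (((Ioc X (X + Y)).filter Nat.Prime).card : ℝ)) :
    ∀ᶠ N : ℕ in atTop, ∀ x y : ℕ, x ≤ 2 * N → (N : ℝ) ^ (1 - δ / 2) ≤ y → y ≤ 2 * N →
      (η / 8) * y ≤ ∑ h ∈ Ioc 0 y, om (x + h) := by
  filter_upwards [ev_L 2, ev_pow 12 (δ / 2) (by linarith), ev_pow (6 * (X₀ + 4)) (1 / 2) (by norm_num),
    eventually_ge_atTop 16] with N h1 h2 h3 hN16 x y hx hy1 hy2
  have hNr : (16 : ℝ) ≤ N := by exact_mod_cast hN16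
  have hN0 : (0 : ℝ) < N := by linarith
  have hN1 : (1 : ℝ) ≤ N := by linarith
  set ℓ := Real.log N with hℓ
  have hℓ0 : 0 < ℓ := by linarith
  have hyhalf : (N : ℝ) ^ (1 / 2 : ℝ) ≤ y := by
    refine le_trans ?_ hy1
    exact Real.rpow_le_rpow_of_exponent_le hN1 (by linarith)
  have hX0r : (0 : ℝ) ≤ X₀ := Nat.cast_nonneg _
  have hybig : (6 : ℝ) * (X₀ + 4) ≤ y := h3.trans hyhalf
  have hy24 : 24 ≤ y := by
    have : (24 : ℝ) ≤ y := by linarith
    exact_mod_cast this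
  set Y : ℕ := y / 2 with hY
  set X : ℕ := max x (y - y / 2) with hX
  have hYX : Y ≤ X := le_trans (by omega : Y ≤ y - y / 2) (le_max_right _ _)
  have hXx : x ≤ X := le_max_left _ _
  have hXy : y - y / 2 ≤ X := le_max_right _ _
  have hXY : X + Y ≤ x + y := by
    rcases max_choice x (y - y / 2) with h | h
    · rw [hX, h]; omega
    · rw [hX, h]; omega
  have hX2N : X ≤ 2 * N := by
    rw [hX]; apply max_le hx; omega
  have hYr : (y : ℝ) / 3 ≤ Y := by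
    have : y ≤ 3 * Y := by omega
    have : (y : ℝ) ≤ 3 * Y := by exact_mod_cast this
    linarith
  have hXr : (y : ℝ) / 2 ≤ X := by
    have h4 : y ≤ 2 * X := by omega
    have : (y : ℝ) ≤ 2 * X := by exact_mod_cast h4
    linarith
  have hX0 : X₀ ≤ X := by
    have : (X₀ : ℝ) ≤ X := by linarith
    exact_mod_cast this
  have hX0' : (0 : ℝ) < X := by
    have : (0 : ℝ) < y := by linarith
    linarith
  have hXle : (X : ℝ) ≤ 2 * N := by exact_mod_cast hX2N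
  have hYlow : (X : ℝ) ^ (1 - δ) ≤ Y := by
    refine le_trans ?_ hYr
    have a1 : (X : ℝ) ^ (1 - δ) ≤ (2 * N) ^ (1 - δ) := Real.rpow_le_rpow hX0'.le hXle (by linarith)
    have a2 : (2 * (N : ℝ)) ^ (1 - δ) ≤ 2 * (N : ℝ) ^ (1 - δ) := by
      rw [Real.mul_rpow (by norm_num) hN0.le]
      apply mul_le_mul_of_nonneg_right _ (by positivity)
      calc (2 : ℝ) ^ (1 - δ) ≤ (2 : ℝ) ^ (1 : ℝ) :=
            Real.rpow_le_rpow_of_exponent_le (by norm_num) (by linarith)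
        _ = 2 := Real.rpow_one _
    have a3 : (12 : ℝ) * (N : ℝ) ^ (1 - δ) ≤ (N : ℝ) ^ (1 - δ / 2) := by
      calc (12 : ℝ) * (N : ℝ) ^ (1 - δ) ≤ (N : ℝ) ^ (δ / 2) * (N : ℝ) ^ (1 - δ) := by gcongr
        _ = _ := by rw [← Real.rpow_add hN0]; congr 1; ring
    have a4 : 0 ≤ (N : ℝ) ^ (1 - δ) := by positivity
    linarith
  have hprimes := hH X Y hX0 hYlow hYX
  have hlogX : Real.log X ≤ 2 * ℓ := by
    have a1 := Real.log_le_log hX0' hXle
    rw [Real.log_mul (by norm_num) hN0.ne'] at a1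
    have := Real.log_two_lt_d9
    linarith
  have hXgt1 : (1 : ℝ) < X := by
    have : (24 : ℝ) ≤ y := by exact_mod_cast hy24
    linarith
  have hlogX0 : 0 < Real.log X := Real.log_pos hXgt1
  have hlogX2 : ℓ / 2 - 1 ≤ Real.log X := by
    have a1 : (N : ℝ) ^ (1 / 2 : ℝ) / 2 ≤ X := by linarith
    have a2 := Real.log_le_log (by positivity) a1
    rw [Real.log_div (by positivity) (by norm_num), Real.log_rpow hN0] at a2
    have := Real.log_two_lt_d9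
    linarith
  -- the sum of `log p`
  have hsum : Real.log X * (((Ioc X (X + Y)).filter Nat.Prime).card : ℝ) ≤
      ∑ h ∈ Ioc 0 y, om (x + h) := by
    have e1 : ∑ h ∈ Ioc 0 y, om (x + h) = ∑ n ∈ Ioc x (x + y), om n := by
      have h3 : Ioc x (x + y) = (Ioc 0 y).map (addLeftEmbedding x) := by
        rw [map_add_left_Ioc, add_zero]
      rw [h3, sum_map]; rfl
    rw [e1]
    have e2 : ∑ n ∈ (Ioc X (X + Y)).filter Nat.Prime, om n ≤ ∑ n ∈ Ioc x (x + y), om n := by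
      apply sum_le_sum_of_subset_of_nonneg
      · intro n hn
        rw [mem_filter, mem_Ioc] at hn
        rw [mem_Ioc]; omega
      · intro _ _ _; exact om_nonneg _
    refine le_trans ?_ e2
    rw [mul_comm, ← nsmul_eq_mul, ← sum_const]
    apply sum_le_sum
    intro n hn
    rw [mem_filter, mem_Ioc] at hn
    unfold om
    rw [if_pos hn.2]
    apply Real.log_le_log hX0'
    exact_mod_cast hn.1.1.le
  refine le_trans ?_ hsum
  have b1 : Real.log X * (η * Y / Real.log X) ≤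
      Real.log X * (((Ioc X (X + Y)).filter Nat.Prime).card : ℝ) :=
    mul_le_mul_of_nonneg_left hprimes hlogX0.le
  refine le_trans ?_ b1
  have e : Real.log X * (η * Y / Real.log X) = η * Y := by field_simp
  rw [e]
  have : η * (y / 3) ≤ η * Y := mul_le_mul_of_nonneg_left hYr hη.le
  have hy0 : (0 : ℝ) ≤ y := Nat.cast_nonneg _
  nlinarith

/-- sums over pairs, sparse sets -/
theorem thetaPow : ∃ c : ℝ, 0 < c ∧ ∀ ε : ℝ, 0 < ε → ε < 1 → ∃ κ : ℝ, 0 < κ ∧ κ ≤ ε / 8 ∧ κ ≤ 1 / 20 ∧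
    ∀ᶠ N : ℕ in atTop, ∀ A B : Finset ℕ, (∀ a ∈ A, a ≤ N) → (∀ b ∈ B, b ≤ N) →
    (N : ℝ) ^ (2 - 2 * κ) ≤ (A.card : ℝ) * B.card →
    ∀ y : ℕ, (N : ℝ) ^ ε ≤ y → y ≤ 2 * N → c * ((A.card : ℝ) * B.card * y) ≤ TT A B y := by
  obtain ⟨δ, η, hδ, hδ1, hη, X₀, _, hHoh⟩ := Pool.Agent.H295R3.D.hoheisel
  obtain ⟨C0, hC0, hbil⟩ := bilinear
  refine ⟨η / 16, by positivity, fun ε hε hε1 => ?_⟩
  set d : ℝ := δ / 2 with hd
  have hd0 : 0 < d := by positivity
  have hd1 : d < 1 / 2 := by rw [hd]; linarith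
  set κ3 : ℝ := min (ε / 2) (min (1 / 5) (d / 3)) with hκ3
  have k1 : κ3 ≤ ε / 2 := min_le_left _ _
  have k2 : κ3 ≤ 1 / 5 := (min_le_right _ _).trans (min_le_left _ _)
  have k3 : κ3 ≤ d / 3 := (min_le_right _ _).trans (min_le_right _ _)
  have k0 : 0 < κ3 := lt_min (by linarith) (lt_min (by norm_num) (by linarith))
  refine ⟨κ3 / 4, by linarith, by linarith, by linarith, ?_⟩
  filter_upwards [theta_long hδ hδ1 hη hHoh, ev_L 2, ev_log 7 (C0 * 2000 * 16 / η) (κ3 / 2) (by linarith),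
    ev_pow 4 (κ3 / 4) (by linarith), eventually_ge_atTop 16] with N h1 h2 h3 h4 hN16 A B hA hB hAB y hy1 hy2
  have hNr : (16 : ℝ) ≤ N := by exact_mod_cast hN16
  have hN0 : (0 : ℝ) < N := by linarith
  have hN1 : (1 : ℝ) ≤ N := by linarith
  set ℓ := Real.log N with hℓ
  have hℓ0 : 0 < ℓ := by linarith
  set P : ℝ := (A.card : ℝ) * B.card with hP
  have hP0 : 0 < P := lt_of_lt_of_le (by positivity) hAB
  -- long lengths
  have hlong : ∀ z : ℕ, (N : ℝ) ^ (1 - d) ≤ z → z ≤ 2 * N → (η / 8) * (P * z) ≤ TT A B z := by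
    intro z hz1 hz2
    unfold TT
    have e : (η / 8) * (P * z) = ∑ _a ∈ A, ∑ _b ∈ B, (η / 8) * z := by
      rw [sum_const, sum_const, nsmul_eq_mul, nsmul_eq_mul, hP]; ring
    rw [e]
    apply sum_le_sum; intro a ha
    apply sum_le_sum; intro b hb
    exact h1 (a + b) z (by have := hA a ha; have := hB b hb; omega) hz1 hz2
  rcases le_or_gt ((N : ℝ) ^ (1 - d)) y with hcase | hcase
  · refine le_trans ?_ (hlong y hcase hy2)
    have : 0 ≤ P * y := by positivity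
    nlinarith
  · set H1 : ℕ := ⌈(N : ℝ) ^ (1 - d)⌉₊ with hH1
    have hH1ge : (N : ℝ) ^ (1 - d) ≤ H1 := Nat.le_ceil _
    have hpow1 : (1 : ℝ) ≤ (N : ℝ) ^ (1 - d) := Real.one_le_rpow hN1 (by linarith)
    have hH1le : (H1 : ℝ) ≤ 2 * (N : ℝ) ^ (1 - d) := by
      have := Nat.ceil_lt_add_one (show 0 ≤ (N : ℝ) ^ (1 - d) by positivity)
      rw [← hH1] at this
      linarith
    have hH1N : H1 ≤ 2 * N := by
      have : (N : ℝ) ^ (1 - d) ≤ N := by
        calc (N : ℝ) ^ (1 - d) ≤ (N : ℝ) ^ (1 : ℝ) := Real.rpow_le_rpow_of_exponent_le hN1 (by linarith)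
          _ = N := Real.rpow_one _
      have h5 : (H1 : ℝ) ≤ 2 * N := by linarith
      exact_mod_cast h5
    have hyH1 : y ≤ H1 := by
      have : (y : ℝ) ≤ H1 := hcase.le.trans hH1ge
      exact_mod_cast this
    have hy0 : (1 : ℝ) ≤ y := le_trans (Real.one_le_rpow hN1 hε.le) hy1
    have hy1n : 1 ≤ y := by exact_mod_cast hy0
    have hyp : (0 : ℝ) < y := by linarith
    have hH10 : (0 : ℝ) < H1 := by linarith
    set Q : ℝ := (N : ℝ) ^ (1 - 2 * d / 3) with hQ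
    have hQ0 : 0 < Q := by positivity
    have b1 := hbil (4 * N) (by omega) A B (fun a ha => by have := hA a ha; omega)
      (fun b hb => by have := hB b hb; omega) y H1 hy1n hyH1
      (fun a ha b hb => by have := hA a ha; have := hB b hb; omega) Q hQ0
    have b2 := hlong H1 hH1ge hH1N
    -- the error term
    set Z : ℝ := (N : ℝ) ^ (1 - κ3) with hZ
    have hZ0 : 0 < Z := by positivity
    have hL : 1 + Real.log ((4 * N : ℕ) : ℝ) ≤ 2 * ℓ + 1 := by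
      push_cast
      rw [Real.log_mul (by norm_num) (by linarith)]
      have := log4
      linarith
    have hL0 : 0 ≤ 1 + Real.log ((4 * N : ℕ) : ℝ) := by
      have : 0 ≤ Real.log ((4 * N : ℕ) : ℝ) := Real.log_natCast_nonneg _
      linarith
    have hL7 : (1 + Real.log ((4 * N : ℕ) : ℝ)) ^ 7 ≤ (5 / 2 * ℓ) ^ 7 :=
      pow_le_pow_left₀ hL0 (by linarith) 7
    have c1 : ((4 * N : ℕ) : ℝ) / √(y : ℝ) ≤ 4 * Z := by
      have a1 : (N : ℝ) ^ (ε / 2) ≤ √(y : ℝ) := by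
        apply Real.le_sqrt_of_sq_le
        rw [← Real.rpow_natCast, ← Real.rpow_mul hN0.le]
        refine le_trans (le_of_eq ?_) hy1
        congr 1; push_cast; ring
      have a2 : (N : ℝ) / √(y : ℝ) ≤ Z := by
        calc (N : ℝ) / √(y : ℝ) ≤ N / (N : ℝ) ^ (ε / 2) := by gcongr
          _ = (N : ℝ) ^ (1 - ε / 2) := by rw [Real.rpow_sub hN0, Real.rpow_one]
          _ ≤ Z := Real.rpow_le_rpow_of_exponent_le hN1 (by linarith)
      push_cast
      rw [mul_div_assoc]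
      linarith
    have c2 : ((4 * N : ℕ) : ℝ) ^ (4 / 5 : ℝ) ≤ 4 * Z := by
      push_cast
      rw [Real.mul_rpow (by norm_num) hN0.le]
      have d1 : (4 : ℝ) ^ (4 / 5 : ℝ) ≤ 4 := by
        calc (4 : ℝ) ^ (4 / 5 : ℝ) ≤ (4 : ℝ) ^ (1 : ℝ) :=
              Real.rpow_le_rpow_of_exponent_le (by norm_num) (by norm_num)
          _ = 4 := Real.rpow_one _
      have d2 : (N : ℝ) ^ (4 / 5 : ℝ) ≤ Z := Real.rpow_le_rpow_of_exponent_le hN1 (by linarith)
      gcongr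
    have c3 : √(((4 * N : ℕ) : ℝ) * Q) ≤ 2 * Z := by
      apply Real.sqrt_le_iff.2
      refine ⟨by positivity, ?_⟩
      push_cast
      have a1 : (N : ℝ) * Q ≤ Z ^ 2 := by
        rw [hZ, hQ, ← Real.rpow_natCast, ← Real.rpow_mul hN0.le]
        nth_rewrite 1 [← Real.rpow_one (N : ℝ)]
        rw [← Real.rpow_add hN0]
        apply Real.rpow_le_rpow_of_exponent_le hN1
        push_cast; linarith
      nlinarith
    have c4 : ((4 * N : ℕ) : ℝ) * H1 / Q ≤ 8 * Z := by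
      push_cast
      rw [div_le_iff₀ hQ0]
      have a1 : (N : ℝ) * (N : ℝ) ^ (1 - d) ≤ Z * Q := by
        rw [hZ, hQ, ← Real.rpow_add hN0]
        nth_rewrite 1 [← Real.rpow_one (N : ℝ)]
        rw [← Real.rpow_add hN0]
        apply Real.rpow_le_rpow_of_exponent_le hN1
        linarith
      calc 4 * (N : ℝ) * H1 ≤ 4 * (N : ℝ) * (2 * (N : ℝ) ^ (1 - d)) := by gcongr
        _ = 8 * ((N : ℝ) * (N : ℝ) ^ (1 - d)) := by ring
        _ ≤ 8 * (Z * Q) := by gcongr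
        _ = _ := by ring
    have c6 : ERR (4 * N) y H1 Q ≤ 2000 * 4 * (ℓ ^ 7 * Z) := by
      unfold ERR
      have d1 : 0 ≤ ((4 * N : ℕ) : ℝ) / √(y : ℝ) + ((4 * N : ℕ) : ℝ) ^ (4 / 5 : ℝ) +
          √(((4 * N : ℕ) : ℝ) * Q) := by positivity
      have d2 : (1 + Real.log ((4 * N : ℕ) : ℝ)) ^ 7 * (((4 * N : ℕ) : ℝ) / √(y : ℝ) +
          ((4 * N : ℕ) : ℝ) ^ (4 / 5 : ℝ) + √(((4 * N : ℕ) : ℝ) * Q)) ≤
          (5 / 2 * ℓ) ^ 7 * (10 * Z) := by
        apply mul_le_mul hL7 (by linarith) d1 (by positivity)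
      have d3 : (5 / 2 * ℓ) ^ 7 * (10 * Z) ≤ 7000 * (ℓ ^ 7 * Z) := by
        have : (5 / 2 * ℓ) ^ 7 * (10 * Z) = (78125 / 128 * 10) * (ℓ ^ 7 * Z) := by ring
        rw [this]
        have : 0 ≤ ℓ ^ 7 * Z := by positivity
        nlinarith
      have d4 : Z ≤ ℓ ^ 7 * Z := by
        have : 1 ≤ ℓ ^ 7 := one_le_pow₀ (by linarith)
        nlinarith
      linarith
    have hsP : (N : ℝ) ^ (1 - κ3 / 4) ≤ √P := by
      apply Real.le_sqrt_of_sq_le
      rw [← Real.rpow_natCast, ← Real.rpow_mul hN0.le]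
      refine le_trans (le_of_eq ?_) hAB
      congr 1; push_cast; ring
    have c7 : C0 * √P * ERR (4 * N) y H1 Q ≤ (η / 16) * P := by
      have d1 : C0 * (2000 * 4 * (ℓ ^ 7 * Z)) ≤ (η / 16) * √P := by
        have e1 : C0 * (2000 * 4 * (ℓ ^ 7 * Z)) = (η / 16 * 4) * ((C0 * 2000 * 16 / η * ℓ ^ 7) * Z) := by
          field_simp
        rw [e1]
        have e2 : (C0 * 2000 * 16 / η * ℓ ^ 7) * Z ≤ (N : ℝ) ^ (κ3 / 2) * Z := by gcongr
        have e3 : (N : ℝ) ^ (κ3 / 2) * Z = (N : ℝ) ^ (1 - κ3 / 2) := by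
          rw [hZ, ← Real.rpow_add hN0]; congr 1; ring
        have e4 : 4 * (N : ℝ) ^ (1 - κ3 / 2) ≤ (N : ℝ) ^ (1 - κ3 / 4) := by
          calc 4 * (N : ℝ) ^ (1 - κ3 / 2) ≤ (N : ℝ) ^ (κ3 / 4) * (N : ℝ) ^ (1 - κ3 / 2) := by gcongr
            _ = _ := by rw [← Real.rpow_add hN0]; congr 1; ring
        calc (η / 16 * 4) * ((C0 * 2000 * 16 / η * ℓ ^ 7) * Z) ≤
              (η / 16 * 4) * (N : ℝ) ^ (1 - κ3 / 2) := by
                rw [← e3]; gcongr
          _ = (η / 16) * (4 * (N : ℝ) ^ (1 - κ3 / 2)) := by ring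
          _ ≤ (η / 16) * √P := by
                apply mul_le_mul_of_nonneg_left _ (by positivity)
                exact e4.trans hsP
      calc C0 * √P * ERR (4 * N) y H1 Q ≤ C0 * √P * (2000 * 4 * (ℓ ^ 7 * Z)) := by gcongr
        _ = √P * (C0 * (2000 * 4 * (ℓ ^ 7 * Z))) := by ring
        _ ≤ √P * ((η / 16) * √P) := by gcongr
        _ = (η / 16) * (√P * √P) := by ring
        _ = (η / 16) * P := by rw [Real.mul_self_sqrt hP0.le]
    have b3 := (abs_le.1 (b1.trans c7)).1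
    have b4 : (η / 8) * P ≤ TT A B H1 / H1 := by
      rw [le_div_iff₀ hH10]; linarith
    have b5 : (η / 16) * P ≤ TT A B y / y := by linarith
    rw [le_div_iff₀ hyp] at b5
    linarith

/-- **Averages over the translates of a sparse set.** -/
theorem transPow : ∃ c : ℝ, 0 < c ∧ c ≤ 1 ∧ ∀ ε : ℝ, 0 < ε → ε < 1 → ∃ κ : ℝ, 0 < κ ∧ κ ≤ ε / 16 ∧ κ ≤ 1 / 40 ∧
    ∀ᶠ N : ℕ in atTop, ∀ A : Finset ℕ, (∀ a ∈ A, a ≤ N) → (N : ℝ) ^ (1 - κ) ≤ A.card →
    ∃ E : Finset ℕ, E ⊆ Icc 1 N ∧ (E.card : ℝ) ≤ (N : ℝ) ^ (1 - κ) ∧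
      ∀ b ∈ Icc 1 N, b ∉ E → ∀ y : ℕ, (N : ℝ) ^ ε ≤ y → y ≤ N →
        c * ((A.card : ℝ) * y) ≤ cs A b y * Real.log N := by
  classical
  obtain ⟨c, hc, hmain⟩ := thetaPow
  refine ⟨min 1 (c / 4), lt_min one_pos (by positivity), min_le_left _ _, fun ε hε hε1 => ?_⟩
  obtain ⟨κ, hκ0, hκ1, hκ2, hev⟩ := hmain (ε / 2) (by linarith) (by linarith)
  refine ⟨κ / 2, by linarith, by linarith, by linarith, ?_⟩
  filter_upwards [hev, ev_L 4, ev_log 1 4 (κ / 2) (by linarith), ev_pow 2 (ε / 2) (by linarith),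
    eventually_ge_atTop 16] with N h1 h2 h3 h4 hN16 A hA hAN
  have hNr : (16 : ℝ) ≤ N := by exact_mod_cast hN16
  have hN0 : (0 : ℝ) < N := by linarith
  have hN1 : (1 : ℝ) ≤ N := by linarith
  set ℓ := Real.log N with hℓ
  have hℓ0 : 0 < ℓ := by linarith
  rw [pow_one] at h3
  have hA0 : (0 : ℝ) < A.card := lt_of_lt_of_le (by positivity) hAN
  -- pairs, counting primes
  have hpair : ∀ B : Finset ℕ, (∀ b ∈ B, b ≤ N) → (N : ℝ) ^ (2 - 2 * κ) ≤ (A.card : ℝ) * B.card →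
      ∀ g : ℕ, (N : ℝ) ^ (ε / 2) ≤ g → g ≤ 2 * N →
      (c / 2) * ((A.card : ℝ) * B.card * g) ≤ PCs A B g * ℓ := by
    intro B hB hAB g hg1 hg2
    have a1 := h1 A B hA hB hAB g hg1 hg2
    have a2 := conv_low hA hB hg2 (2 * ℓ) (by
      push_cast
      rw [Real.log_mul (by norm_num) (by linarith)]
      have := log4
      linarith)
    linarith
  set Bm : ℕ → Finset ℕ := fun g => (Icc 1 N).filter (fun b => cs A b g * ℓ < (c / 2) * ((A.card : ℝ) * g))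
    with hBm
  have hBmc : ∀ g : ℕ, (N : ℝ) ^ (ε / 2) ≤ g → g ≤ 2 * N →
      (A.card : ℝ) * (Bm g).card ≤ (N : ℝ) ^ (2 - 2 * κ) := by
    intro g hg1 hg2
    by_contra hcon
    rw [not_le] at hcon
    have a1 := hpair (Bm g) (fun b hb => by simp only [hBm, mem_filter, mem_Icc] at hb; exact hb.1.2)
      hcon.le g hg1 hg2
    have hne : (Bm g).Nonempty := by
      by_contra hne
      rw [not_nonempty_iff_eq_empty] at hne
      rw [hne] at hcon
      simp at hcon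
      have : (0 : ℝ) < (N : ℝ) ^ (2 - 2 * κ) := by positivity
      linarith
    have a2 : ∑ b ∈ Bm g, cs A b g * ℓ < ∑ _b ∈ Bm g, (c / 2) * ((A.card : ℝ) * g) := by
      apply sum_lt_sum_of_nonempty hne
      intro b hb
      simp only [hBm, mem_filter] at hb
      exact hb.2
    rw [← sum_mul, ← PCs_eq, sum_const, nsmul_eq_mul] at a2
    linarith
  set E : Finset ℕ := (Icc 1 N).filter (fun b => ∃ y : ℕ, (N : ℝ) ^ ε ≤ y ∧ y ≤ N ∧
    cs A b y * ℓ < min 1 (c / 4) * ((A.card : ℝ) * y)) with hE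
  set J : ℕ := Nat.log 2 N + 1 with hJ
  set BB : ℕ → Finset ℕ := fun j => if (N : ℝ) ^ (ε / 2) ≤ ((2 ^ j : ℕ) : ℝ) ∧ 2 ^ j ≤ 2 * N then
    Bm (2 ^ j) else ∅ with hBB
  have hBBc : ∀ j, (A.card : ℝ) * (BB j).card ≤ (N : ℝ) ^ (2 - 2 * κ) := by
    intro j
    simp only [hBB]
    split_ifs with h
    · exact hBmc _ h.1 h.2
    · simp; positivity
  have hsub : E ⊆ (range J).biUnion BB := by
    intro b hb
    rw [hE, mem_filter] at hb
    obtain ⟨hbN, y, hy1, hy2, hy3⟩ := hb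
    have hyr : (1 : ℝ) ≤ y := (Real.one_le_rpow hN1 hε.le).trans hy1
    have hy0 : y ≠ 0 := by
      intro h0; rw [h0] at hyr; norm_num at hyr
    set j := Nat.log 2 y with hj
    have g1 : 2 ^ j ≤ y := Nat.pow_log_le_self 2 hy0
    have g2 : y < 2 ^ (j + 1) := Nat.lt_pow_succ_log_self (by norm_num) y
    have g3 : (y : ℝ) ≤ 2 * ((2 ^ j : ℕ) : ℝ) := by
      have : y ≤ 2 * 2 ^ j := by rw [pow_succ] at g2; omega
      exact_mod_cast this
    have g4 : (N : ℝ) ^ (ε / 2) ≤ ((2 ^ j : ℕ) : ℝ) := by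
      have a1 : (N : ℝ) ^ (ε / 2) * 2 ≤ y := by
        calc (N : ℝ) ^ (ε / 2) * 2 ≤ (N : ℝ) ^ (ε / 2) * (N : ℝ) ^ (ε / 2) := by gcongr
          _ = (N : ℝ) ^ ε := by rw [← Real.rpow_add hN0]; congr 1; ring
          _ ≤ y := hy1
      linarith
    have g5 : 2 ^ j ≤ 2 * N := by omega
    have hjJ : j < J := by
      have : j ≤ Nat.log 2 N := Nat.log_mono_right hy2
      omega
    rw [mem_biUnion]
    refine ⟨j, mem_range.2 hjJ, ?_⟩
    simp only [hBB]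
    rw [if_pos ⟨g4, g5⟩]
    simp only [hBm, mem_filter]
    refine ⟨hbN, ?_⟩
    have a1 : cs A b (2 ^ j) * ℓ ≤ cs A b y * ℓ := mul_le_mul_of_nonneg_right (cs_mono A b g1) hℓ0.le
    have a2 : min 1 (c / 4) * ((A.card : ℝ) * y) ≤ (c / 2) * ((A.card : ℝ) * ((2 ^ j : ℕ) : ℝ)) := by
      calc min 1 (c / 4) * ((A.card : ℝ) * y) ≤ (c / 4) * ((A.card : ℝ) * (2 * ((2 ^ j : ℕ) : ℝ))) := by
            apply mul_le_mul (min_le_right _ _) _ (by positivity) (by positivity)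
            gcongr
        _ = _ := by ring
    linarith
  refine ⟨E, filter_subset _ _, ?_, ?_⟩
  · have e1 : (E.card : ℝ) ≤ ∑ j ∈ range J, ((BB j).card : ℝ) := by
      exact_mod_cast (card_le_card hsub).trans card_biUnion_le
    have e2 : (A.card : ℝ) * E.card ≤ J * (N : ℝ) ^ (2 - 2 * κ) := by
      calc (A.card : ℝ) * E.card ≤ (A.card : ℝ) * ∑ j ∈ range J, ((BB j).card : ℝ) := by gcongr
        _ = ∑ j ∈ range J, (A.card : ℝ) * ((BB j).card : ℝ) := by rw [mul_sum]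
        _ ≤ ∑ _j ∈ range J, (N : ℝ) ^ (2 - 2 * κ) := sum_le_sum fun j _ => hBBc j
        _ = _ := by rw [sum_const, nsmul_eq_mul, card_range]
    have e3 : (J : ℝ) ≤ 4 * ℓ := by
      have h5 : (Nat.log 2 N : ℝ) * Real.log 2 ≤ ℓ := by
        have h6 : (2 : ℝ) ^ Nat.log 2 N ≤ (N : ℝ) := by
          exact_mod_cast Nat.pow_log_le_self 2 (by omega)
        have h7 := Real.log_le_log (by positivity) h6
        rwa [Real.log_pow] at h7
      have h6 := Real.log_two_gt_d9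
      have h7 : (0 : ℝ) ≤ Nat.log 2 N := Nat.cast_nonneg _
      rw [hJ]; push_cast
      nlinarith
    have e4 : (A.card : ℝ) * E.card ≤ (N : ℝ) ^ (1 - κ / 2) * (N : ℝ) ^ (1 - κ / 2) * 1 := by
      calc (A.card : ℝ) * E.card ≤ (4 * ℓ) * (N : ℝ) ^ (2 - 2 * κ) := e2.trans (by gcongr)
        _ ≤ (N : ℝ) ^ (κ / 2) * (N : ℝ) ^ (2 - 2 * κ) := by gcongr
        _ ≤ (N : ℝ) ^ (1 - κ / 2) * (N : ℝ) ^ (1 - κ / 2) * 1 := by
            rw [mul_one, ← Real.rpow_add hN0, ← Real.rpow_add hN0]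
            exact Real.rpow_le_rpow_of_exponent_le hN1 (by linarith)
    have e5 : (N : ℝ) ^ (1 - κ / 2) * E.card ≤ (N : ℝ) ^ (1 - κ / 2) * (N : ℝ) ^ (1 - κ / 2) := by
      calc (N : ℝ) ^ (1 - κ / 2) * E.card ≤ (A.card : ℝ) * E.card := by gcongr
        _ ≤ _ := by linarith
    exact le_of_mul_le_mul_left e5 (by positivity)
  · intro b hb hbE y hy1 hy2
    rw [hE, mem_filter] at hbE
    push Not at hbE
    exact hbE hb y hy1 hy2

end Pool.Agent.W301.SS
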