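import Mathlib
import Pool.Agent.W301.SS.Pow

/-! The two main theorems on the translates of a set. -/

set_option autoImplicit false

namespace Pool.Agent.W301.SS
open Finset Filter

/-- Sets of density `(log N) ^ (-C)`, lengths at least `(log N) ^ K`. -/
theorem polyFull (C : ℕ) (ε : ℝ) (hε : 0 < ε) (hε1 : ε ≤ 1 / 4) : ∃ K : ℕ, ∀ᶠ N : ℕ in atTop,
    ∀ A : Finset ℕ, (∀ a ∈ A, a ≤ N) → (N : ℝ) ≤ (A.card : ℝ) * Real.log N ^ C →
    ∃ E : Finset ℕ, E ⊆ Icc 1 N ∧ (E.card : ℝ) * Real.log N ^ C ≤ N ∧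
      ∀ b ∈ Icc 1 N, b ∉ E → ∀ y : ℕ, Real.log N ^ K ≤ y → y ≤ N →
        |cs A b y * Real.log N - (A.card : ℝ) * y| ≤ ε * ((A.card : ℝ) * y) ∧
        (1 / 4 - ε) * A.card ≤ (GG A N b y ε).card := by
  set δ : ℝ := ε / 4 with hδ
  have hδ0 : 0 < δ := by positivity
  have hδ1 : δ ≤ 1 / 4 := by rw [hδ]; linarith
  obtain ⟨K, hK⟩ := transAvg C δ hδ0 (by linarith)
  refine ⟨max K (C + 20), ?_⟩
  filter_upwards [hK, subsets δ hδ0 hδ1, ev_L (1024 / δ + 4), ev_log (C + 2) (24 / δ ^ 2) δ hδ0,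
    ev_log (C + 1) (2 / δ) (3 / 4) (by norm_num), eventually_ge_atTop 16] with
    N h1 h2 h3 h4 h5 hN16 A hA hAN
  have hNr : (16 : ℝ) ≤ N := by exact_mod_cast hN16
  have hN0 : (0 : ℝ) < N := by linarith
  set ℓ := Real.log N with hℓ
  have hd1 : 0 < 1024 / δ := by positivity
  have hℓ4 : 4 ≤ ℓ := by linarith
  have hℓ0 : 0 < ℓ := by linarith
  obtain ⟨E, hE1, hE2, hE3⟩ := h1 A hA hAN
  refine ⟨E, hE1, hE2, fun b hb hbE y hy1 hy2 => ?_⟩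
  have hyK : ℓ ^ K ≤ y := (pow_le_pow_right₀ (by linarith) (le_max_left _ _)).trans hy1
  have hyC : ℓ ^ (C + 20) ≤ y := (pow_le_pow_right₀ (by linarith) (le_max_right _ _)).trans hy1
  have g1 := hE3 b hb hbE y hyK hy2
  have hyr : (1 : ℝ) ≤ y := (one_le_pow₀ (by linarith)).trans hyK
  have hyn : 1 ≤ y := by exact_mod_cast hyr
  have hy0 : (0 : ℝ) < y := by linarith
  have hAc : (N : ℝ) / ℓ ^ C ≤ A.card := by
    rw [div_le_iff₀ (by positivity)]; exact hAN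
  have c1 : (3 * (N : ℝ) ^ (1 - δ) + (2 * N / y) * (2 * ℓ) ^ 16) * (4 * ℓ ^ 2 / δ ^ 2) ≤ A.card := by
    refine le_trans ?_ hAc
    have a1 : 3 * (N : ℝ) ^ (1 - δ) * (4 * ℓ ^ 2 / δ ^ 2) ≤ (1 / 2) * (N / ℓ ^ C) := by
      have e1 : 3 * (N : ℝ) ^ (1 - δ) * (4 * ℓ ^ 2 / δ ^ 2) =
          (1 / 2) * ((24 / δ ^ 2 * ℓ ^ (C + 2)) * (N : ℝ) ^ (1 - δ) / ℓ ^ C) := by
        rw [pow_add]; field_simp; ring
      rw [e1]
      apply mul_le_mul_of_nonneg_left _ (by norm_num)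
      apply div_le_div_of_nonneg_right _ (by positivity)
      calc (24 / δ ^ 2 * ℓ ^ (C + 2)) * (N : ℝ) ^ (1 - δ) ≤ (N : ℝ) ^ δ * (N : ℝ) ^ (1 - δ) := by gcongr
        _ = N := by rw [← Real.rpow_add hN0]; norm_num
    have a2 : (2 * N / y) * (2 * ℓ) ^ 16 * (4 * ℓ ^ 2 / δ ^ 2) ≤ (1 / 2) * (N / ℓ ^ C) := by
      have e1 : (2 * N / y) * (2 * ℓ) ^ 16 * (4 * ℓ ^ 2 / δ ^ 2) =
          (1 / 2) * (N / ℓ ^ C) * ((1048576 / δ ^ 2) * ℓ ^ (C + 18) / y) := by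
        rw [pow_add]; field_simp; ring
      rw [e1]
      have e2 : (1048576 / δ ^ 2) * ℓ ^ (C + 18) / y ≤ 1 := by
        rw [div_le_one hy0]
        refine le_trans ?_ hyC
        have e3 : ℓ ^ (C + 20) = ℓ ^ 2 * ℓ ^ (C + 18) := by rw [← pow_add]; congr 1; omega
        rw [e3]
        apply mul_le_mul_of_nonneg_right _ (by positivity)
        have e4 : 1024 / δ ≤ ℓ := by linarith
        calc 1048576 / δ ^ 2 = (1024 / δ) ^ 2 := by field_simp; norm_num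
          _ ≤ ℓ ^ 2 := pow_le_pow_left₀ hd1.le e4 2
      calc _ ≤ (1 / 2) * (N / ℓ ^ C) * 1 := mul_le_mul_of_nonneg_left e2 (by positivity)
        _ = _ := by ring
    calc _ = 3 * (N : ℝ) ^ (1 - δ) * (4 * ℓ ^ 2 / δ ^ 2) +
          (2 * N / y) * (2 * ℓ) ^ 16 * (4 * ℓ ^ 2 / δ ^ 2) := by ring
      _ ≤ _ := by linarith
  have c2 : (N : ℝ) ^ (1 / 4 : ℝ) * (2 * ℓ / δ) ≤ A.card := by
    refine le_trans ?_ hAc
    rw [le_div_iff₀ (by positivity)]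
    calc (N : ℝ) ^ (1 / 4 : ℝ) * (2 * ℓ / δ) * ℓ ^ C =
          (N : ℝ) ^ (1 / 4 : ℝ) * (2 / δ * ℓ ^ (C + 1)) := by
            have e1 : ℓ ^ (C + 1) = ℓ ^ C * ℓ := pow_succ ℓ C
            rw [e1]; ring
      _ ≤ (N : ℝ) ^ (1 / 4 : ℝ) * (N : ℝ) ^ (3 / 4 : ℝ) := by gcongr
      _ = N := by rw [← Real.rpow_add hN0]; norm_num
  have g2 := h2 A hA b hb y hyn c1 c2
  have hAy : 0 ≤ (A.card : ℝ) * y := by positivity
  have hlow : (1 - δ) * ((A.card : ℝ) * y) ≤ cs A b y * ℓ := by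
    have := (abs_le.1 g1).1
    linarith
  have g3 := many δ hδ0 hδ1 (N := N) ε (1 - δ) hε.le hyn g2 hlow
  constructor
  · refine g1.trans ?_
    apply mul_le_mul_of_nonneg_right _ hAy
    rw [hδ]; linarith
  · refine le_trans ?_ g3
    apply mul_le_mul_of_nonneg_right _ (Nat.cast_nonneg _)
    rw [hδ]
    nlinarith

lemma GG_mono {A : Finset ℕ} {N b y : ℕ} {τ τ' : ℝ} (h : τ ≤ τ') : GG A N b y τ' ⊆ GG A N b y τ := by
  unfold GG
  intro a ha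
  rw [mem_filter] at ha ⊢
  refine ⟨ha.1, le_trans ?_ ha.2⟩
  exact mul_le_mul_of_nonneg_right h (Nat.cast_nonneg _)

/-- Sets with at least `N ^ (1 - κ)` elements, lengths at least `N ^ ε`. -/
theorem powFull : ∃ c : ℝ, 0 < c ∧ c ≤ 1 ∧ ∀ ε : ℝ, 0 < ε → ε < 1 → ∃ κ : ℝ, 0 < κ ∧ κ ≤ ε / 16 ∧
    κ ≤ 1 / 40 ∧ ∀ᶠ N : ℕ in atTop, ∀ A : Finset ℕ, (∀ a ∈ A, a ≤ N) → (N : ℝ) ^ (1 - κ) ≤ A.card →
    (∀ b ∈ Icc 1 N, ∀ y : ℕ, (N : ℝ) ^ ε ≤ y → cs A b y * Real.log N ≤ 5 * ((A.card : ℝ) * y)) ∧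
    ∃ E : Finset ℕ, E ⊆ Icc 1 N ∧ (E.card : ℝ) ≤ (N : ℝ) ^ (1 - κ) ∧
      ∀ b ∈ Icc 1 N, b ∉ E → ∀ y : ℕ, (N : ℝ) ^ ε ≤ y → y ≤ N →
        c * ((A.card : ℝ) * y) ≤ cs A b y * Real.log N ∧
        c * A.card ≤ (GG A N b y c).card := by
  obtain ⟨c, hc0, hc1, hmain⟩ := transPow
  refine ⟨c / 16, by positivity, by linarith, fun ε hε hε1 => ?_⟩
  obtain ⟨κ, hκ0, hκ1, hκ2, hev⟩ := hmain ε hε hε1
  set δ : ℝ := c / 4 with hδ
  have hδ0 : 0 < δ := by positivity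
  have hδ1 : δ ≤ 1 / 4 := by rw [hδ]; linarith
  set κ' : ℝ := min κ (δ / 2) with hκ'
  have hk0 : 0 < κ' := lt_min hκ0 (by linarith)
  have hk1 : κ' ≤ κ := min_le_left _ _
  have hk2 : κ' ≤ δ / 2 := min_le_right _ _
  refine ⟨κ', hk0, by linarith, by linarith, ?_⟩
  have cond : ∀ d : ℝ, 0 < d → 2 * κ' ≤ d → d ≤ 1 / 4 → ∀ᶠ N : ℕ in atTop,
      ∀ A : Finset ℕ, (N : ℝ) ^ (1 - κ') ≤ A.card → ∀ y : ℕ, (N : ℝ) ^ ε ≤ y →
      (3 * (N : ℝ) ^ (1 - d) + (2 * N / y) * (2 * Real.log N) ^ 16) * (4 * Real.log N ^ 2 / d ^ 2) ≤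
        A.card ∧ (N : ℝ) ^ (1 / 4 : ℝ) * (2 * Real.log N / d) ≤ A.card := by
    intro d hd0 hd1 hd2
    filter_upwards [ev_log 2 (24 / d ^ 2) (d / 2) (by linarith),
      ev_log 18 (1048576 / d ^ 2) (ε / 2) (by linarith), ev_log 1 (2 / d) (1 / 2) (by norm_num),
      ev_L 4, eventually_ge_atTop 16] with N h1 h2 h3 h4 hN16 A hAN y hy
    have hNr : (16 : ℝ) ≤ N := by exact_mod_cast hN16
    have hN0 : (0 : ℝ) < N := by linarith
    have hN1 : (1 : ℝ) ≤ N := by linarith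
    set ℓ := Real.log N with hℓ
    have hℓ0 : 0 < ℓ := by linarith
    have hy0 : (0 : ℝ) < y := lt_of_lt_of_le (by positivity) hy
    constructor
    · refine le_trans ?_ hAN
      have a1 : 3 * (N : ℝ) ^ (1 - d) * (4 * ℓ ^ 2 / d ^ 2) ≤ (1 / 2) * (N : ℝ) ^ (1 - κ') := by
        have e1 : 3 * (N : ℝ) ^ (1 - d) * (4 * ℓ ^ 2 / d ^ 2) =
            (1 / 2) * ((24 / d ^ 2 * ℓ ^ 2) * (N : ℝ) ^ (1 - d)) := by field_simp; ring
        rw [e1]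
        apply mul_le_mul_of_nonneg_left _ (by norm_num)
        calc (24 / d ^ 2 * ℓ ^ 2) * (N : ℝ) ^ (1 - d) ≤ (N : ℝ) ^ (d / 2) * (N : ℝ) ^ (1 - d) := by gcongr
          _ = (N : ℝ) ^ (1 - d / 2) := by rw [← Real.rpow_add hN0]; congr 1; ring
          _ ≤ _ := Real.rpow_le_rpow_of_exponent_le hN1 (by linarith)
      have a2 : (2 * N / y) * (2 * ℓ) ^ 16 * (4 * ℓ ^ 2 / d ^ 2) ≤ (1 / 2) * (N : ℝ) ^ (1 - κ') := by
        calc (2 * N / y) * (2 * ℓ) ^ 16 * (4 * ℓ ^ 2 / d ^ 2) ≤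
              (2 * N / (N : ℝ) ^ ε) * (2 * ℓ) ^ 16 * (4 * ℓ ^ 2 / d ^ 2) := by gcongr
          _ = (1 / 2) * ((1048576 / d ^ 2 * ℓ ^ 18) * (N / (N : ℝ) ^ ε)) := by field_simp; ring
          _ ≤ (1 / 2) * ((N : ℝ) ^ (ε / 2) * (N / (N : ℝ) ^ ε)) := by gcongr
          _ = (1 / 2) * (N : ℝ) ^ (1 - ε / 2) := by
              congr 1
              nth_rewrite 2 [← Real.rpow_one (N : ℝ)]
              rw [← Real.rpow_sub hN0, ← Real.rpow_add hN0]; congr 1; ring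
          _ ≤ _ := by
              apply mul_le_mul_of_nonneg_left _ (by norm_num)
              exact Real.rpow_le_rpow_of_exponent_le hN1 (by linarith)
      calc _ = 3 * (N : ℝ) ^ (1 - d) * (4 * ℓ ^ 2 / d ^ 2) +
            (2 * N / y) * (2 * ℓ) ^ 16 * (4 * ℓ ^ 2 / d ^ 2) := by ring
        _ ≤ _ := by linarith
    · refine le_trans ?_ hAN
      rw [pow_one] at h3
      calc (N : ℝ) ^ (1 / 4 : ℝ) * (2 * ℓ / d) = (N : ℝ) ^ (1 / 4 : ℝ) * (2 / d * ℓ) := by ring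
        _ ≤ (N : ℝ) ^ (1 / 4 : ℝ) * (N : ℝ) ^ (1 / 2 : ℝ) := by gcongr
        _ ≤ (N : ℝ) ^ (1 - κ') := by
            rw [← Real.rpow_add hN0]
            exact Real.rpow_le_rpow_of_exponent_le hN1 (by linarith)
  filter_upwards [hev, subsets δ hδ0 hδ1, subsets (1 / 16) (by norm_num) (by norm_num),
    cond δ hδ0 (by linarith) hδ1, cond (1 / 16) (by norm_num) (by linarith) (by norm_num),
    eventually_ge_atTop 16] with N h1 h2 h3 h4 h5 hN16 A hA hAN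
  have hNr : (16 : ℝ) ≤ N := by exact_mod_cast hN16
  have hN0 : (0 : ℝ) < N := by linarith
  have hN1 : (1 : ℝ) ≤ N := by linarith
  constructor
  · intro b hb y hy
    have hyr : (1 : ℝ) ≤ y := (Real.one_le_rpow hN1 hε.le).trans hy
    have hyn : 1 ≤ y := by exact_mod_cast hyr
    obtain ⟨c1, c2⟩ := h5 A hAN y hy
    have g := h3 A hA b hb y hyn c1 c2 A (Subset.refl A)
    unfold cs
    refine g.trans ?_
    have hA0 : (0 : ℝ) ≤ A.card := Nat.cast_nonneg _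
    have : (4 / (1 - 2 * (1 / 16)) * (A.card : ℝ) + 1 / 16 * A.card) ≤ 5 * A.card := by
      norm_num; linarith
    calc _ ≤ (5 * (A.card : ℝ)) * y := mul_le_mul_of_nonneg_right this (Nat.cast_nonneg _)
      _ = _ := by ring
  · have hpow : (N : ℝ) ^ (1 - κ) ≤ (N : ℝ) ^ (1 - κ') :=
      Real.rpow_le_rpow_of_exponent_le hN1 (by linarith)
    obtain ⟨E, hE1, hE2, hE3⟩ := h1 A hA (hpow.trans hAN)
    refine ⟨E, hE1, hE2.trans hpow, fun b hb hbE y hy1 hy2 => ?_⟩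
    have g1 := hE3 b hb hbE y hy1 hy2
    have hyr : (1 : ℝ) ≤ y := (Real.one_le_rpow hN1 hε.le).trans hy1
    have hyn : 1 ≤ y := by exact_mod_cast hyr
    obtain ⟨c1, c2⟩ := h4 A hAN y hy1
    have g2 := h2 A hA b hb y hyn c1 c2
    have g3 := many δ hδ0 hδ1 (N := N) δ c hδ0.le hyn g2 g1
    have hAy : 0 ≤ (A.card : ℝ) * y := by positivity
    constructor
    · refine le_trans ?_ g1
      apply mul_le_mul_of_nonneg_right _ hAy
      linarith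
    · have g4 : ((GG A N b y δ).card : ℝ) ≤ (GG A N b y (c / 16)).card := by
        exact_mod_cast card_le_card (GG_mono (by rw [hδ]; linarith))
      refine le_trans (le_trans ?_ g3) g4
      apply mul_le_mul_of_nonneg_right _ (Nat.cast_nonneg _)
      rw [hδ]
      nlinarith

end Pool.Agent.W301.SS
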