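import Mathlib
import Pool.Agent.W301.SS.Full

/-! Statements with the prime counting function. -/

set_option autoImplicit false

namespace Pool.Agent.W301.SS
open Finset Filter

lemma pi_card (m : ℕ) : Nat.primeCounting m = ((Ioc 0 m).filter Nat.Prime).card := by
  rw [Nat.primeCounting, Nat.primeCounting', Nat.count_eq_card_filter_range]
  congr 1
  ext k
  simp only [mem_filter, mem_range, mem_Ioc]
  constructor
  · rintro ⟨h1, h2⟩; exact ⟨⟨h2.pos, by omega⟩, h2⟩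
  · rintro ⟨h1, h2⟩; exact ⟨by omega, h2⟩

lemma pn_pi (n y : ℕ) : (pn n y : ℝ) = (Nat.primeCounting (n + y) : ℝ) - Nat.primeCounting n := by
  have h : Nat.primeCounting (n + y) = Nat.primeCounting n + pn n y := by
    rw [pi_card, pi_card]
    unfold pn
    have h1 : Ioc 0 (n + y) = Ioc 0 n ∪ Ioc n (n + y) := by
      ext i; simp only [mem_union, mem_Ioc]; omega
    rw [h1, filter_union, card_union_of_disjoint]
    apply disjoint_filter_filter
    rw [disjoint_left]; intro i hi hi'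
    rw [mem_Ioc] at hi hi'; omega
  rw [h]; push_cast; ring

lemma pn_floor (n : ℕ) (y : ℝ) (hy : 0 ≤ y) :
    (Nat.primeCounting ⌊(n : ℝ) + y⌋₊ : ℝ) - Nat.primeCounting n = pn n ⌊y⌋₊ := by
  rw [pn_pi]
  have : ⌊(n : ℝ) + y⌋₊ = n + ⌊y⌋₊ := by
    rw [add_comm, Nat.floor_add_natCast hy, add_comm]
  rw [this]

/-- The averages of `R(x, y)` over the translates. -/
theorem avgVar (ε : ℝ) (hε : 0 < ε) (hε1 : ε ≤ 1) (C : ℕ) : ∃ K : ℕ, ∀ᶠ N : ℕ in atTop,
    ∀ A : Finset ℕ, (∀ a ∈ A, a ≤ N) → (N : ℝ) ≤ (A.card : ℝ) * Real.log N ^ C →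
    ∃ E : Finset ℕ, E ⊆ Icc 1 N ∧ (E.card : ℝ) * Real.log N ^ C ≤ N ∧
      ∀ b ∈ Icc 1 N, b ∉ E → ((N : ℝ) ^ (1 - ε / 8) ≤ b) ∧
      (∀ Y : ℝ, Real.log N ^ K ≤ Y → Y ≤ N →
        ∀ y : ℕ → ℝ, (∀ a ∈ A, (1 - ε / 8) * Y ≤ y a ∧ y a ≤ Y) →
        |(∑ a ∈ A, ((Nat.primeCounting ⌊((a + b : ℕ) : ℝ) + y a⌋₊ : ℝ) - Nat.primeCounting (a + b)) /
          (y a / Real.log ((a + b : ℕ) : ℝ))) / A.card - 1| ≤ ε) ∧
      ∀ y : ℕ, Real.log N ^ K ≤ y → y ≤ N →
        (1 / 4 - ε / 8) * A.card ≤ (GG A N b y (ε / 8)).card := by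
  classical
  set δ : ℝ := ε / 8 with hδ
  have hδ0 : 0 < δ := by positivity
  have hδ1 : δ ≤ 1 / 8 := by rw [hδ]; linarith
  obtain ⟨K, hK⟩ := polyFull (C + 1) δ hδ0 (by linarith)
  refine ⟨K + 1, ?_⟩
  filter_upwards [hK, ev_L (2 / δ + 4), ev_log C 2 δ hδ0, eventually_ge_atTop 16] with
    N h1 h2 h3 hN16 A hA hAN
  have hNr : (16 : ℝ) ≤ N := by exact_mod_cast hN16
  have hN0 : (0 : ℝ) < N := by linarith
  have hN1 : (1 : ℝ) ≤ N := by linarith
  set ℓ := Real.log N with hℓ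
  have hd1 : 0 < 2 / δ := by positivity
  have hℓ4 : 4 ≤ ℓ := by linarith
  have hℓ0 : 0 < ℓ := by linarith
  have hA0 : (0 : ℝ) < A.card := by
    by_contra hcon
    have : (A.card : ℝ) = 0 := le_antisymm (not_lt.1 hcon) (Nat.cast_nonneg _)
    rw [this, zero_mul] at hAN
    linarith
  obtain ⟨E, hE1, hE2, hE3⟩ := h1 A hA (by
    refine hAN.trans ?_
    apply mul_le_mul_of_nonneg_left _ hA0.le
    exact pow_le_pow_right₀ (by linarith) (by omega))
  set E' : Finset ℕ := E ∪ (Icc 1 N).filter (fun b : ℕ => ((b : ℕ) : ℝ) < (N : ℝ) ^ (1 - δ)) with hE'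
  refine ⟨E', union_subset hE1 (filter_subset _ _), ?_, ?_⟩
  · have a1 : (E'.card : ℝ) ≤ E.card + ((Icc 1 N).filter (fun b : ℕ => ((b : ℕ) : ℝ) < (N : ℝ) ^ (1 - δ))).card := by
      exact_mod_cast card_union_le _ _
    have a2 : (((Icc 1 N).filter (fun b : ℕ => ((b : ℕ) : ℝ) < (N : ℝ) ^ (1 - δ))).card : ℝ) ≤
        (N : ℝ) ^ (1 - δ) := by
      have a3 : (Icc 1 N).filter (fun b : ℕ => ((b : ℕ) : ℝ) < (N : ℝ) ^ (1 - δ)) ⊆
          Icc 1 ⌊(N : ℝ) ^ (1 - δ)⌋₊ := by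
        intro b hb
        rw [mem_filter, mem_Icc] at hb
        rw [mem_Icc]
        exact ⟨hb.1.1, Nat.le_floor hb.2.le⟩
      have a4 := card_le_card a3
      rw [Nat.card_Icc] at a4
      have a5 : ((((Icc 1 N).filter (fun b : ℕ => ((b : ℕ) : ℝ) < (N : ℝ) ^ (1 - δ))).card : ℕ) : ℝ) ≤
          ((⌊(N : ℝ) ^ (1 - δ)⌋₊ : ℕ) : ℝ) := by
        exact_mod_cast (by omega : _ ≤ ⌊(N : ℝ) ^ (1 - δ)⌋₊)
      exact a5.trans (Nat.floor_le (by positivity))
    have a3 : (E.card : ℝ) * ℓ ^ C ≤ N / 2 := by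
      have : (E.card : ℝ) * ℓ ^ C * ℓ ≤ N := by rw [mul_assoc, ← pow_succ]; exact hE2
      have h0 : 0 ≤ (E.card : ℝ) * ℓ ^ C := by positivity
      nlinarith
    have a4 : (N : ℝ) ^ (1 - δ) * ℓ ^ C ≤ N / 2 := by
      have : (N : ℝ) ^ (1 - δ) * (2 * ℓ ^ C) ≤ N := by
        calc (N : ℝ) ^ (1 - δ) * (2 * ℓ ^ C) ≤ (N : ℝ) ^ (1 - δ) * (N : ℝ) ^ δ := by gcongr
          _ = N := by rw [← Real.rpow_add hN0]; norm_num
      linarith
    have h0 : 0 ≤ ℓ ^ C := by positivity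
    calc (E'.card : ℝ) * ℓ ^ C ≤ (E.card + (N : ℝ) ^ (1 - δ)) * ℓ ^ C := by gcongr; linarith
      _ = E.card * ℓ ^ C + (N : ℝ) ^ (1 - δ) * ℓ ^ C := by ring
      _ ≤ _ := by linarith
  · intro b hb hbE
    rw [hE', mem_union, mem_filter] at hbE
    push Not at hbE
    obtain ⟨hbE1, hbE2⟩ := hbE
    have hbN := hbE2 hb
    rw [mem_Icc] at hb
    have hbr : (b : ℝ) ≤ N := by exact_mod_cast hb.2
    refine ⟨hbN, ?_, ?_⟩
    · intro Y hY1 hY2 y hy
      have hYℓ : ℓ ^ K * ℓ ≤ Y := by rw [← pow_succ]; exact hY1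
      have hℓK : 1 ≤ ℓ ^ K := one_le_pow₀ (by linarith)
      have hYbig : ℓ ≤ Y := by nlinarith
      have hY0 : 0 < Y := by linarith
      set f1 : ℕ := ⌊(1 - δ) * Y⌋₊ with hf1
      set f2 : ℕ := ⌊Y⌋₊ with hf2
      have hf2N : f2 ≤ N := by
        have : (f2 : ℝ) ≤ N := (Nat.floor_le hY0.le).trans hY2
        exact_mod_cast this
      have hf12 : f1 ≤ f2 := Nat.floor_mono (by nlinarith)
      have hf1lo : (1 - 2 * δ) * Y ≤ f1 := by
        have a1 := Nat.lt_floor_add_one ((1 - δ) * Y)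
        rw [← hf1] at a1
        have a2 : 1 ≤ δ * Y := by
          have : 2 / δ ≤ Y := by linarith
          rw [div_le_iff₀ hδ0] at this
          linarith
        linarith
      have hf2hi : (f2 : ℝ) ≤ Y := Nat.floor_le hY0.le
      have hf1K : ℓ ^ K ≤ f1 := by
        refine le_trans ?_ hf1lo
        nlinarith
      have hf1r : (f1 : ℝ) ≤ f2 := by exact_mod_cast hf12
      obtain ⟨g1, _⟩ := hE3 b (mem_Icc.2 hb) hbE1 f1 hf1K (hf12.trans hf2N)
      obtain ⟨g2, _⟩ := hE3 b (mem_Icc.2 hb) hbE1 f2 (hf1K.trans hf1r) hf2N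
      -- logarithms
      have hlog : ∀ a ∈ A, (1 - δ) * ℓ ≤ Real.log ((a + b : ℕ) : ℝ) ∧
          Real.log ((a + b : ℕ) : ℝ) ≤ (1 + δ) * ℓ := by
        intro a ha
        have ha1 : (a : ℝ) ≤ N := by exact_mod_cast hA a ha
        have ha0 : (0 : ℝ) ≤ a := Nat.cast_nonneg a
        constructor
        · rw [← Real.log_rpow hN0]
          apply Real.log_le_log (by positivity)
          push_cast; linarith
        · have hab : ((a + b : ℕ) : ℝ) ≤ 2 * N := by push_cast; linarith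
          have hab0 : (0 : ℝ) < ((a + b : ℕ) : ℝ) := by
            exact_mod_cast (by omega : 0 < a + b)
          have a1 := Real.log_le_log hab0 hab
          rw [Real.log_mul (by norm_num) hN0.ne'] at a1
          have a2 := Real.log_two_lt_d9
          have a3 : 1 ≤ δ * ℓ := by
            have : 2 / δ ≤ ℓ := by linarith
            rw [div_le_iff₀ hδ0] at this
            linarith
          linarith
      have hd : 0 < 1 - δ := by linarith
      -- termwise bounds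
      have hterm : ∀ a ∈ A, ((1 - δ) * ℓ / Y) * (pn (a + b) f1 : ℝ) ≤
          ((Nat.primeCounting ⌊((a + b : ℕ) : ℝ) + y a⌋₊ : ℝ) - Nat.primeCounting (a + b)) /
            (y a / Real.log ((a + b : ℕ) : ℝ)) ∧
          ((Nat.primeCounting ⌊((a + b : ℕ) : ℝ) + y a⌋₊ : ℝ) - Nat.primeCounting (a + b)) /
            (y a / Real.log ((a + b : ℕ) : ℝ)) ≤ ((1 + δ) * ℓ / ((1 - δ) * Y)) * (pn (a + b) f2 : ℝ) := by
        intro a ha
        obtain ⟨y1, y2⟩ := hy a ha
        obtain ⟨l1, l2⟩ := hlog a ha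
        have hya : 0 < y a := lt_of_lt_of_le (by positivity) y1
        have hl0 : 0 < Real.log ((a + b : ℕ) : ℝ) := lt_of_lt_of_le (by positivity) l1
        rw [pn_floor (a + b) (y a) hya.le]
        have m1 : (pn (a + b) f1 : ℝ) ≤ pn (a + b) ⌊y a⌋₊ := by
          exact_mod_cast pn_mono (Nat.floor_mono y1)
        have m2 : (pn (a + b) ⌊y a⌋₊ : ℝ) ≤ pn (a + b) f2 := by
          exact_mod_cast pn_mono (Nat.floor_mono y2)
        have e : (pn (a + b) ⌊y a⌋₊ : ℝ) / (y a / Real.log ((a + b : ℕ) : ℝ)) =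
            (Real.log ((a + b : ℕ) : ℝ) / y a) * (pn (a + b) ⌊y a⌋₊ : ℝ) := by
          field_simp
        rw [e]
        have p1 : (0 : ℝ) ≤ pn (a + b) f1 := Nat.cast_nonneg _
        have p2 : (0 : ℝ) ≤ pn (a + b) ⌊y a⌋₊ := Nat.cast_nonneg _
        constructor
        · apply mul_le_mul _ m1 p1 (by positivity)
          apply div_le_div₀ hl0.le l1 hya y2
        · apply mul_le_mul _ m2 p2 (by positivity)
          apply div_le_div₀ (by positivity) l2 (by positivity) y1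
      have hlow : ((1 - δ) * ℓ / Y) * cs A b f1 ≤ ∑ a ∈ A,
          ((Nat.primeCounting ⌊((a + b : ℕ) : ℝ) + y a⌋₊ : ℝ) - Nat.primeCounting (a + b)) /
            (y a / Real.log ((a + b : ℕ) : ℝ)) := by
        unfold cs
        rw [mul_sum]
        exact sum_le_sum fun a ha => (hterm a ha).1
      have hupp : ∑ a ∈ A,
          ((Nat.primeCounting ⌊((a + b : ℕ) : ℝ) + y a⌋₊ : ℝ) - Nat.primeCounting (a + b)) /
            (y a / Real.log ((a + b : ℕ) : ℝ)) ≤ ((1 + δ) * ℓ / ((1 - δ) * Y)) * cs A b f2 := by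
        unfold cs
        rw [mul_sum]
        exact sum_le_sum fun a ha => (hterm a ha).2
      have b1 : (1 - δ) * ((A.card : ℝ) * f1) ≤ cs A b f1 * ℓ := by
        have := (abs_le.1 g1).1; linarith
      have b2 : cs A b f2 * ℓ ≤ (1 + δ) * ((A.card : ℝ) * f2) := by
        have := (abs_le.1 g2).2; linarith
      have c1 : (1 - ε) * A.card ≤ ((1 - δ) * ℓ / Y) * cs A b f1 := by
        have e : ((1 - δ) * ℓ / Y) * cs A b f1 = ((1 - δ) / Y) * (cs A b f1 * ℓ) := by ring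
        rw [e]
        calc (1 - ε) * (A.card : ℝ) ≤ ((1 - δ) * (1 - δ) * (1 - 2 * δ)) * A.card := by
              apply mul_le_mul_of_nonneg_right _ hA0.le
              have : ε = 8 * δ := by rw [hδ]; ring
              rw [this]
              nlinarith [mul_nonneg hδ0.le hδ0.le, mul_nonneg (mul_nonneg hδ0.le hδ0.le) hδ0.le]
          _ = ((1 - δ) / Y) * ((1 - δ) * ((A.card : ℝ) * ((1 - 2 * δ) * Y))) := by
              field_simp
          _ ≤ ((1 - δ) / Y) * ((1 - δ) * ((A.card : ℝ) * f1)) := by gcongr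
          _ ≤ _ := by gcongr
      have c2 : ((1 + δ) * ℓ / ((1 - δ) * Y)) * cs A b f2 ≤ (1 + ε) * A.card := by
        have e : ((1 + δ) * ℓ / ((1 - δ) * Y)) * cs A b f2 =
            ((1 + δ) / ((1 - δ) * Y)) * (cs A b f2 * ℓ) := by ring
        rw [e]
        calc ((1 + δ) / ((1 - δ) * Y)) * (cs A b f2 * ℓ) ≤
              ((1 + δ) / ((1 - δ) * Y)) * ((1 + δ) * ((A.card : ℝ) * f2)) := by gcongr
          _ ≤ ((1 + δ) / ((1 - δ) * Y)) * ((1 + δ) * ((A.card : ℝ) * Y)) := by gcongr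
          _ = ((1 + δ) * (1 + δ) / (1 - δ)) * A.card := by field_simp
          _ ≤ _ := by
              apply mul_le_mul_of_nonneg_right _ hA0.le
              rw [div_le_iff₀ hd]
              have : ε = 8 * δ := by rw [hδ]; ring
              rw [this]
              nlinarith
      rw [abs_le]
      constructor
      · have : (1 - ε) ≤ (∑ a ∈ A,
          ((Nat.primeCounting ⌊((a + b : ℕ) : ℝ) + y a⌋₊ : ℝ) - Nat.primeCounting (a + b)) /
            (y a / Real.log ((a + b : ℕ) : ℝ))) / A.card := by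
          rw [le_div_iff₀ hA0]; exact c1.trans hlow
        linarith
      · have : (∑ a ∈ A,
          ((Nat.primeCounting ⌊((a + b : ℕ) : ℝ) + y a⌋₊ : ℝ) - Nat.primeCounting (a + b)) /
            (y a / Real.log ((a + b : ℕ) : ℝ))) / A.card ≤ 1 + ε := by
          rw [div_le_iff₀ hA0]; exact hupp.trans c2
        linarith
    · intro z hz1 hz2
      have : ℓ ^ K ≤ (z : ℝ) := (pow_le_pow_right₀ (by linarith) (by omega)).trans hz1
      exact (hE3 b (mem_Icc.2 hb) hbE1 z this hz2).2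

end Pool.Agent.W301.SS
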