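import Mathlib
import Pool.Agent.W301.SS.Avg

/-! Polylogarithmic distances, statement with the prime counting function. -/

set_option autoImplicit false

namespace Pool.Agent.W301.SS
open Finset Filter

lemma half_floor {y : ℝ} (hy : 1 ≤ y) : y / 2 ≤ (⌊y⌋₊ : ℝ) := by
  have h1 := Nat.lt_floor_add_one y
  have h2 : (1 : ℝ) ≤ (⌊y⌋₊ : ℝ) := by exact_mod_cast (Nat.le_floor (by exact_mod_cast hy) : 1 ≤ ⌊y⌋₊)
  linarith

/-- from the finset of good elements to the prime counting function -/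
lemma GG_sub {A : Finset ℕ} {N b : ℕ} {τ y : ℝ} (hτ : 0 ≤ τ) (hy : 1 ≤ y) (hN : 0 < Real.log N)
    {a : ℕ} (ha : a ∈ GG A N b ⌊y⌋₊ τ) : a ∈ A ∧ τ / 2 * (y / Real.log N) ≤
      (Nat.primeCounting ⌊((a + b : ℕ) : ℝ) + y⌋₊ : ℝ) - Nat.primeCounting (a + b) := by
  unfold GG at ha
  rw [mem_filter] at ha
  refine ⟨ha.1, ?_⟩
  rw [pn_floor (a + b) y (by linarith)]
  have h1 := half_floor hy
  have h2 : τ * (y / 2) ≤ (pn (a + b) ⌊y⌋₊ : ℝ) * Real.log N :=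
    (mul_le_mul_of_nonneg_left h1 hτ).trans ha.2
  have e : τ / 2 * (y / Real.log N) = (τ * (y / 2)) / Real.log N := by ring
  rw [e, div_le_iff₀ hN]
  exact h2

theorem polyGaps (ε : ℝ) (hε : 0 < ε) (hε1 : ε ≤ 1 / 4) (C : ℕ) :
    ∃ K : ℕ, ∀ N : ℕ, K ≤ N → ∀ A : Finset ℕ, A ⊆ Finset.Icc 1 N →
      (N : ℝ) / Real.log N ^ C ≤ A.card →
      ∃ E : Finset ℕ, E ⊆ Finset.Icc 1 N ∧ (E.card : ℝ) ≤ (N : ℝ) / Real.log N ^ C ∧
        ∀ b ∈ Finset.Icc 1 N, b ∉ E → ∀ y : ℝ, Real.log N ^ K ≤ y → y ≤ N →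
          (1 / 4 - ε) * A.card ≤ (Set.ncard {a : ℕ | a ∈ A ∧ ε / 2 * (y / Real.log N) ≤
            (Nat.primeCounting ⌊((a + b : ℕ) : ℝ) + y⌋₊ : ℝ) - Nat.primeCounting (a + b)} : ℝ) := by
  obtain ⟨K, hK⟩ := polyFull C ε hε hε1
  obtain ⟨N₀, hN₀⟩ := Filter.eventually_atTop.1 (hK.and (ev_L 4))
  refine ⟨max (K + 1) (max N₀ 3), fun N hN A hA hAN => ?_⟩
  obtain ⟨h1, h2⟩ := hN₀ N ((le_max_left _ _).trans ((le_max_right _ _).trans hN))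
  have hℓ : 0 < Real.log N := by linarith
  have hp : 0 < Real.log N ^ C := by positivity
  rw [div_le_iff₀ hp] at hAN
  obtain ⟨E, hE1, hE2, hE3⟩ := h1 A (fun a ha => (Finset.mem_Icc.1 (hA ha)).2) hAN
  refine ⟨E, hE1, by rw [le_div_iff₀ hp]; exact hE2, fun b hb hbE y hy1 hy2 => ?_⟩
  have hy3 : Real.log N ^ (K + 1) ≤ y :=
    (pow_le_pow_right₀ (by linarith) (le_max_left _ _)).trans hy1
  have hK1 : 1 ≤ Real.log N ^ K := one_le_pow₀ (by linarith)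
  have hy4 : Real.log N ^ K * Real.log N ≤ y := by rw [← pow_succ]; exact hy3
  have hy5 : 1 ≤ y := by nlinarith
  have hfl := half_floor hy5
  have hfK : Real.log N ^ K ≤ (⌊y⌋₊ : ℝ) := by nlinarith
  have hfN : ⌊y⌋₊ ≤ N := by
    have : (⌊y⌋₊ : ℝ) ≤ N := (Nat.floor_le (by linarith)).trans hy2
    exact_mod_cast this
  have h3 := (hE3 b hb hbE ⌊y⌋₊ hfK hfN).2
  refine h3.trans ?_
  have h4 : ((GG A N b ⌊y⌋₊ ε : Finset ℕ) : Set ℕ) ⊆ {a : ℕ | a ∈ A ∧ ε / 2 * (y / Real.log N) ≤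
      (Nat.primeCounting ⌊((a + b : ℕ) : ℝ) + y⌋₊ : ℝ) - Nat.primeCounting (a + b)} := by
    intro a ha
    exact GG_sub hε.le hy5 hℓ (Finset.mem_coe.1 ha)
  have h5 := Set.ncard_le_ncard h4 (A.finite_toSet.subset (fun a ha => Finset.mem_coe.2 ha.1))
  rw [Set.ncard_coe_finset] at h5
  exact_mod_cast h5

end Pool.Agent.W301.SS
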