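import Mathlib
import Pool.Agent.W301.SS.Out1

/-! Intervals to the left of the points of a translate. -/

set_option autoImplicit false

namespace Pool.Agent.W301.SS
open Finset Filter

/-- the number of primes in the open interval `(x - y, x)` -/
lemma left_count {a b g N : ℕ} {c y : ℝ} (hg : 1 ≤ g) (hgb : g ≤ b) (hgy : (g : ℝ) ≤ y)
    (hN : 0 < Real.log N) (ha : c * ((g - 1 : ℕ) : ℝ) ≤ (pn (a + (b - g)) (g - 1) : ℝ) * Real.log N) :
    c * ((g - 1 : ℕ) : ℝ) / Real.log N ≤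
      (Set.ncard {p : ℕ | p.Prime ∧ ((a + b : ℕ) : ℝ) - y < p ∧ p < a + b} : ℝ) := by
  rw [div_le_iff₀ hN]
  refine ha.trans ?_
  apply mul_le_mul_of_nonneg_right _ hN.le
  have h1 : (((Ioc (a + (b - g)) (a + (b - g) + (g - 1))).filter Nat.Prime : Finset ℕ) : Set ℕ) ⊆
      {p : ℕ | p.Prime ∧ ((a + b : ℕ) : ℝ) - y < p ∧ p < a + b} := by
    intro p hp
    rw [mem_coe, mem_filter, mem_Ioc] at hp
    refine ⟨hp.2, ?_, by omega⟩
    have h2 : a + b - g < p := by omega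
    have h3 : ((a + b : ℕ) : ℝ) - g < p := by
      have : ((a + b - g : ℕ) : ℝ) < p := by exact_mod_cast h2
      rw [Nat.cast_sub (by omega)] at this
      exact this
    linarith
  have hfin : {p : ℕ | p.Prime ∧ ((a + b : ℕ) : ℝ) - y < p ∧ p < a + b}.Finite :=
    (Finset.range (a + b)).finite_toSet.subset (fun p hp => by
      rw [mem_coe, mem_range]; exact hp.2.2)
  have h2 := Set.ncard_le_ncard h1 hfin
  rw [Set.ncard_coe_finset] at h2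
  exact_mod_cast h2

/-- shifting an exceptional set -/
def shiftE (E : Finset ℕ) (N g : ℕ) : Finset ℕ := (Icc 1 N).filter (fun b => b - g ∈ E ∧ g ≤ b)

lemma shiftE_card (E : Finset ℕ) (N g : ℕ) : (shiftE E N g).card ≤ E.card := by
  have : shiftE E N g ⊆ E.map (addRightEmbedding g) := by
    intro b hb
    unfold shiftE at hb
    rw [mem_filter] at hb
    rw [Finset.mem_map]
    refine ⟨b - g, hb.2.1, ?_⟩
    simp only [addRightEmbedding_apply]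
    omega
  have h := card_le_card this
  rwa [card_map] at h

lemma small_card (N : ℕ) (z : ℝ) (hz : 0 ≤ z) :
    (((Icc 1 N).filter (fun b : ℕ => ((b : ℕ) : ℝ) ≤ z)).card : ℝ) ≤ z := by
  have a3 : (Icc 1 N).filter (fun b : ℕ => ((b : ℕ) : ℝ) ≤ z) ⊆ Icc 1 ⌊z⌋₊ := by
    intro b hb
    rw [mem_filter, mem_Icc] at hb
    rw [mem_Icc]
    exact ⟨hb.1.1, Nat.le_floor hb.2⟩
  have a4 := card_le_card a3
  rw [Nat.card_Icc] at a4
  have a5 : ((((Icc 1 N).filter (fun b : ℕ => ((b : ℕ) : ℝ) ≤ z)).card : ℕ) : ℝ) ≤ ((⌊z⌋₊ : ℕ) : ℝ) := by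
    exact_mod_cast (by omega : _ ≤ ⌊z⌋₊)
  exact a5.trans (Nat.floor_le hz)

/-- sparse sets, intervals to the left -/
theorem leftPow : ∃ c : ℝ, 0 < c ∧ c ≤ 1 ∧ ∀ ε : ℝ, 0 < ε → ε < 1 → ∃ κ : ℝ, 0 < κ ∧ κ ≤ 1 / 80 ∧
    ∀ᶠ N : ℕ in atTop, ∀ A : Finset ℕ, (∀ a ∈ A, a ≤ N) → (N : ℝ) ^ (1 - κ) ≤ A.card →
    ∃ E : Finset ℕ, E ⊆ Icc 1 N ∧ (E.card : ℝ) ≤ (N : ℝ) ^ (1 - κ) ∧
      ∀ b ∈ Icc 1 N, b ∉ E → (N : ℝ) ^ (9 / 10 : ℝ) < b ∧
        ∀ y : ℝ, (N : ℝ) ^ ε ≤ y → y ≤ (N : ℝ) ^ (9 / 10 : ℝ) →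
          c * A.card ≤ (Set.ncard {a : ℕ | a ∈ A ∧ c * (y / Real.log N) ≤
            (Set.ncard {p : ℕ | p.Prime ∧ ((a + b : ℕ) : ℝ) - y < p ∧ p < a + b} : ℝ)} : ℝ) := by
  classical
  obtain ⟨c, hc0, hc1, hmain⟩ := powFull
  refine ⟨c / 8, by positivity, by linarith, fun ε hε hε1 => ?_⟩
  obtain ⟨κ, hκ0, hκ1, hκ2, hev⟩ := hmain (ε / 2) (by linarith) (by linarith)
  refine ⟨κ / 2, by linarith, by linarith, ?_⟩
  filter_upwards [hev, ev_log 1 8 (κ / 2) (by linarith), ev_pow 8 (ε / 2) (by linarith),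
    ev_pow 2 (1 / 20) (by norm_num), ev_L 4, eventually_ge_atTop 16] with
    N h1 h2 h3 h4 h5 hN16 A hA hAN
  have hNr : (16 : ℝ) ≤ N := by exact_mod_cast hN16
  have hN0 : (0 : ℝ) < N := by linarith
  have hN1 : (1 : ℝ) ≤ N := by linarith
  set ℓ := Real.log N with hℓ
  have hℓ0 : 0 < ℓ := by linarith
  rw [pow_one] at h2
  have hpow : (N : ℝ) ^ (1 - κ) ≤ (N : ℝ) ^ (1 - κ / 2) :=
    Real.rpow_le_rpow_of_exponent_le hN1 (by linarith)
  obtain ⟨_, E, hE1, hE2, hE3⟩ := h1 A hA (hpow.trans hAN)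
  set J : ℕ := Nat.log 2 N + 1 with hJ
  set E0 : Finset ℕ := (Icc 1 N).filter (fun b : ℕ => ((b : ℕ) : ℝ) ≤ (N : ℝ) ^ (9 / 10 : ℝ)) with hE0
  set E' : Finset ℕ := E0 ∪ (range J).biUnion (fun j => shiftE E N (2 ^ j)) with hE'
  refine ⟨E', ?_, ?_, ?_⟩
  · apply union_subset (filter_subset _ _)
    intro b hb
    rw [mem_biUnion] at hb
    obtain ⟨j, _, hb⟩ := hb
    unfold shiftE at hb
    exact (mem_filter.1 hb).1
  · have a1 : (E0.card : ℝ) ≤ (N : ℝ) ^ (9 / 10 : ℝ) := small_card N _ (by positivity)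
    have a2 : (((range J).biUnion (fun j => shiftE E N (2 ^ j))).card : ℝ) ≤ J * (N : ℝ) ^ (1 - κ) := by
      have e1 : (((range J).biUnion (fun j => shiftE E N (2 ^ j))).card : ℝ) ≤
          ∑ j ∈ range J, ((shiftE E N (2 ^ j)).card : ℝ) := by exact_mod_cast card_biUnion_le
      refine e1.trans ?_
      have e2 : ∀ j ∈ range J, ((shiftE E N (2 ^ j)).card : ℝ) ≤ (N : ℝ) ^ (1 - κ) := by
        intro j _
        have : ((shiftE E N (2 ^ j)).card : ℝ) ≤ E.card := by exact_mod_cast shiftE_card E N (2 ^ j)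
        linarith
      refine (sum_le_sum e2).trans ?_
      rw [sum_const, nsmul_eq_mul, card_range]
    have a3 : (E'.card : ℝ) ≤ E0.card + ((range J).biUnion (fun j => shiftE E N (2 ^ j))).card := by
      exact_mod_cast card_union_le _ _
    have a4 : (N : ℝ) ^ (9 / 10 : ℝ) ≤ 1 / 2 * (N : ℝ) ^ (1 - κ / 2) := by
      have : 2 * (N : ℝ) ^ (9 / 10 : ℝ) ≤ (N : ℝ) ^ (1 - κ / 2) := by
        calc 2 * (N : ℝ) ^ (9 / 10 : ℝ) ≤ (N : ℝ) ^ (1 / 20 : ℝ) * (N : ℝ) ^ (9 / 10 : ℝ) := by gcongr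
          _ = (N : ℝ) ^ (19 / 20 : ℝ) := by rw [← Real.rpow_add hN0]; norm_num
          _ ≤ _ := Real.rpow_le_rpow_of_exponent_le hN1 (by linarith)
      linarith
    have a5 : (J : ℝ) ≤ 4 * ℓ := by
      have h5 : (Nat.log 2 N : ℝ) * Real.log 2 ≤ ℓ := by
        have h6 : (2 : ℝ) ^ Nat.log 2 N ≤ (N : ℝ) := by
          exact_mod_cast Nat.pow_log_le_self 2 (by omega)
        have h7 := Real.log_le_log (by positivity) h6
        rwa [Real.log_pow] at h7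
      have h6 := Real.log_two_gt_d9
      have h7 : (0 : ℝ) ≤ Nat.log 2 N := Nat.cast_nonneg _
      rw [hJ]; push_cast
      nlinarith
    have a6 : J * (N : ℝ) ^ (1 - κ) ≤ 1 / 2 * (N : ℝ) ^ (1 - κ / 2) := by
      calc J * (N : ℝ) ^ (1 - κ) ≤ (4 * ℓ) * (N : ℝ) ^ (1 - κ) := by gcongr
        _ = 1 / 2 * ((8 * ℓ) * (N : ℝ) ^ (1 - κ)) := by ring
        _ ≤ 1 / 2 * ((N : ℝ) ^ (κ / 2) * (N : ℝ) ^ (1 - κ)) := by gcongr
        _ = _ := by rw [← Real.rpow_add hN0]; congr 2; ring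
    linarith
  · intro b hb hbE
    rw [hE', mem_union] at hbE
    push Not at hbE
    obtain ⟨hb0, hbU⟩ := hbE
    rw [hE0, mem_filter] at hb0
    push Not at hb0
    have hb1 := hb0 hb
    refine ⟨hb1, fun y hy1 hy2 => ?_⟩
    have hN8 : (8 : ℝ) ≤ (N : ℝ) ^ (ε / 2) := h3
    have hsq : (N : ℝ) ^ (ε / 2) * (N : ℝ) ^ (ε / 2) = (N : ℝ) ^ ε := by
      rw [← Real.rpow_add hN0]; congr 1; ring
    have hy64 : 8 * (N : ℝ) ^ (ε / 2) ≤ y := by
      refine le_trans ?_ hy1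
      rw [← hsq]; gcongr
    have hy0 : 0 < y := by linarith
    have hfl : (1 : ℝ) ≤ y := by linarith
    set j := Nat.log 2 ⌊y⌋₊ with hj
    have hf0 : ⌊y⌋₊ ≠ 0 := by
      have : 1 ≤ ⌊y⌋₊ := Nat.le_floor (by exact_mod_cast hfl)
      omega
    have g1 : 2 ^ j ≤ ⌊y⌋₊ := Nat.pow_log_le_self 2 hf0
    have g2 : ⌊y⌋₊ < 2 ^ (j + 1) := Nat.lt_pow_succ_log_self (by norm_num) _
    have g1r : ((2 ^ j : ℕ) : ℝ) ≤ y := by
      have : ((2 ^ j : ℕ) : ℝ) ≤ (⌊y⌋₊ : ℝ) := by exact_mod_cast g1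
      exact this.trans (Nat.floor_le hy0.le)
    have g2r : y < 2 * ((2 ^ j : ℕ) : ℝ) := by
      have h6 := Nat.lt_floor_add_one y
      have h7 : (⌊y⌋₊ : ℝ) + 1 ≤ 2 * ((2 ^ j : ℕ) : ℝ) := by
        have : ⌊y⌋₊ + 1 ≤ 2 * 2 ^ j := by rw [pow_succ] at g2; omega
        exact_mod_cast this
      linarith
    have hgb : 2 ^ j < b := by
      have : ((2 ^ j : ℕ) : ℝ) < b := by linarith
      exact_mod_cast this
    have hbN : b ≤ N := (mem_Icc.1 hb).2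
    have hjJ : j < J := by
      have h6 : 2 ^ j ≤ N := by omega
      have h7 : j ≤ Nat.log 2 N := Nat.le_log_of_pow_le (by norm_num) h6
      omega
    have hbj : b ∉ shiftE E N (2 ^ j) := by
      intro hcon
      exact hbU (mem_biUnion.2 ⟨j, mem_range.2 hjJ, hcon⟩)
    have hbE' : b - 2 ^ j ∉ E := by
      intro hcon
      apply hbj
      unfold shiftE
      rw [mem_filter]
      exact ⟨hb, hcon, hgb.le⟩
    have hbI : b - 2 ^ j ∈ Icc 1 N := by rw [mem_Icc]; omega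
    have hj1 : 1 ≤ 2 ^ j := Nat.one_le_two_pow
    have hgm : ((2 ^ j - 1 : ℕ) : ℝ) = ((2 ^ j : ℕ) : ℝ) - 1 := by
      rw [Nat.cast_sub hj1]; norm_num
    have hlen : (N : ℝ) ^ (ε / 2) ≤ ((2 ^ j - 1 : ℕ) : ℝ) := by
      rw [hgm]; linarith
    obtain ⟨_, g4⟩ := hE3 (b - 2 ^ j) hbI hbE' (2 ^ j - 1) hlen (by omega)
    have hA0 : (0 : ℝ) ≤ A.card := Nat.cast_nonneg _
    have hsub : ((GG A N (b - 2 ^ j) (2 ^ j - 1) c : Finset ℕ) : Set ℕ) ⊆
        {a : ℕ | a ∈ A ∧ c / 8 * (y / Real.log N) ≤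
            (Set.ncard {p : ℕ | p.Prime ∧ ((a + b : ℕ) : ℝ) - y < p ∧ p < a + b} : ℝ)} := by
      intro a ha
      rw [mem_coe] at ha
      unfold GG at ha
      rw [mem_filter] at ha
      refine ⟨ha.1, ?_⟩
      have h6 := left_count (y := y) hj1 hgb.le g1r hℓ0 ha.2
      refine le_trans ?_ h6
      rw [hgm, ← hℓ, ← mul_div_assoc]
      apply div_le_div_of_nonneg_right _ hℓ0.le
      have : (y : ℝ) / 8 ≤ ((2 ^ j : ℕ) : ℝ) - 1 := by linarith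
      calc c / 8 * y = c * (y / 8) := by ring
        _ ≤ _ := by gcongr
    have h7 := Set.ncard_le_ncard hsub (A.finite_toSet.subset (fun a ha => Finset.mem_coe.2 ha.1))
    rw [Set.ncard_coe_finset] at h7
    have h8 : ((GG A N (b - 2 ^ j) (2 ^ j - 1) c).card : ℝ) ≤ (Set.ncard {a : ℕ | a ∈ A ∧
        c / 8 * (y / Real.log N) ≤
            (Set.ncard {p : ℕ | p.Prime ∧ ((a + b : ℕ) : ℝ) - y < p ∧ p < a + b} : ℝ)} : ℝ) := by
      exact_mod_cast h7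
    refine le_trans ?_ (g4.trans h8)
    apply mul_le_mul_of_nonneg_right _ hA0
    linarith

/-- dense sets, one length, to the left -/
theorem leftPoly (ε δ : ℝ) (hε : 0 < ε) (hε1 : ε < 1) (hδ : 0 < δ) (hδ1 : δ ≤ 1 / 4) (C : ℕ) :
    ∀ᶠ N : ℕ in atTop, ∀ A : Finset ℕ, (∀ a ∈ A, a ≤ N) →
    (N : ℝ) ≤ (A.card : ℝ) * Real.log N ^ C →
    ∃ E : Finset ℕ, E ⊆ Icc 1 N ∧ (E.card : ℝ) * Real.log N ^ C ≤ N ∧
      ∀ b ∈ Icc 1 N, b ∉ E → (N : ℝ) ^ (9 / 10 : ℝ) < b ∧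
          (1 / 4 - δ) * A.card ≤ (Set.ncard {a : ℕ | a ∈ A ∧
            ∃ p : ℕ, p.Prime ∧ ((a + b : ℕ) : ℝ) - (N : ℝ) ^ (9 / 10 * ε) < p ∧ p < a + b} : ℝ) := by
  classical
  obtain ⟨K, hK⟩ := polyFull (C + 1) δ hδ hδ1
  filter_upwards [hK, ev_log K 4 (9 / 10 * ε) (by linarith), ev_pow 4 (9 / 10 * ε) (by linarith),
    ev_log C 2 (1 / 10) (by norm_num), ev_L 4, eventually_ge_atTop 16] with
    N h1 h2 h3 h4 h5 hN16 A hA hAN
  have hNr : (16 : ℝ) ≤ N := by exact_mod_cast hN16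
  have hN0 : (0 : ℝ) < N := by linarith
  have hN1 : (1 : ℝ) ≤ N := by linarith
  set ℓ := Real.log N with hℓ
  have hℓ0 : 0 < ℓ := by linarith
  have hA0 : (0 : ℝ) ≤ A.card := Nat.cast_nonneg _
  obtain ⟨E, hE1, hE2, hE3⟩ := h1 A hA (by
    refine hAN.trans ?_
    apply mul_le_mul_of_nonneg_left _ hA0
    exact pow_le_pow_right₀ (by linarith) (by omega))
  set g : ℕ := ⌊(N : ℝ) ^ (9 / 10 * ε)⌋₊ with hg
  have hgle : (g : ℝ) ≤ (N : ℝ) ^ (9 / 10 * ε) := Nat.floor_le (by positivity)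
  have hgge : (N : ℝ) ^ (9 / 10 * ε) - 1 < g := by
    have := Nat.lt_floor_add_one ((N : ℝ) ^ (9 / 10 * ε))
    rw [← hg] at this
    linarith
  have hgr : (2 : ℝ) < g := by linarith
  have hg3 : 2 < g := by exact_mod_cast hgr
  have hgN9 : (g : ℝ) ≤ (N : ℝ) ^ (9 / 10 : ℝ) :=
    hgle.trans (Real.rpow_le_rpow_of_exponent_le hN1 (by linarith))
  set E0 : Finset ℕ := (Icc 1 N).filter (fun b : ℕ => ((b : ℕ) : ℝ) ≤ (N : ℝ) ^ (9 / 10 : ℝ)) with hE0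
  refine ⟨E0 ∪ shiftE E N g, union_subset (filter_subset _ _) (filter_subset _ _), ?_, ?_⟩
  · have a1 : (E0.card : ℝ) ≤ (N : ℝ) ^ (9 / 10 : ℝ) := small_card N _ (by positivity)
    have a2 : ((shiftE E N g).card : ℝ) ≤ E.card := by exact_mod_cast shiftE_card E N g
    have a3 : ((E0 ∪ shiftE E N g).card : ℝ) ≤ E0.card + (shiftE E N g).card := by
      exact_mod_cast card_union_le _ _
    have a4 : (E.card : ℝ) * ℓ ^ C ≤ N / 2 := by
      have : (E.card : ℝ) * ℓ ^ C * ℓ ≤ N := by rw [mul_assoc, ← pow_succ]; exact hE2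
      have h0 : 0 ≤ (E.card : ℝ) * ℓ ^ C := by positivity
      nlinarith
    have a5 : (N : ℝ) ^ (9 / 10 : ℝ) * ℓ ^ C ≤ N / 2 := by
      have : (N : ℝ) ^ (9 / 10 : ℝ) * (2 * ℓ ^ C) ≤ N := by
        calc (N : ℝ) ^ (9 / 10 : ℝ) * (2 * ℓ ^ C) ≤ (N : ℝ) ^ (9 / 10 : ℝ) * (N : ℝ) ^ (1 / 10 : ℝ) := by
              gcongr
          _ = N := by rw [← Real.rpow_add hN0]; norm_num
      linarith
    have h0 : 0 ≤ ℓ ^ C := by positivity
    calc ((E0 ∪ shiftE E N g).card : ℝ) * ℓ ^ C ≤ ((N : ℝ) ^ (9 / 10 : ℝ) + E.card) * ℓ ^ C := by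
          gcongr; linarith
      _ = (N : ℝ) ^ (9 / 10 : ℝ) * ℓ ^ C + E.card * ℓ ^ C := by ring
      _ ≤ _ := by linarith
  · intro b hb hbE
    rw [mem_union] at hbE
    push Not at hbE
    obtain ⟨hb0, hbj⟩ := hbE
    rw [hE0, mem_filter] at hb0
    push Not at hb0
    have hb1 := hb0 hb
    refine ⟨hb1, ?_⟩
    have hgb : g < b := by
      have : (g : ℝ) < b := by linarith
      exact_mod_cast this
    have hbN : b ≤ N := (mem_Icc.1 hb).2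
    have hbE' : b - g ∉ E := by
      intro hcon
      apply hbj
      unfold shiftE
      rw [mem_filter]
      exact ⟨hb, hcon, hgb.le⟩
    have hbI : b - g ∈ Icc 1 N := by rw [mem_Icc]; omega
    have hgm : ((g - 1 : ℕ) : ℝ) = (g : ℝ) - 1 := by
      rw [Nat.cast_sub (by omega)]; norm_num
    have hlen : ℓ ^ K ≤ ((g - 1 : ℕ) : ℝ) := by
      rw [hgm]; linarith
    obtain ⟨_, g4⟩ := hE3 (b - g) hbI hbE' (g - 1) hlen (by omega)
    have hsub : ((GG A N (b - g) (g - 1) δ : Finset ℕ) : Set ℕ) ⊆ {a : ℕ | a ∈ A ∧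
            ∃ p : ℕ, p.Prime ∧ ((a + b : ℕ) : ℝ) - (N : ℝ) ^ (9 / 10 * ε) < p ∧ p < a + b} := by
      intro a ha
      rw [mem_coe] at ha
      unfold GG at ha
      rw [mem_filter] at ha
      refine ⟨ha.1, ?_⟩
      have h6 := left_count (y := (N : ℝ) ^ (9 / 10 * ε)) (by omega) hgb.le hgle hℓ0 ha.2
      have h7 : (0 : ℝ) < (Set.ncard {p : ℕ | p.Prime ∧ ((a + b : ℕ) : ℝ) - (N : ℝ) ^ (9 / 10 * ε) < p ∧
          p < a + b} : ℝ) := by
        refine lt_of_lt_of_le ?_ h6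
        apply div_pos _ hℓ0
        apply mul_pos hδ
        rw [hgm]; linarith
      have h8 : 0 < Set.ncard {p : ℕ | p.Prime ∧ ((a + b : ℕ) : ℝ) - (N : ℝ) ^ (9 / 10 * ε) < p ∧
          p < a + b} := by exact_mod_cast h7
      have hfin : {p : ℕ | p.Prime ∧ ((a + b : ℕ) : ℝ) - (N : ℝ) ^ (9 / 10 * ε) < p ∧ p < a + b}.Finite :=
        (Finset.range (a + b)).finite_toSet.subset (fun p hp => by
          rw [mem_coe, mem_range]; exact hp.2.2)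
      obtain ⟨p, hp⟩ := (Set.ncard_pos hfin).1 h8
      exact ⟨p, hp⟩
    have h7 := Set.ncard_le_ncard hsub (A.finite_toSet.subset (fun a ha => Finset.mem_coe.2 ha.1))
    rw [Set.ncard_coe_finset] at h7
    have h8 : ((GG A N (b - g) (g - 1) δ).card : ℝ) ≤ (Set.ncard {a : ℕ | a ∈ A ∧
            ∃ p : ℕ, p.Prime ∧ ((a + b : ℕ) : ℝ) - (N : ℝ) ^ (9 / 10 * ε) < p ∧ p < a + b} : ℝ) := by
      exact_mod_cast h7
    exact g4.trans h8

end Pool.Agent.W301.SS
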