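import Mathlib
import Pool.Agent.W301.SS.Out2

/-! Averages of `π(x, H) log x / H` over translates of sparse sets. -/

set_option autoImplicit false

namespace Pool.Agent.W301.SS
open Finset Filter

/-- `π(x, H) log x / H` -/
noncomputable def RR (x : ℕ) (H : ℝ) : ℝ :=
  ((Nat.primeCounting ⌊(x : ℝ) + H⌋₊ : ℝ) - Nat.primeCounting x) * Real.log x / H

/-- sparse sets -/
theorem rightPow : ∃ c : ℝ, 0 < c ∧ ∀ ε : ℝ, 0 < ε → ε < 1 → ∃ κ : ℝ, 0 < κ ∧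
    ∀ᶠ N : ℕ in atTop, ∀ A : Finset ℕ, (∀ a ∈ A, a ≤ N) → (N : ℝ) ^ (1 - κ) ≤ A.card →
    ∃ E : Finset ℕ, E ⊆ Icc 1 N ∧ (E.card : ℝ) ≤ (N : ℝ) ^ (1 - κ) ∧
      ∀ b ∈ Icc 1 N, b ∉ E → ∀ H : ℝ, (N : ℝ) ^ ε ≤ H → H ≤ N →
        c ≤ (∑ a ∈ A, RR (a + b) H) / A.card ∧ (∑ a ∈ A, RR (a + b) H) / A.card ≤ 6 ∧
        c * A.card ≤ (Set.ncard {a : ℕ | a ∈ A ∧ c ≤ RR (a + b) H} : ℝ) := by
  classical
  obtain ⟨c, hc0, hc1, hmain⟩ := powFull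
  refine ⟨c / 4, by positivity, fun ε hε hε1 => ?_⟩
  obtain ⟨κ, hκ0, hκ1, hκ2, hev⟩ := hmain (ε / 2) (by linarith) (by linarith)
  refine ⟨κ / 2, by linarith, ?_⟩
  filter_upwards [hev, ev_pow 4 (ε / 2) (by linarith), ev_pow 2 (1 / 4) (by norm_num),
    ev_pow 2 (κ / 2) (by linarith), ev_L 40, eventually_ge_atTop 16] with
    N h1 h2 h3 h4 h5 hN16 A hA hAN
  have hNr : (16 : ℝ) ≤ N := by exact_mod_cast hN16
  have hN0 : (0 : ℝ) < N := by linarith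
  have hN1 : (1 : ℝ) ≤ N := by linarith
  set ℓ := Real.log N with hℓ
  have hℓ0 : 0 < ℓ := by linarith
  have hpow : (N : ℝ) ^ (1 - κ) ≤ (N : ℝ) ^ (1 - κ / 2) :=
    Real.rpow_le_rpow_of_exponent_le hN1 (by linarith)
  have hA0 : (0 : ℝ) < A.card := lt_of_lt_of_le (by positivity) hAN
  obtain ⟨hup, E, hE1, hE2, hE3⟩ := h1 A hA (hpow.trans hAN)
  set E0 : Finset ℕ := (Icc 1 N).filter (fun b : ℕ => ((b : ℕ) : ℝ) ≤ (N : ℝ) ^ (1 / 2 : ℝ)) with hE0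
  refine ⟨E0 ∪ E, union_subset (filter_subset _ _) hE1, ?_, ?_⟩
  · have a1 : (E0.card : ℝ) ≤ (N : ℝ) ^ (1 / 2 : ℝ) := small_card N _ (by positivity)
    have a3 : ((E0 ∪ E).card : ℝ) ≤ E0.card + E.card := by exact_mod_cast card_union_le _ _
    have a4 : 2 * (N : ℝ) ^ (1 / 2 : ℝ) ≤ (N : ℝ) ^ (1 - κ / 2) := by
      calc 2 * (N : ℝ) ^ (1 / 2 : ℝ) ≤ (N : ℝ) ^ (1 / 4 : ℝ) * (N : ℝ) ^ (1 / 2 : ℝ) := by gcongr
        _ = (N : ℝ) ^ (3 / 4 : ℝ) := by rw [← Real.rpow_add hN0]; norm_num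
        _ ≤ _ := Real.rpow_le_rpow_of_exponent_le hN1 (by linarith)
    have a5 : 2 * (N : ℝ) ^ (1 - κ) ≤ (N : ℝ) ^ (1 - κ / 2) := by
      calc 2 * (N : ℝ) ^ (1 - κ) ≤ (N : ℝ) ^ (κ / 2) * (N : ℝ) ^ (1 - κ) := by gcongr
        _ = _ := by rw [← Real.rpow_add hN0]; congr 1; ring
    linarith
  · intro b hb hbE H hH1 hH2
    rw [mem_union] at hbE
    push Not at hbE
    obtain ⟨hb0, hbE'⟩ := hbE
    rw [hE0, mem_filter] at hb0
    push Not at hb0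
    have hb1 := hb0 hb
    have hbN : b ≤ N := (mem_Icc.1 hb).2
    have hbr : (b : ℝ) ≤ N := by exact_mod_cast hbN
    have hsq : (N : ℝ) ^ (ε / 2) * (N : ℝ) ^ (ε / 2) = (N : ℝ) ^ ε := by
      rw [← Real.rpow_add hN0]; congr 1; ring
    have hH4 : 4 * (N : ℝ) ^ (ε / 2) ≤ H := by
      refine le_trans ?_ hH1
      rw [← hsq]; gcongr
    have hH16 : 16 ≤ H := by linarith
    have hH0 : 0 < H := by linarith
    have hf1 : H / 2 ≤ (⌊H⌋₊ : ℝ) := half_floor (by linarith)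
    have hf2 : (⌊H⌋₊ : ℝ) ≤ H := Nat.floor_le hH0.le
    have hfε : (N : ℝ) ^ (ε / 2) ≤ (⌊H⌋₊ : ℝ) := by linarith
    have hfN : ⌊H⌋₊ ≤ N := by
      have : (⌊H⌋₊ : ℝ) ≤ N := hf2.trans hH2
      exact_mod_cast this
    obtain ⟨g1, g2⟩ := hE3 b hb hbE' ⌊H⌋₊ hfε hfN
    have g3 := hup b hb ⌊H⌋₊ hfε
    have hlog : ∀ a ∈ A, ℓ / 2 ≤ Real.log ((a + b : ℕ) : ℝ) ∧
        Real.log ((a + b : ℕ) : ℝ) ≤ 6 / 5 * ℓ := by
      intro a ha
      have ha1 : (a : ℝ) ≤ N := by exact_mod_cast hA a ha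
      have ha0 : (0 : ℝ) ≤ a := Nat.cast_nonneg a
      have hb00 : (0 : ℝ) < b := lt_trans (by positivity) hb1
      constructor
      · have : (N : ℝ) ^ (1 / 2 : ℝ) ≤ ((a + b : ℕ) : ℝ) := by push_cast; linarith
        have := Real.log_le_log (by positivity) this
        rw [Real.log_rpow hN0] at this
        linarith
      · have hab : ((a + b : ℕ) : ℝ) ≤ 2 * N := by push_cast; linarith
        have a1 := Real.log_le_log (by push_cast; linarith) hab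
        rw [Real.log_mul (by norm_num) hN0.ne'] at a1
        have a2 := Real.log_two_lt_d9
        linarith
    have hRR : ∀ a ∈ A, (ℓ / 2 / H) * (pn (a + b) ⌊H⌋₊ : ℝ) ≤ RR (a + b) H ∧
        RR (a + b) H ≤ (6 / 5 * ℓ / H) * (pn (a + b) ⌊H⌋₊ : ℝ) := by
      intro a ha
      obtain ⟨l1, l2⟩ := hlog a ha
      unfold RR
      rw [pn_floor (a + b) H hH0.le]
      have e : (pn (a + b) ⌊H⌋₊ : ℝ) * Real.log ((a + b : ℕ) : ℝ) / H =
          (Real.log ((a + b : ℕ) : ℝ) / H) * (pn (a + b) ⌊H⌋₊ : ℝ) := by ring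
      rw [e]
      constructor <;> gcongr
    refine ⟨?_, ?_, ?_⟩
    · rw [le_div_iff₀ hA0]
      have s1 : (ℓ / 2 / H) * cs A b ⌊H⌋₊ ≤ ∑ a ∈ A, RR (a + b) H := by
        unfold cs; rw [mul_sum]; exact sum_le_sum fun a ha => (hRR a ha).1
      refine le_trans ?_ s1
      have e : (ℓ / 2 / H) * cs A b ⌊H⌋₊ = (1 / (2 * H)) * (cs A b ⌊H⌋₊ * ℓ) := by field_simp
      rw [e]
      calc c / 4 * (A.card : ℝ) = (1 / (2 * H)) * (c * ((A.card : ℝ) * (H / 2))) := by field_simp; ring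
        _ ≤ (1 / (2 * H)) * (c * ((A.card : ℝ) * (⌊H⌋₊ : ℝ))) := by gcongr
        _ ≤ _ := by gcongr
    · rw [div_le_iff₀ hA0]
      have s1 : ∑ a ∈ A, RR (a + b) H ≤ (6 / 5 * ℓ / H) * cs A b ⌊H⌋₊ := by
        unfold cs; rw [mul_sum]; exact sum_le_sum fun a ha => (hRR a ha).2
      refine s1.trans ?_
      have e : (6 / 5 * ℓ / H) * cs A b ⌊H⌋₊ = (6 / 5 / H) * (cs A b ⌊H⌋₊ * ℓ) := by ring
      rw [e]
      calc (6 / 5 / H) * (cs A b ⌊H⌋₊ * ℓ) ≤ (6 / 5 / H) * (5 * ((A.card : ℝ) * (⌊H⌋₊ : ℝ))) := by gcongr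
        _ ≤ (6 / 5 / H) * (5 * ((A.card : ℝ) * H)) := by gcongr
        _ = _ := by field_simp
    · have hsub : ((GG A N b ⌊H⌋₊ c : Finset ℕ) : Set ℕ) ⊆ {a : ℕ | a ∈ A ∧ c / 4 ≤ RR (a + b) H} := by
        intro a ha
        rw [mem_coe] at ha
        unfold GG at ha
        rw [mem_filter] at ha
        refine ⟨ha.1, le_trans ?_ (hRR a ha.1).1⟩
        have e : (ℓ / 2 / H) * (pn (a + b) ⌊H⌋₊ : ℝ) = (1 / (2 * H)) * ((pn (a + b) ⌊H⌋₊ : ℝ) * ℓ) := by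
          field_simp
        rw [e]
        calc c / 4 = (1 / (2 * H)) * (c * (H / 2)) := by field_simp; ring
          _ ≤ (1 / (2 * H)) * (c * (⌊H⌋₊ : ℝ)) := by gcongr
          _ ≤ _ := mul_le_mul_of_nonneg_left ha.2 (by positivity)
      have h7 := Set.ncard_le_ncard hsub (A.finite_toSet.subset (fun a ha => Finset.mem_coe.2 ha.1))
      rw [Set.ncard_coe_finset] at h7
      have h8 : ((GG A N b ⌊H⌋₊ c).card : ℝ) ≤ (Set.ncard {a : ℕ | a ∈ A ∧ c / 4 ≤ RR (a + b) H} : ℝ) := by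
        exact_mod_cast h7
      refine le_trans ?_ (g2.trans h8)
      apply mul_le_mul_of_nonneg_right _ hA0.le
      linarith

end Pool.Agent.W301.SS
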