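import Mathlib
import Pool.Agent.W301.SS.Asym
import Pool.Agent.H343R2.EH.Psi
import Pool.Agent.Helper602.MK.J5b

/-! Exponential sums over primes near fractions with small denominators. -/

set_option autoImplicit false

namespace Pool.Agent.W301.SS
open Finset Filter
open Pool.Agent.H807R2.Dav

/-- the sum of `log p` over the primes of a progression -/
noncomputable def thA (x q a : ℕ) : ℝ := ∑ n ∈ (Icc 1 x).filter (fun n => n ≡ a [MOD q]), om n

lemma psi1_eq (x : ℕ) : H343E.psi1 (x : ℝ) = Chebyshev.psi x := by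
  unfold H343E.psi1
  rw [Nat.floor_natCast, sum_Lam]

lemma psi1_le (x : ℕ) : H343E.psi1 (x : ℝ) ≤ 6 * x := by
  rw [psi1_eq]
  have h := Chebyshev.psi_le_const_mul_self (x := x) (Nat.cast_nonneg x)
  refine h.trans ?_
  have := log4
  have h2 : (0 : ℝ) ≤ x := Nat.cast_nonneg x
  nlinarith

lemma psiAP_le (x : ℝ) (q a : ℕ) : H343E.psiAP x q a ≤ H343E.psi1 x := by
  unfold H343E.psiAP H343E.psi1
  exact sum_le_sum_of_subset_of_nonneg (filter_subset _ _)
    (fun _ _ _ => ArithmeticFunction.vonMangoldt_nonneg)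

lemma psiAP_nonneg (x : ℝ) (q a : ℕ) : 0 ≤ H343E.psiAP x q a :=
  sum_nonneg fun _ _ => ArithmeticFunction.vonMangoldt_nonneg

lemma psi1_nonneg (x : ℝ) : 0 ≤ H343E.psi1 x :=
  sum_nonneg fun _ _ => ArithmeticFunction.vonMangoldt_nonneg

/-- Siegel-Walfisz for `psi` -/
lemma swPsi (U K : ℕ) : ∀ᶠ N : ℕ in atTop, ∀ x : ℕ, x ≤ N → ∀ q : ℕ, 1 ≤ q →
    (q : ℝ) ≤ Real.log N ^ K → ∀ a : ℕ, a < q → a.Coprime q →
    |H343E.psiAP (x : ℝ) q a - H343E.psi1 (x : ℝ) / (Nat.totient q : ℝ)| ≤ N / Real.log N ^ U := by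
  obtain ⟨B, X0, h⟩ := H343E.unsmoothed (U + 1)
  filter_upwards [ev_L (2 ^ (U + 1) + 2), ev_log U 6 (1 / 2) (by norm_num),
    ev_log (2 * K + B) 1 (1 / 2) (by norm_num),
    ((tendsto_rpow_atTop (show (0 : ℝ) < 1 / 2 by norm_num)).comp
      tendsto_natCast_atTop_atTop).eventually_ge_atTop (max X0 2),
    eventually_ge_atTop 16] with N h1 h2 h3 h4 hN16 x hxN q hq hqK a haq hac
  have hNr : (16 : ℝ) ≤ N := by exact_mod_cast hN16
  have hN0 : (0 : ℝ) < N := by linarith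
  set ℓ := Real.log N with hℓ
  have hℓ2 : (2 : ℝ) ≤ ℓ := by
    have : (0 : ℝ) ≤ 2 ^ (U + 1) := by positivity
    linarith
  have hℓ0 : 0 < ℓ := by linarith
  have hφ : (1 : ℝ) ≤ Nat.totient q := by exact_mod_cast Nat.totient_pos.2 hq
  have hx0 : (0 : ℝ) ≤ x := Nat.cast_nonneg x
  simp only [Function.comp] at h4
  rcases le_or_gt ((x : ℝ)) ((N : ℝ) ^ (1 / 2 : ℝ)) with hx1 | hx1
  · have a1 : |H343E.psiAP (x : ℝ) q a - H343E.psi1 (x : ℝ) / (Nat.totient q : ℝ)| ≤ 6 * x := by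
      have b1 := psiAP_le (x : ℝ) q a
      have b2 := psiAP_nonneg (x : ℝ) q a
      have b3 := psi1_nonneg (x : ℝ)
      have b4 := psi1_le x
      have b5 : H343E.psi1 (x : ℝ) / (Nat.totient q : ℝ) ≤ H343E.psi1 (x : ℝ) := div_le_self b3 hφ
      have b6 : 0 ≤ H343E.psi1 (x : ℝ) / (Nat.totient q : ℝ) := by positivity
      rw [abs_le]; constructor <;> linarith
    refine a1.trans ?_
    rw [le_div_iff₀ (by positivity)]
    calc 6 * (x : ℝ) * ℓ ^ U ≤ 6 * (N : ℝ) ^ (1 / 2 : ℝ) * ℓ ^ U := by gcongr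
      _ = (N : ℝ) ^ (1 / 2 : ℝ) * (6 * ℓ ^ U) := by ring
      _ ≤ (N : ℝ) ^ (1 / 2 : ℝ) * (N : ℝ) ^ (1 / 2 : ℝ) := by gcongr
      _ = N := by rw [← Real.rpow_add hN0]; norm_num
  · have hxX : X0 ≤ x := (le_max_left _ _).trans (h4.trans hx1.le)
    have hx2 : (2 : ℝ) < x := lt_of_le_of_lt ((le_max_right _ _).trans h4) hx1
    have hxp : (0 : ℝ) < x := by linarith
    have hxNr : (x : ℝ) ≤ N := by exact_mod_cast hxN
    have hlx1 : ℓ / 2 ≤ Real.log x := by
      have := Real.log_le_log (by positivity) hx1.le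
      rw [Real.log_rpow hN0] at this
      linarith
    have hlx2 : Real.log x ≤ ℓ := Real.log_le_log hxp hxNr
    have hlx0 : 0 < Real.log x := by linarith
    have hq1 : (1 : ℝ) ≤ q := by exact_mod_cast hq
    have hlB : 0 < Real.log x ^ B := by positivity
    have key : (q : ℝ) ^ 2 * Real.log x ^ B ≤ x := by
      calc (q : ℝ) ^ 2 * Real.log x ^ B ≤ (ℓ ^ K) ^ 2 * ℓ ^ B := by gcongr
        _ = 1 * ℓ ^ (2 * K + B) := by rw [one_mul, pow_add, ← pow_mul, mul_comm K 2]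
        _ ≤ (N : ℝ) ^ (1 / 2 : ℝ) := h3
        _ ≤ x := hx1.le
    classical
    have hmain := h x hxX 1 le_rfl q (by
        rw [le_div_iff₀ hlB]
        refine le_trans ?_ key
        gcongr
        nlinarith) (by
        rw [one_mul, le_div_iff₀ hlB]; exact key)
      (fun q' => if q' = q then {a} else ∅) ⟨by
        intro q' a' ha'
        beta_reduce at ha'
        split_ifs at ha' with hqq
        · rw [mem_singleton] at ha'
          rw [ha', hqq]
          exact ⟨haq, hac⟩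
        · exact absurd ha' (notMem_empty _), by
        intro q'
        beta_reduce
        split_ifs
        · simp
        · simp⟩
    rw [one_mul] at hmain
    have hq' : q ∈ Icc 1 q := mem_Icc.2 ⟨hq, le_rfl⟩
    have h5 := single_le_sum (f := fun q' => ∑ a' ∈ (if q' = q then ({a} : Finset ℕ) else ∅),
      |H343E.psiAP (x : ℝ) q' a' - H343E.psi1 (x : ℝ) / (Nat.totient q' : ℝ)|)
      (fun i _ => sum_nonneg fun _ _ => abs_nonneg _) hq'
    beta_reduce at h5
    rw [if_pos rfl, sum_singleton] at h5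
    refine (h5.trans hmain).trans ?_
    calc (x : ℝ) / Real.log x ^ (U + 1) ≤ N / (ℓ / 2) ^ (U + 1) := by gcongr
      _ = (2 ^ (U + 1) / ℓ) * (N / ℓ ^ U) := by rw [div_pow, pow_succ ℓ]; field_simp
      _ ≤ 1 * (N / ℓ ^ U) := by
          apply mul_le_mul_of_nonneg_right _ (by positivity)
          rw [div_le_one hℓ0]; linarith
      _ = _ := one_mul _

lemma thA_sub (x q a : ℕ) (hx : 1 ≤ x) :
    |H343E.psiAP (x : ℝ) q a - thA x q a| ≤ 2 * √(x : ℝ) * Real.log x := by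
  unfold H343E.psiAP thA
  rw [Nat.floor_natCast, ← sum_sub_distrib]
  have h0 : 0 ≤ ∑ n ∈ (Icc 1 x).filter (fun n => n ≡ a [MOD q]),
      (ArithmeticFunction.vonMangoldt n - om n) :=
    sum_nonneg fun n _ => by have := om_le n; linarith
  rw [abs_of_nonneg h0]
  calc ∑ n ∈ (Icc 1 x).filter (fun n => n ≡ a [MOD q]), (ArithmeticFunction.vonMangoldt n - om n) ≤
        ∑ n ∈ Icc 1 x, (ArithmeticFunction.vonMangoldt n - om n) :=
        sum_le_sum_of_subset_of_nonneg (filter_subset _ _)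
          (fun n _ _ => by have := om_le n; linarith)
    _ = Chebyshev.psi x - Chebyshev.theta x := by rw [sum_sub_distrib, sum_Lam, sum_om]
    _ ≤ _ := Chebyshev.psi_sub_theta_le (by exact_mod_cast hx)

/-- Siegel-Walfisz for `theta` -/
lemma swT (U K : ℕ) : ∀ᶠ N : ℕ in atTop, ∀ x : ℕ, x ≤ N → ∀ q : ℕ, 1 ≤ q →
    (q : ℝ) ≤ Real.log N ^ K → ∀ a : ℕ, a < q → a.Coprime q →
    |thA x q a - Chebyshev.theta x / (Nat.totient q : ℝ)| ≤ N / Real.log N ^ U := by
  filter_upwards [swPsi (U + 1) K, ev_L 4, ev_log (U + 1) 16 (1 / 2) (by norm_num),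
    eventually_ge_atTop 16] with N h1 h2 h3 hN16 x hxN q hq hqK a haq hac
  have hNr : (16 : ℝ) ≤ N := by exact_mod_cast hN16
  have hN0 : (0 : ℝ) < N := by linarith
  set ℓ := Real.log N with hℓ
  have hℓ0 : 0 < ℓ := by linarith
  have hφ : (1 : ℝ) ≤ Nat.totient q := by exact_mod_cast Nat.totient_pos.2 hq
  rcases Nat.eq_zero_or_pos x with hx | hx
  · subst hx
    unfold thA
    rw [show Icc 1 0 = (∅ : Finset ℕ) from rfl]
    simp only [filter_empty, sum_empty, Nat.cast_zero, Chebyshev.theta_zero, zero_div, sub_zero,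
      abs_zero]
    positivity
  have hxr : (1 : ℝ) ≤ x := by exact_mod_cast hx
  have hxNr : (x : ℝ) ≤ N := by exact_mod_cast hxN
  have a1 := h1 x hxN q hq hqK a haq hac
  have a2 := thA_sub x q a hx
  have a3 : |H343E.psi1 (x : ℝ) / (Nat.totient q : ℝ) - Chebyshev.theta x / (Nat.totient q : ℝ)| ≤
      2 * √(x : ℝ) * Real.log x := by
    rw [← sub_div, psi1_eq, abs_div, abs_of_pos (by linarith : (0 : ℝ) < Nat.totient q)]
    have b1 := Chebyshev.psi_sub_theta_le hxr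
    have b2 := Chebyshev.theta_le_psi (x : ℝ)
    rw [abs_of_nonneg (by linarith)]
    exact (div_le_self (by linarith) hφ).trans b1
  have a4 : 2 * √(x : ℝ) * Real.log x ≤ (1 / 8) * (N / ℓ ^ U) := by
    have b1 : √(x : ℝ) ≤ (N : ℝ) ^ (1 / 2 : ℝ) := by
      rw [← Real.sqrt_eq_rpow]; exact Real.sqrt_le_sqrt hxNr
    have b2 : Real.log x ≤ ℓ := Real.log_le_log (by linarith) hxNr
    have b3 : 0 ≤ Real.log x := Real.log_nonneg hxr
    calc 2 * √(x : ℝ) * Real.log x ≤ 2 * (N : ℝ) ^ (1 / 2 : ℝ) * ℓ := by gcongr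
      _ ≤ _ := by
          rw [mul_div_assoc', le_div_iff₀ (by positivity)]
          calc 2 * (N : ℝ) ^ (1 / 2 : ℝ) * ℓ * ℓ ^ U = (1 / 8) * ((N : ℝ) ^ (1 / 2 : ℝ) * (16 * ℓ ^ (U + 1))) := by
                rw [pow_succ]; ring
            _ ≤ (1 / 8) * ((N : ℝ) ^ (1 / 2 : ℝ) * (N : ℝ) ^ (1 / 2 : ℝ)) := by gcongr
            _ = (1 / 8) * N := by rw [← Real.rpow_add hN0]; norm_num
  have a5 : (N : ℝ) / ℓ ^ (U + 1) ≤ (1 / 4) * (N / ℓ ^ U) := by
    calc (N : ℝ) / ℓ ^ (U + 1) = (1 / ℓ) * (N / ℓ ^ U) := by rw [pow_succ]; field_simp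
      _ ≤ _ := by
          apply mul_le_mul_of_nonneg_right _ (by positivity)
          exact one_div_le_one_div_of_le (by norm_num) h2
  have a6 : 0 ≤ (N : ℝ) / ℓ ^ U := by positivity
  rw [abs_le] at a1 a2 a3 ⊢
  constructor <;> linarith [a1.1, a1.2, a2.1, a2.2, a3.1, a3.2]

/-- summation by parts -/
lemma abel (c : ℕ → ℂ) (β E : ℝ) (hE : 0 ≤ E) (N : ℕ) (h : ∀ x : ℕ, x ≤ N → ‖∑ n ∈ Icc 1 x, c n‖ ≤ E) :
    ‖∑ n ∈ Icc 1 N, c n * ee ((n : ℝ) * β)‖ ≤ E * (1 + 2 * Real.pi * (N * |β|)) := by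
  have key : ∀ M : ℕ, M ≤ N → ‖∑ n ∈ Icc 1 M, c n * ee ((n : ℝ) * β) -
      (∑ n ∈ Icc 1 M, c n) * ee ((M : ℝ) * β)‖ ≤ E * (2 * Real.pi * (M * |β|)) := by
    intro M
    induction M with
    | zero => intro _; simp
    | succ M ih =>
      intro hM
      rw [sum_Icc_succ_top (by omega), sum_Icc_succ_top (by omega)]
      have e : ∑ k ∈ Icc 1 M, c k * ee ((k : ℝ) * β) + c (M + 1) * ee (((M + 1 : ℕ) : ℝ) * β) -
          (∑ k ∈ Icc 1 M, c k + c (M + 1)) * ee (((M + 1 : ℕ) : ℝ) * β) =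
          (∑ k ∈ Icc 1 M, c k * ee ((k : ℝ) * β) - (∑ k ∈ Icc 1 M, c k) * ee ((M : ℝ) * β)) +
          (∑ k ∈ Icc 1 M, c k) * (ee ((M : ℝ) * β) * (1 - ee β)) := by
        have : ee (((M + 1 : ℕ) : ℝ) * β) = ee ((M : ℝ) * β) * ee β := by
          rw [← ee_add]; congr 1; push_cast; ring
        rw [this]; ring
      rw [e]
      refine (norm_add_le _ _).trans ?_
      have h1 := ih (by omega)
      have h2 : ‖(∑ k ∈ Icc 1 M, c k) * (ee ((M : ℝ) * β) * (1 - ee β))‖ ≤
          E * (2 * Real.pi * |β|) := by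
        rw [norm_mul, norm_mul, norm_ee, one_mul]
        have h3 := dd_le β
        unfold dd at h3
        exact mul_le_mul (h M (by omega)) h3 (norm_nonneg _) hE
      calc _ ≤ E * (2 * Real.pi * (M * |β|)) + E * (2 * Real.pi * |β|) := add_le_add h1 h2
        _ = _ := by push_cast; ring
  have h1 := key N le_rfl
  have h2 := h N le_rfl
  have e : ∑ n ∈ Icc 1 N, c n * ee ((n : ℝ) * β) = (∑ n ∈ Icc 1 N, c n * ee ((n : ℝ) * β) -
      (∑ n ∈ Icc 1 N, c n) * ee ((N : ℝ) * β)) + (∑ n ∈ Icc 1 N, c n) * ee ((N : ℝ) * β) := by ring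
  rw [e]
  refine (norm_add_le _ _).trans ?_
  rw [norm_mul, norm_ee, mul_one]
  calc _ ≤ E * (2 * Real.pi * (N * |β|)) + E := add_le_add h1 h2
    _ = _ := by ring

/-- the sum with a twist by a rational number -/
noncomputable def TS (x q r : ℕ) : ℂ := ∑ n ∈ Icc 1 x, ((om n : ℝ) : ℂ) * ee ((n : ℝ) * ((r : ℝ) / q))

lemma ee_mod (q r n : ℕ) (hq : 1 ≤ q) : ee ((n : ℝ) * ((r : ℝ) / q)) =
    ee (((n % q : ℕ) : ℝ) * ((r : ℝ) / q)) := by
  have hq0 : (q : ℝ) ≠ 0 := by positivity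
  have e : (n : ℝ) * ((r : ℝ) / q) = ((n % q : ℕ) : ℝ) * ((r : ℝ) / q) +
      ((((n / q * r : ℕ)) : ℤ) : ℝ) := by
    have h := Nat.mod_add_div n q
    have h2 : (n : ℝ) = ((n % q : ℕ) : ℝ) + q * ((n / q : ℕ) : ℝ) := by exact_mod_cast h.symm
    rw [Int.cast_natCast, Nat.cast_mul]
    generalize ((n / q : ℕ) : ℝ) = u at *
    generalize ((n % q : ℕ) : ℝ) = v at *
    rw [h2]
    field_simp
  rw [e, ee_add_int]

lemma TS_eq (x q r : ℕ) (hq : 1 ≤ q) :
    TS x q r = ∑ a ∈ range q, ee ((a : ℝ) * ((r : ℝ) / q)) * ((thA x q a : ℝ) : ℂ) := by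
  unfold TS thA
  rw [← sum_fiberwise_of_maps_to (s := Icc 1 x) (t := range q) (g := fun n => n % q)
    (fun n _ => mem_range.2 (Nat.mod_lt n (by omega)))]
  apply sum_congr rfl
  intro a ha
  rw [mem_range] at ha
  rw [Complex.ofReal_sum, mul_sum]
  have hf : (Icc 1 x).filter (fun n => n % q = a) = (Icc 1 x).filter (fun n => n ≡ a [MOD q]) := by
    ext n
    simp only [mem_filter]
    unfold Nat.ModEq
    rw [Nat.mod_eq_of_lt ha]
  rw [hf]
  apply sum_congr rfl
  intro n hn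
  rw [mem_filter] at hn
  rw [ee_mod q r n hq]
  have : n % q = a := by
    have := hn.2
    unfold Nat.ModEq at this
    rwa [Nat.mod_eq_of_lt ha] at this
  rw [this]; ring

lemma ram (q r : ℕ) (hq : 1 ≤ q) (hr : Nat.Coprime r q) :
    ∑ a ∈ (range q).filter (fun a => Nat.Coprime a q), ee ((a : ℝ) * ((r : ℝ) / q)) =
      ((ArithmeticFunction.moebius q : ℤ) : ℂ) := by
  rw [← Pool.Agent.Helper602.MK.N_J5b.ramanujan q r (by omega) hr]
  apply sum_congr rfl
  intro a _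
  rw [ee_eq, Pool.Agent.Helper602.MK.N_J5b.ee_eq]
  congr 3
  ring

lemma noncop (x q : ℕ) (hq : 1 ≤ q) :
    ∑ n ∈ (Icc 1 x).filter (fun n => ¬ Nat.Coprime n q), om n ≤ q := by
  have h1 : ∑ n ∈ (Icc 1 x).filter (fun n => ¬ Nat.Coprime n q), om n ≤
      ∑ n ∈ q.primeFactors, Real.log n := by
    rw [← sum_filter_add_sum_filter_not _ (fun n => n.Prime)]
    have h2 : ∑ n ∈ ((Icc 1 x).filter (fun n => ¬ Nat.Coprime n q)).filter (fun n => ¬ n.Prime), om n = 0 := by
      apply sum_eq_zero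
      intro n hn
      rw [mem_filter] at hn
      unfold om
      rw [if_neg hn.2]
    rw [h2, add_zero]
    have h3 : ∑ n ∈ ((Icc 1 x).filter (fun n => ¬ Nat.Coprime n q)).filter (fun n => n.Prime), om n =
        ∑ n ∈ ((Icc 1 x).filter (fun n => ¬ Nat.Coprime n q)).filter (fun n => n.Prime), Real.log n := by
      apply sum_congr rfl
      intro n hn
      rw [mem_filter] at hn
      unfold om
      rw [if_pos hn.2]
    rw [h3]
    apply sum_le_sum_of_subset_of_nonneg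
    · intro n hn
      rw [mem_filter, mem_filter] at hn
      rw [Nat.mem_primeFactors]
      refine ⟨hn.2, ?_, by omega⟩
      by_contra hcon
      exact hn.1.2 ((Nat.Prime.coprime_iff_not_dvd hn.2).2 hcon)
    · intro n _ _
      exact Real.log_natCast_nonneg n
  refine h1.trans ?_
  have h4 : ∑ n ∈ q.primeFactors, Real.log n = Real.log (∏ n ∈ q.primeFactors, (n : ℝ)) := by
    rw [Real.log_prod]
    intro n hn
    have := Nat.pos_of_mem_primeFactors hn
    positivity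
  rw [h4]
  have h5 : (∏ n ∈ q.primeFactors, (n : ℝ)) ≤ q := by
    have := Nat.prod_primeFactors_dvd q
    have h6 := Nat.le_of_dvd (by omega) this
    rw [← Nat.cast_prod]
    exact_mod_cast h6
  have h7 : (0 : ℝ) < ∏ n ∈ q.primeFactors, (n : ℝ) := by
    apply prod_pos
    intro n hn
    have := Nat.pos_of_mem_primeFactors hn
    positivity
  calc Real.log (∏ n ∈ q.primeFactors, (n : ℝ)) ≤ Real.log q := Real.log_le_log h7 h5
    _ ≤ q := by
        have := Real.log_le_sub_one_of_pos (show (0 : ℝ) < q by positivity)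
        linarith

lemma TS_approx (x q r : ℕ) (hq : 1 ≤ q) (hr : Nat.Coprime r q) (E : ℝ)
    (hE : ∀ a : ℕ, a < q → a.Coprime q → |thA x q a - Chebyshev.theta x / (Nat.totient q : ℝ)| ≤ E) :
    ‖TS x q r - ((ArithmeticFunction.moebius q : ℤ) : ℂ) / (Nat.totient q : ℂ) *
      ((Chebyshev.theta (x : ℝ) : ℝ) : ℂ)‖ ≤ q * E + q := by
  rw [TS_eq x q r hq, ← ram q r hq hr, ← sum_filter_add_sum_filter_not (range q)
    (fun a => Nat.Coprime a q)]
  have hE0 : 0 ≤ E ∨ ((range q).filter (fun a => Nat.Coprime a q)) = ∅ := by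
    by_cases h : ((range q).filter (fun a => Nat.Coprime a q)) = ∅
    · right; exact h
    · left
      obtain ⟨a, ha⟩ := nonempty_iff_ne_empty.2 h
      rw [mem_filter, mem_range] at ha
      exact (abs_nonneg _).trans (hE a ha.1 ha.2)
  have hφ : (0 : ℝ) < Nat.totient q := by exact_mod_cast Nat.totient_pos.2 hq
  have e1 : ∑ a ∈ (range q).filter (fun a => Nat.Coprime a q), ee ((a : ℝ) * ((r : ℝ) / q)) *
      ((thA x q a : ℝ) : ℂ) + ∑ a ∈ (range q).filter (fun a => ¬ Nat.Coprime a q),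
        ee ((a : ℝ) * ((r : ℝ) / q)) * ((thA x q a : ℝ) : ℂ) -
      (∑ a ∈ (range q).filter (fun a => Nat.Coprime a q), ee ((a : ℝ) * ((r : ℝ) / q))) /
        (Nat.totient q : ℂ) * ((Chebyshev.theta (x : ℝ) : ℝ) : ℂ) =
      ∑ a ∈ (range q).filter (fun a => Nat.Coprime a q), ee ((a : ℝ) * ((r : ℝ) / q)) *
        ((thA x q a - Chebyshev.theta x / (Nat.totient q : ℝ) : ℝ) : ℂ) +
      ∑ a ∈ (range q).filter (fun a => ¬ Nat.Coprime a q),
        ee ((a : ℝ) * ((r : ℝ) / q)) * ((thA x q a : ℝ) : ℂ) := by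
    rw [sum_div, sum_mul]
    have : ∑ a ∈ (range q).filter (fun a => Nat.Coprime a q), ee ((a : ℝ) * ((r : ℝ) / q)) *
        ((thA x q a - Chebyshev.theta x / (Nat.totient q : ℝ) : ℝ) : ℂ) =
        ∑ a ∈ (range q).filter (fun a => Nat.Coprime a q), ee ((a : ℝ) * ((r : ℝ) / q)) *
        ((thA x q a : ℝ) : ℂ) - ∑ a ∈ (range q).filter (fun a => Nat.Coprime a q),
          ee ((a : ℝ) * ((r : ℝ) / q)) / (Nat.totient q : ℂ) * ((Chebyshev.theta (x : ℝ) : ℝ) : ℂ) := by
      rw [← sum_sub_distrib]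
      apply sum_congr rfl
      intro a _
      push_cast
      ring
    rw [this]; ring
  rw [e1]
  refine (norm_add_le _ _).trans (add_le_add ?_ ?_)
  · refine (norm_sum_le _ _).trans ?_
    have h2 : ∀ a ∈ (range q).filter (fun a => Nat.Coprime a q), ‖ee ((a : ℝ) * ((r : ℝ) / q)) *
        ((thA x q a - Chebyshev.theta x / (Nat.totient q : ℝ) : ℝ) : ℂ)‖ ≤ E := by
      intro a ha
      rw [mem_filter, mem_range] at ha
      rw [norm_mul, norm_ee, one_mul, Complex.norm_real, Real.norm_eq_abs]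
      exact hE a ha.1 ha.2
    refine (sum_le_sum h2).trans ?_
    rw [sum_const, nsmul_eq_mul]
    rcases hE0 with h | h
    · apply mul_le_mul_of_nonneg_right _ h
      have := card_filter_le (range q) (fun a => Nat.Coprime a q)
      rw [card_range] at this
      exact_mod_cast this
    · exfalso
      have : 1 % q ∈ (range q).filter (fun a => Nat.Coprime a q) := by
        rw [mem_filter, mem_range]
        refine ⟨Nat.mod_lt 1 (by omega), ?_⟩
        rcases Nat.lt_or_ge 1 q with h1 | h1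
        · rw [Nat.mod_eq_of_lt h1]; simp
        · have : q = 1 := by omega
          rw [this]; simp
      rw [h] at this
      exact absurd this (notMem_empty _)
  · refine (norm_sum_le _ _).trans ?_
    refine le_trans ?_ (noncop x q hq)
    rw [← sum_fiberwise_of_maps_to (s := (Icc 1 x).filter (fun n => ¬ Nat.Coprime n q))
      (t := (range q).filter (fun a => ¬ Nat.Coprime a q)) (g := fun n => n % q) (by
        intro n hn
        rw [mem_filter] at hn ⊢
        rw [mem_range]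
        refine ⟨Nat.mod_lt n (by omega), ?_⟩
        intro hcon
        apply hn.2
        unfold Nat.Coprime at hcon ⊢
        rw [Nat.gcd_comm, Nat.gcd_rec]
        exact hcon)]
    apply sum_le_sum
    intro a ha
    rw [mem_filter, mem_range] at ha
    rw [norm_mul, norm_ee, one_mul, Complex.norm_real, Real.norm_eq_abs]
    unfold thA
    rw [abs_of_nonneg (sum_nonneg fun n _ => om_nonneg n)]
    apply sum_le_sum_of_subset_of_nonneg
    · intro n hn
      rw [mem_filter] at hn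
      rw [mem_filter, mem_filter]
      have h3 : n % q = a := by
        have := hn.2
        unfold Nat.ModEq at this
        rwa [Nat.mod_eq_of_lt ha.1] at this
      refine ⟨⟨hn.1, ?_⟩, h3⟩
      intro hcon
      apply ha.2
      rw [← h3]
      unfold Nat.Coprime at hcon ⊢
      rw [Nat.gcd_comm, Nat.gcd_rec] at hcon
      exact hcon
    · intro n _ _
      exact om_nonneg n

/-- **Major arcs.** -/
lemma SP_major (N q r : ℕ) (hq : 1 ≤ q) (hr : Nat.Coprime r q) (E : ℝ) (hE0 : 0 ≤ E)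
    (hE : ∀ x : ℕ, x ≤ N → ∀ a : ℕ, a < q → a.Coprime q →
      |thA x q a - Chebyshev.theta x / (Nat.totient q : ℝ)| ≤ E) (β : ℝ) :
    ‖SP N ((r : ℝ) / q + β)‖ ≤ 2 * N / (Nat.totient q : ℝ) +
      (q * E + q) * (1 + 2 * Real.pi * (N * |β|)) := by
  set μ : ℂ := ((ArithmeticFunction.moebius q : ℤ) : ℂ) / (Nat.totient q : ℂ) with hμ
  have hφ : (0 : ℝ) < Nat.totient q := by exact_mod_cast Nat.totient_pos.2 hq
  have hμ1 : ‖μ‖ ≤ 1 / (Nat.totient q : ℝ) := by
    rw [hμ, norm_div, Complex.norm_natCast]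
    apply div_le_div_of_nonneg_right _ hφ.le
    rw [Complex.norm_intCast]
    have := ArithmeticFunction.abs_moebius_le_one (n := q)
    exact_mod_cast this
  set c : ℕ → ℂ := fun n => ((om n : ℝ) : ℂ) * ee ((n : ℝ) * ((r : ℝ) / q)) - μ * ((om n : ℝ) : ℂ) with hc
  have h1 : ∀ x : ℕ, x ≤ N → ‖∑ n ∈ Icc 1 x, c n‖ ≤ q * E + q := by
    intro x hx
    have e : ∑ n ∈ Icc 1 x, c n = TS x q r - μ * ((Chebyshev.theta (x : ℝ) : ℝ) : ℂ) := by
      rw [hc]
      simp only
      rw [sum_sub_distrib, ← mul_sum, ← sum_om, Complex.ofReal_sum]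
      rfl
    rw [e]
    exact TS_approx x q r hq hr E (hE x hx)
  have hE1 : 0 ≤ q * E + q := by positivity
  have h2 := abel c β (q * E + q) hE1 N h1
  have e : SP N ((r : ℝ) / q + β) = ∑ n ∈ Icc 1 N, c n * ee ((n : ℝ) * β) + μ * SP N β := by
    rw [hc]
    unfold SP
    rw [mul_sum, ← sum_add_distrib]
    apply sum_congr rfl
    intro n _
    have : ee ((n : ℝ) * ((r : ℝ) / q + β)) = ee ((n : ℝ) * ((r : ℝ) / q)) * ee ((n : ℝ) * β) := by
      rw [← ee_add]; congr 1; ring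
    rw [this]
    ring
  rw [e]
  refine (norm_add_le _ _).trans ?_
  have h3 : ‖μ * SP N β‖ ≤ 2 * N / (Nat.totient q : ℝ) := by
    rw [norm_mul]
    calc ‖μ‖ * ‖SP N β‖ ≤ (1 / (Nat.totient q : ℝ)) * (2 * N) :=
          mul_le_mul hμ1 (SP_le N β) (norm_nonneg _) (by positivity)
      _ = _ := by ring
  linarith

end Pool.Agent.W301.SS
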