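import Mathlib
import Pool.Agent.W301.SS.Major
import Pool.Agent.H442R2.EHI.Model

/-! The product of the exponential sum over primes and the kernel of short intervals, all
frequencies. -/

set_option autoImplicit false

namespace Pool.Agent.W301.SS
open Finset Filter
open Pool.Agent.H807R2.Dav

lemma SP_int (N : ℕ) (x : ℝ) (m : ℤ) : SP N (x + m) = SP N x := by
  unfold SP
  apply sum_congr rfl
  intro n _
  have : (n : ℝ) * (x + m) = n * x + ((n * m : ℤ) : ℝ) := by push_cast; ring
  rw [this, ee_add_int]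

lemma FK_int (H : ℕ) (x : ℝ) (m : ℤ) : FK H (x + m) = FK H x := by
  unfold FK
  apply sum_congr rfl
  intro n _
  have : (n : ℝ) * (x + m) = n * x + ((n * m : ℤ) : ℝ) := by push_cast; ring
  rw [this, ee_add_int]

lemma log_ratio {H q : ℝ} (hH : 1 ≤ H) (hq : H ≤ q) : (1 + Real.log q) / q ≤ (1 + Real.log H) / H := by
  have hH0 : 0 < H := by linarith
  have hq0 : 0 < q := by linarith
  have h1 : Real.log q = Real.log H + Real.log (q / H) := by
    rw [Real.log_div hq0.ne' hH0.ne']; ring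
  have h2 : Real.log (q / H) ≤ q / H - 1 := Real.log_le_sub_one_of_pos (by positivity)
  have h3 : 1 ≤ q / H := by rw [le_div_iff₀ hH0]; linarith
  have h4 : 0 ≤ Real.log H := Real.log_nonneg hH
  have h5 : 1 + Real.log q ≤ (q / H) * (1 + Real.log H) := by
    rw [h1]
    nlinarith
  rw [div_le_div_iff₀ hq0 hH0]
  calc (1 + Real.log q) * H ≤ ((q / H) * (1 + Real.log H)) * H := by gcongr
    _ = (1 + Real.log H) * q := by field_simp

/-- the bound for the product at an arbitrary frequency -/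
theorem point (U : ℕ) : ∃ K : ℕ, ∀ᶠ N : ℕ in atTop, ∀ H H1 : ℕ, 1 ≤ H → H ≤ H1 →
    (H1 : ℝ) * Real.log N ^ K ≤ N → ∀ α : ℝ,
    ‖SP N (-α)‖ * ‖FK H α / H - FK H1 α / H1‖ ≤
      24 * N * ((1 + Real.log H) / H) + N / Real.log N ^ U := by
  obtain ⟨C, hC0, hV⟩ := vinoP
  obtain ⟨K, hK⟩ : ∃ K : ℕ, K = U + 9 := ⟨_, rfl⟩
  refine ⟨2 * K + U + 1, ?_⟩
  filter_upwards [swT (4 * K + U + 1) (2 * K), ev_L (2304 * C + 200), ev_log (4 * K + U + 1) 1 1 (by norm_num),
    ev_log K 1 (1 / 5) (by norm_num), ev_log (2 * K) 8 1 (by norm_num), eventually_ge_atTop 16] with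
    N h1 h2 h3 h4 h5 hN16 H H1 hH hHH hH1K α
  have hNr : (16 : ℝ) ≤ N := by exact_mod_cast hN16
  have hN0 : (0 : ℝ) < N := by linarith
  set ℓ := Real.log N with hℓ
  have hℓ200 : 200 ≤ ℓ := by have := hC0.le; linarith
  have hℓ0 : 0 < ℓ := by linarith
  have hℓ1 : 1 ≤ ℓ := by linarith
  rw [Real.rpow_one] at h3 h5
  have hHr : (1 : ℝ) ≤ H := by exact_mod_cast hH
  have hH0 : (0 : ℝ) < H := by linarith
  have hH1 : 1 ≤ H1 := by omega
  have hH1r : (1 : ℝ) ≤ H1 := by exact_mod_cast hH1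
  have hHH1 : (H : ℝ) ≤ H1 := by exact_mod_cast hHH
  have hlogH : 0 ≤ Real.log H := Real.log_nonneg hHr
  have hℓU : 0 < (N : ℝ) / ℓ ^ U := by positivity
  have hmain0 : 0 ≤ 24 * (N : ℝ) * ((1 + Real.log H) / H) := by positivity
  have hpi0 := Real.pi_pos
  have hpi := Real.pi_lt_d2
  -- Dirichlet approximation
  set D : ℕ := ⌊(N : ℝ) / ℓ ^ (2 * K)⌋₊ with hD
  have hDpos : 0 < D := by
    apply Nat.floor_pos.2
    rw [le_div_iff₀ (by positivity), one_mul]
    have : 0 < ℓ ^ (2 * K) := by positivity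
    linarith
  have hDle : (D : ℝ) ≤ N / ℓ ^ (2 * K) := Nat.floor_le (by positivity)
  have hDge : (N : ℝ) / ℓ ^ (2 * K) < D + 1 := Nat.lt_floor_add_one _
  obtain ⟨w, hw1, hw2⟩ := Real.exists_rat_abs_sub_le_and_den_le (-α) hDpos
  obtain ⟨q, hq⟩ : ∃ q : ℕ, q = w.den := ⟨_, rfl⟩
  obtain ⟨c, hc⟩ : ∃ c : ℤ, c = w.num := ⟨_, rfl⟩
  have hq1 : 1 ≤ q := by rw [hq]; exact w.den_pos
  have hqr : (1 : ℝ) ≤ q := by exact_mod_cast hq1
  have hq0 : (0 : ℝ) < q := by linarith
  have hwq : (w : ℝ) = (c : ℝ) / q := by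
    rw [hc, hq]
    exact_mod_cast (Rat.num_div_den w).symm
  have hcop : IsCoprime c (q : ℤ) := by
    rw [hc, hq, Int.isCoprime_iff_gcd_eq_one]
    exact w.reduced
  rw [hwq, ← hq] at hw1
  rw [← hq] at hw2
  have hqD : (q : ℝ) ≤ D := by exact_mod_cast hw2
  obtain ⟨β, hβ⟩ : ∃ β : ℝ, β = -α - (c : ℝ) / q := ⟨_, rfl⟩
  rw [← hβ] at hw1
  have hD1 : (0 : ℝ) < D + 1 := by positivity
  have hβ1 : |β| ≤ ℓ ^ (2 * K) / (N * q) := by
    refine hw1.trans ?_
    rw [div_le_div_iff₀ (by positivity) (by positivity), one_mul]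
    have : (N : ℝ) ≤ ℓ ^ (2 * K) * (D + 1) := by
      rw [div_lt_iff₀ (by positivity)] at hDge
      linarith
    calc (N : ℝ) * q ≤ (ℓ ^ (2 * K) * (D + 1)) * q := by gcongr
      _ = _ := by ring
  have hFK2 : ∀ x : ℝ, ‖FK H x / H - FK H1 x / H1‖ ≤ 6 := by
    intro x
    have a1 := FK_far H hH x
    have a2 := FK_far H1 hH1 x
    have a3 := dd_nonneg x
    have a4 : 3 / (1 + (H : ℝ) * dd x) ≤ 3 := div_le_self (by norm_num) (by nlinarith)
    have a5 : 3 / (1 + (H1 : ℝ) * dd x) ≤ 3 := div_le_self (by norm_num) (by nlinarith)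
    calc _ ≤ ‖FK H x / H‖ + ‖FK H1 x / H1‖ := norm_sub_le _ _
      _ ≤ 6 := by linarith
  rcases lt_or_ge (ℓ ^ (2 * K)) (q : ℝ) with hbig | hsmall
  · -- minor arcs
    have a1 : ‖SP N (-α)‖ ≤ C * (1 + Real.log N) ^ 7 * VB N q := by
      apply hV N q (by omega) hq1 c hcop
      rw [← hβ]
      refine hw1.trans ?_
      apply one_div_le_one_div_of_le (by positivity)
      nlinarith
    have hsq : ℓ ^ K ≤ √(q : ℝ) := by
      apply Real.le_sqrt_of_sq_le
      rw [← pow_mul, mul_comm K 2]; exact hbig.le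
    have b1 : (N : ℝ) / √(q : ℝ) ≤ N / ℓ ^ K := by gcongr
    have b2 : (N : ℝ) ^ (4 / 5 : ℝ) ≤ N / ℓ ^ K := by
      rw [le_div_iff₀ (by positivity)]
      calc (N : ℝ) ^ (4 / 5 : ℝ) * ℓ ^ K ≤ (N : ℝ) ^ (4 / 5 : ℝ) * (N : ℝ) ^ (1 / 5 : ℝ) := by
            apply mul_le_mul_of_nonneg_left _ (by positivity)
            linarith
        _ = N := by rw [← Real.rpow_add hN0]; norm_num
    have b3 : √((N : ℝ) * q) ≤ N / ℓ ^ K := by
      apply Real.sqrt_le_iff.2
      refine ⟨by positivity, ?_⟩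
      calc (N : ℝ) * q ≤ N * (N / ℓ ^ (2 * K)) := by
            apply mul_le_mul_of_nonneg_left (hqD.trans hDle) hN0.le
        _ = (N / ℓ ^ K) ^ 2 := by rw [div_pow, ← pow_mul, mul_comm K 2]; ring
    have b4 : VB N q ≤ 3 * (N / ℓ ^ K) := by unfold VB; linarith
    have b5 : (1 + ℓ) ^ 7 ≤ 128 * ℓ ^ 7 := by
      calc (1 + ℓ) ^ 7 ≤ (2 * ℓ) ^ 7 := pow_le_pow_left₀ (by linarith) (by linarith) 7
        _ = _ := by ring
    have b6 : ‖SP N (-α)‖ ≤ C * (128 * ℓ ^ 7) * (3 * (N / ℓ ^ K)) := by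
      refine a1.trans ?_
      have g1 : C * (1 + Real.log N) ^ 7 ≤ C * (128 * ℓ ^ 7) := mul_le_mul_of_nonneg_left b5 hC0.le
      apply mul_le_mul g1 b4 (by unfold VB; positivity) (by positivity)
    calc ‖SP N (-α)‖ * ‖FK H α / H - FK H1 α / H1‖ ≤ (C * (128 * ℓ ^ 7) * (3 * (N / ℓ ^ K))) * 6 :=
          mul_le_mul b6 (hFK2 α) (norm_nonneg _) (by positivity)
      _ = (2304 * C / ℓ ^ 2) * (N / ℓ ^ U) := by
          rw [hK, show U + 9 = U + 7 + 2 by omega, pow_add, pow_add]; field_simp; ring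
      _ ≤ 1 * (N / ℓ ^ U) := by
          apply mul_le_mul_of_nonneg_right _ hℓU.le
          rw [div_le_one (by positivity)]
          nlinarith
      _ ≤ _ := by linarith
  · -- major arcs
    set r : ℕ := (c % q).toNat with hr
    have hrc : ((r : ℕ) : ℤ) = c % q := Int.toNat_of_nonneg (Int.emod_nonneg _ (by omega))
    set m : ℤ := c / q with hm
    have hcr : (c : ℝ) / q = (r : ℝ) / q + m := by
      have e1 : c = r + q * m := by rw [hrc, hm]; exact (Int.emod_add_mul_ediv c q).symm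
      have e2 : (c : ℝ) = r + q * m := by exact_mod_cast e1
      rw [e2]; field_simp
    have hrq : r < q := by
      have := Int.emod_lt_of_pos c (show (0 : ℤ) < q by omega)
      omega
    have hrcop : Nat.Coprime r q := by
      rw [← Nat.isCoprime_iff_coprime, hrc]
      have h6 : IsCoprime (c % (q : ℤ) + q * (c / q)) (q : ℤ) := by
        rw [Int.emod_add_mul_ediv]; exact hcop
      exact (IsCoprime.add_mul_left_left_iff).1 h6
    have hξ : -α = ((r : ℝ) / q + β) + m := by rw [hβ, hcr]; ring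
    have hSP : SP N (-α) = SP N ((r : ℝ) / q + β) := by rw [hξ, SP_int]
    have hβN : (N : ℝ) * |β| ≤ ℓ ^ (2 * K) / q := by
      calc (N : ℝ) * |β| ≤ N * (ℓ ^ (2 * K) / (N * q)) := by gcongr
        _ = _ := by field_simp
    rcases Nat.lt_or_ge 1 q with hq2 | hq2
    · -- `q ≥ 2`
      have hφ : (0 : ℝ) < Nat.totient q := by exact_mod_cast Nat.totient_pos.2 hq1
      set E : ℝ := N / ℓ ^ (4 * K + U + 1) with hE
      have hE1 : 1 ≤ E := by
        rw [hE, le_div_iff₀ (by positivity), one_mul]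
        linarith
      have c1 := SP_major N q r hq1 hrcop E (by positivity)
        (fun x hx a ha hac => h1 x hx q hq1 hsmall a ha hac) β
      have c2 : (q * E + q) * (1 + 2 * Real.pi * (N * |β|)) ≤ 16 * (N / ℓ ^ (U + 1)) := by
        have d1 : 1 + 2 * Real.pi * (N * |β|) ≤ 8 * ℓ ^ (2 * K) := by
          have e1 : (N : ℝ) * |β| ≤ ℓ ^ (2 * K) := hβN.trans (div_le_self (by positivity) hqr)
          have e2 : 1 ≤ ℓ ^ (2 * K) := one_le_pow₀ hℓ1
          have e3 : 2 * Real.pi * (N * |β|) ≤ 7 * ℓ ^ (2 * K) := by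
            apply mul_le_mul (by linarith) e1 (by positivity) (by norm_num)
          linarith
        have d2 : q * E + q ≤ 2 * (ℓ ^ (2 * K) * E) := by
          have e1 : (q : ℝ) * E ≤ ℓ ^ (2 * K) * E := by gcongr
          have e2 : (q : ℝ) ≤ q * E := by nlinarith
          linarith
        calc (q * E + q) * (1 + 2 * Real.pi * (N * |β|)) ≤
              (2 * (ℓ ^ (2 * K) * E)) * (8 * ℓ ^ (2 * K)) := by
                apply mul_le_mul d2 d1 (by positivity) (by positivity)
          _ = 16 * (N / ℓ ^ (U + 1)) := by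
              rw [hE]
              have : ℓ ^ (4 * K + U + 1) = ℓ ^ (2 * K) * ℓ ^ (2 * K) * ℓ ^ (U + 1) := by
                rw [← pow_add, ← pow_add]; congr 1; omega
              rw [this]; field_simp; norm_num
      have c3 : 2 / (q : ℝ) ≤ dd α := by
        have e0 : dd α = dd ((r : ℝ) / q + β) := by
          rw [← dd_neg, hξ, dd_add_int]
        rw [e0]
        have e1 := dd_add_ge ((r : ℝ) / q) β
        have hr1 : 1 ≤ r := by
          by_contra hcon
          have : r = 0 := by omega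
          rw [this, Nat.coprime_zero_left] at hrcop
          omega
        have e2 : 4 * min ((r : ℝ) / q) (1 - (r : ℝ) / q) ≤ dd ((r : ℝ) / q) := by
          apply dd_ge (by positivity)
          rw [div_le_one hq0]; exact_mod_cast hrq.le
        have e3 : 1 / (q : ℝ) ≤ min ((r : ℝ) / q) (1 - (r : ℝ) / q) := by
          apply le_min
          · have : (1 : ℝ) ≤ r := by exact_mod_cast hr1
            gcongr
          · have : (r : ℝ) + 1 ≤ q := by exact_mod_cast hrq
            rw [div_le_iff₀ hq0, sub_mul, div_mul_cancel₀ _ hq0.ne']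
            linarith
        have e4 : 2 * Real.pi * |β| ≤ 1 / q := by
          have f1 : |β| ≤ 1 / (8 * q) := by
            refine hβ1.trans ?_
            rw [div_le_div_iff₀ (by positivity) (by positivity)]
            calc ℓ ^ (2 * K) * (8 * q) = (8 * ℓ ^ (2 * K)) * q := by ring
              _ ≤ N * q := by gcongr
              _ = _ := by ring
          calc 2 * Real.pi * |β| ≤ 8 * (1 / (8 * q)) := by
                apply mul_le_mul (by linarith) f1 (abs_nonneg _) (by norm_num)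
            _ = _ := by field_simp
        have e5 : 2 / (q : ℝ) = 2 * (1 / q) := by ring
        have e6 : 0 < 1 / (q : ℝ) := by positivity
        rw [e5]
        linarith
      have c4 : ‖FK H α / H - FK H1 α / H1‖ ≤ 6 * (q / (q + 2 * H)) := by
        have a1 := FK_far H hH α
        have a2 := FK_far H1 hH1 α
        have a0 := dd_nonneg α
        have a3 : 3 / (1 + (H1 : ℝ) * dd α) ≤ 3 / (1 + H * dd α) := by
          apply div_le_div_of_nonneg_left (by norm_num) (by positivity)
          nlinarith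
        have a4 : 3 / (1 + (H : ℝ) * dd α) ≤ 3 * (q / (q + 2 * H)) := by
          have b2 : 1 + 2 * (H : ℝ) / q ≤ 1 + H * dd α := by
            have : (H : ℝ) * (2 / q) ≤ H * dd α := mul_le_mul_of_nonneg_left c3 hH0.le
            have e : 2 * (H : ℝ) / q = H * (2 / q) := by ring
            linarith
          have b3 : (q : ℝ) / (q + 2 * H) = 1 / (1 + 2 * H / q) := by field_simp
          rw [b3, mul_one_div]
          exact div_le_div_of_nonneg_left (by norm_num) (by positivity) b2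
        calc _ ≤ ‖FK H α / H‖ + ‖FK H1 α / H1‖ := norm_sub_le _ _
          _ ≤ _ := by linarith
      have c5 : (q : ℝ) / Nat.totient q ≤ 2 * (1 + Real.log q) := by
        rw [div_le_iff₀ hφ]
        exact Pool.Agent.H442R2.EHI.Mdl.tot_lower q hq1
      have c6 : (1 + Real.log q) / (q + 2 * H) ≤ (1 + Real.log H) / H := by
        have hlq : 0 ≤ Real.log q := Real.log_nonneg hqr
        rcases le_or_gt (q : ℝ) H with hqH | hqH
        · have e1 : Real.log q ≤ Real.log H := Real.log_le_log hq0 hqH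
          apply div_le_div₀ (by linarith) (by linarith) hH0
          linarith
        · calc (1 + Real.log q) / (q + 2 * H) ≤ (1 + Real.log q) / q := by
                apply div_le_div_of_nonneg_left (by linarith) hq0
                linarith
            _ ≤ _ := log_ratio hHr hqH.le
      have c7 : (0 : ℝ) ≤ q / (q + 2 * H) := by positivity
      have c8 : (q : ℝ) / (q + 2 * H) ≤ 1 := by
        rw [div_le_one (by positivity)]; linarith
      rw [hSP]
      calc ‖SP N ((r : ℝ) / q + β)‖ * ‖FK H α / H - FK H1 α / H1‖ ≤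
            (2 * N / (Nat.totient q : ℝ) + 16 * (N / ℓ ^ (U + 1))) * (6 * (q / (q + 2 * H))) := by
              apply mul_le_mul (c1.trans (by linarith)) c4 (norm_nonneg _) (by positivity)
        _ = 12 * N * ((q / Nat.totient q) * (1 / (q + 2 * H))) +
              96 * (N / ℓ ^ (U + 1)) * (q / (q + 2 * H)) := by
              ring
        _ ≤ 12 * N * ((2 * (1 + Real.log q)) * (1 / (q + 2 * H))) + 96 * (N / ℓ ^ (U + 1)) * 1 := by
              gcongr
        _ = 24 * N * ((1 + Real.log q) / (q + 2 * H)) + (96 / ℓ) * (N / ℓ ^ U) := by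
              have e9 : (N : ℝ) / ℓ ^ (U + 1) = (1 / ℓ) * (N / ℓ ^ U) := by
                rw [pow_succ]; field_simp
              rw [e9]; ring
        _ ≤ 24 * N * ((1 + Real.log H) / H) + 1 * (N / ℓ ^ U) := by
              have : 96 / ℓ ≤ 1 := by rw [div_le_one hℓ0]; linarith
              gcongr
        _ = _ := by ring
    · -- `q = 1`
      have hq11 : q = 1 := by omega
      have hβ2 : |β| ≤ ℓ ^ (2 * K) / N := by
        rw [hq11] at hβ1
        simpa using hβ1
      have hα : α = -β + ((-c : ℤ) : ℝ) := by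
        rw [hβ, hq11]; push_cast; ring
      have e1 : ‖FK H α / H - FK H1 α / H1‖ ≤ 4 * Real.pi * (H1 * |β|) := by
        rw [hα, FK_int, FK_int]
        have a1 := FK_near H hH (-β)
        have a2 := FK_near H1 hH1 (-β)
        rw [abs_neg] at a1 a2
        have e : FK H (-β) / H - FK H1 (-β) / H1 = (FK H (-β) / H - 1) - (FK H1 (-β) / H1 - 1) := by ring
        rw [e]
        refine (norm_sub_le _ _).trans ?_
        have a3 : 2 * Real.pi * (H * |β|) ≤ 2 * Real.pi * (H1 * |β|) := by gcongr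
        linarith
      calc ‖SP N (-α)‖ * ‖FK H α / H - FK H1 α / H1‖ ≤ (2 * N) * (4 * Real.pi * (H1 * |β|)) :=
            mul_le_mul (SP_le N _) e1 (norm_nonneg _) (by positivity)
        _ ≤ (2 * N) * (4 * Real.pi * (H1 * (ℓ ^ (2 * K) / N))) := by gcongr
        _ = 8 * Real.pi * (H1 * ℓ ^ (2 * K)) := by field_simp; ring
        _ ≤ 26 * (N / ℓ ^ (U + 1)) := by
            have f1 : (H1 : ℝ) * ℓ ^ (2 * K) ≤ N / ℓ ^ (U + 1) := by
              rw [le_div_iff₀ (by positivity)]
              calc (H1 : ℝ) * ℓ ^ (2 * K) * ℓ ^ (U + 1) = H1 * ℓ ^ (2 * K + U + 1) := by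
                    rw [mul_assoc, ← pow_add]; rfl
                _ ≤ N := hH1K
            have f2 : 0 ≤ (N : ℝ) / ℓ ^ (U + 1) := by positivity
            calc 8 * Real.pi * (H1 * ℓ ^ (2 * K)) ≤ 26 * (H1 * ℓ ^ (2 * K)) := by
                  apply mul_le_mul_of_nonneg_right (by linarith) (by positivity)
              _ ≤ _ := by gcongr
        _ = (26 / ℓ) * (N / ℓ ^ U) := by rw [pow_succ]; field_simp
        _ ≤ 1 * (N / ℓ ^ U) := by
            apply mul_le_mul_of_nonneg_right _ hℓU.le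
            rw [div_le_one hℓ0]; linarith
        _ ≤ _ := by linarith

end Pool.Agent.W301.SS
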