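import Mathlib
import Pool.Agent.W301.SS.Point

/-! Sums over pairs: all lengths of intervals. -/

set_option autoImplicit false

namespace Pool.Agent.W301.SS
open Finset Filter
open Pool.Agent.H807R2.Dav

/-- Sums over pairs, weighted by `log p`, arbitrary length. -/
theorem shortPair (U : ℕ) : ∀ᶠ N : ℕ in atTop,
    ∀ A B : Finset ℕ, (∀ a ∈ A, a ≤ N) → (∀ b ∈ B, b ≤ N) → ∀ H : ℕ, 1 ≤ H → H ≤ 2 * N →
    |TT A B H / H - (A.card : ℝ) * B.card| ≤
      √((A.card : ℝ) * B.card) * (96 * N * ((1 + Real.log H) / H) + N / Real.log N ^ U) +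
      (A.card : ℝ) * B.card / Real.log N ^ U := by
  obtain ⟨K, hK⟩ := point (U + 1)
  have h4N : Tendsto (fun N : ℕ => 4 * N) atTop atTop :=
    tendsto_id.const_mul_atTop' (by norm_num : 0 < 4)
  filter_upwards [h4N.eventually hK, pnt_unif (K + U + 1), ev_L (4 * 2 ^ K + 16),
    ev_log (K + 1) (2 * 2 ^ K) 1 (by norm_num), eventually_ge_atTop 16] with
    N h1 h2 h3 h4 hN16 A B hA hB H hH hHN
  have hNr : (16 : ℝ) ≤ N := by exact_mod_cast hN16
  have hN0 : (0 : ℝ) < N := by linarith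
  set ℓ := Real.log N with hℓ
  have hK0 : (0 : ℝ) < 2 ^ K := by positivity
  have hℓ16 : 16 ≤ ℓ := by linarith
  have hℓ0 : 0 < ℓ := by linarith
  have hℓ1 : 1 ≤ ℓ := by linarith
  rw [Real.rpow_one] at h4
  set P : ℝ := (A.card : ℝ) * B.card with hP
  have hP0 : 0 ≤ P := by positivity
  have hHr : (1 : ℝ) ≤ H := by exact_mod_cast hH
  have hH0 : (0 : ℝ) < H := by linarith
  have hlogH : 0 ≤ Real.log H := Real.log_nonneg hHr
  -- the long length
  set H1 : ℕ := ⌊(N : ℝ) / (2 * ℓ) ^ K⌋₊ with hH1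
  have hH1le : (H1 : ℝ) ≤ N / (2 * ℓ) ^ K := Nat.floor_le (by positivity)
  have hbig : 2 ≤ (N : ℝ) / (2 * ℓ) ^ K := by
    rw [le_div_iff₀ (by positivity), mul_pow]
    calc 2 * (2 ^ K * ℓ ^ K) = 2 * 2 ^ K * ℓ ^ K := by ring
      _ ≤ 2 * 2 ^ K * ℓ ^ (K + 1) := by
          apply mul_le_mul_of_nonneg_left _ (by positivity)
          exact pow_le_pow_right₀ hℓ1 (by omega)
      _ ≤ N := h4
  have hH1ge : (N : ℝ) / (2 * ℓ) ^ K ≤ 2 * H1 := by
    have := Nat.lt_floor_add_one ((N : ℝ) / (2 * ℓ) ^ K)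
    rw [← hH1] at this
    linarith
  have hH1pos : 1 ≤ H1 := Nat.le_floor (by push_cast; linarith)
  have hH1N : H1 ≤ N := by
    have : (H1 : ℝ) ≤ N := hH1le.trans (div_le_self hN0.le (one_le_pow₀ (by linarith)))
    exact_mod_cast this
  have hH10 : (0 : ℝ) < H1 := by exact_mod_cast hH1pos
  have hL : Real.log ((4 * N : ℕ) : ℝ) ≤ 2 * ℓ := by
    push_cast
    rw [Real.log_mul (by norm_num) (by linarith)]
    have := log4
    linarith
  have hL' : ℓ ≤ Real.log ((4 * N : ℕ) : ℝ) := by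
    apply Real.log_le_log hN0
    push_cast
    linarith
  have hlong : ∀ z : ℕ, H1 ≤ z → z ≤ 2 * N → |TT A B z / z - P| ≤ P / ℓ ^ U := by
    intro z hz1 hz2
    have a1 := TT_pnt A B N z hA hB hz2 (N / ℓ ^ (K + U + 1)) h2
    have hz : (H1 : ℝ) ≤ z := by exact_mod_cast hz1
    have hz0 : (0 : ℝ) < z := by linarith
    have a2 : 2 * (N / ℓ ^ (K + U + 1)) ≤ (1 / ℓ ^ U) * z := by
      calc 2 * (N / ℓ ^ (K + U + 1)) = (2 * 2 ^ K / ℓ) * (1 / ℓ ^ U) * (N / (2 * ℓ) ^ K) := by
            rw [pow_succ, pow_add, mul_pow]; field_simp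
        _ ≤ (2 * 2 ^ K / ℓ) * (1 / ℓ ^ U) * (2 * H1) := by gcongr
        _ ≤ (2 * 2 ^ K / ℓ) * (1 / ℓ ^ U) * (2 * z) := by gcongr
        _ = (4 * 2 ^ K / ℓ) * ((1 / ℓ ^ U) * z) := by ring
        _ ≤ 1 * ((1 / ℓ ^ U) * z) := by
            apply mul_le_mul_of_nonneg_right _ (by positivity)
            rw [div_le_one hℓ0]; linarith
        _ = _ := one_mul _
    have e : TT A B z / z - P = (TT A B z - P * z) / z := by field_simp
    rw [e, abs_div, abs_of_pos hz0, div_le_iff₀ hz0]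
    refine a1.trans ?_
    calc P * (2 * (N / ℓ ^ (K + U + 1))) ≤ P * ((1 / ℓ ^ U) * z) := by gcongr
      _ = _ := by ring
  rcases le_or_gt H1 H with hcase | hcase
  · refine (hlong H hcase hHN).trans ?_
    have : 0 ≤ √P * (96 * N * ((1 + Real.log H) / H) + N / ℓ ^ U) := by positivity
    linarith
  · have hW0 : 0 ≤ 24 * ((4 * N : ℕ) : ℝ) * ((1 + Real.log H) / H) +
        ((4 * N : ℕ) : ℝ) / Real.log ((4 * N : ℕ) : ℝ) ^ (U + 1) := by positivity
    have b1 := TT_diff (N := 4 * N) (M := 4 * N + 1) (by omega) A B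
      (fun a ha => by have := hA a ha; omega) (fun b hb => by have := hB b hb; omega) H H1 hcase.le
      (fun a ha b hb => by have := hA a ha; have := hB b hb; omega)
      (24 * ((4 * N : ℕ) : ℝ) * ((1 + Real.log H) / H) +
        ((4 * N : ℕ) : ℝ) / Real.log ((4 * N : ℕ) : ℝ) ^ (U + 1)) hW0
      (fun r _ => h1 H H1 hH hcase.le (by
        calc (H1 : ℝ) * Real.log ((4 * N : ℕ) : ℝ) ^ K ≤ (N / (2 * ℓ) ^ K) * (2 * ℓ) ^ K := by
              gcongr
          _ = N := by field_simp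
          _ ≤ ((4 * N : ℕ) : ℝ) := by push_cast; linarith) _)
    have b2 := hlong H1 le_rfl (by omega)
    have b3 : 24 * ((4 * N : ℕ) : ℝ) * ((1 + Real.log H) / H) +
        ((4 * N : ℕ) : ℝ) / Real.log ((4 * N : ℕ) : ℝ) ^ (U + 1) ≤
        96 * N * ((1 + Real.log H) / H) + N / ℓ ^ U := by
      have c1 : ((4 * N : ℕ) : ℝ) / Real.log ((4 * N : ℕ) : ℝ) ^ (U + 1) ≤ N / ℓ ^ U := by
        calc ((4 * N : ℕ) : ℝ) / Real.log ((4 * N : ℕ) : ℝ) ^ (U + 1) ≤
              ((4 * N : ℕ) : ℝ) / ℓ ^ (U + 1) := by gcongr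
          _ = (4 / ℓ) * (N / ℓ ^ U) := by push_cast; rw [pow_succ]; field_simp
          _ ≤ 1 * (N / ℓ ^ U) := by
              apply mul_le_mul_of_nonneg_right _ (by positivity)
              rw [div_le_one hℓ0]; linarith
          _ = _ := one_mul _
      push_cast at c1 ⊢
      linarith
    have b4 : |TT A B H / H - TT A B H1 / H1| ≤
        √P * (96 * N * ((1 + Real.log H) / H) + N / ℓ ^ U) :=
      b1.trans (mul_le_mul_of_nonneg_left b3 (Real.sqrt_nonneg _))
    rw [abs_le] at b2 b4 ⊢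
    constructor <;> linarith [b2.1, b2.2, b4.1, b4.2]

lemma TT_single (A B : Finset ℕ) (y : ℕ) : TT A B y = ∑ b ∈ B, TT A {b} y := by
  unfold TT
  simp_rw [sum_singleton]
  rw [sum_comm]

lemma TT_mono {A B : Finset ℕ} {y z : ℕ} (h : y ≤ z) : TT A B y ≤ TT A B z := by
  unfold TT
  apply sum_le_sum; intro a _
  apply sum_le_sum; intro b _
  exact sum_le_sum_of_subset_of_nonneg (Ioc_subset_Ioc_right h) (fun _ _ _ => om_nonneg _)

/-- few exceptional translates, one length -/
lemma oneLength (δ : ℝ) (hδ : 0 < δ) (U : ℕ) (hU : 1 ≤ U) : ∀ᶠ N : ℕ in atTop,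
    ∀ A : Finset ℕ, (∀ a ∈ A, a ≤ N) → ∀ H : ℕ, 1 ≤ H → H ≤ 2 * N → ∀ B : Finset ℕ, (∀ b ∈ B, b ≤ N) →
    ((∀ b ∈ B, (1 + δ) * (H * A.card) < TT A {b} H) ∨ (∀ b ∈ B, TT A {b} H < (1 - δ) * (H * A.card))) →
    (A.card : ℝ) * B.card ≤ (4 / δ ^ 2) * (96 * N * ((1 + Real.log H) / H) + N / Real.log N ^ U) ^ 2 := by
  filter_upwards [shortPair U, ev_L (2 / δ + 1)] with N h1 h2 A hA H hH hHN B hB hcase
  set ℓ := Real.log N with hℓ
  have hd : 0 < 2 / δ := by positivity
  have hℓ1 : 1 ≤ ℓ := by linarith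
  have hℓ0 : 0 < ℓ := by linarith
  have hH0 : (0 : ℝ) < H := by exact_mod_cast hH
  have hHr : (1 : ℝ) ≤ H := by exact_mod_cast hH
  have hlogH : 0 ≤ Real.log H := Real.log_nonneg hHr
  set P : ℝ := (A.card : ℝ) * B.card with hP
  have hP0 : 0 ≤ P := by positivity
  set W : ℝ := 96 * N * ((1 + Real.log H) / H) + N / ℓ ^ U with hW
  have hW0 : 0 ≤ W := by rw [hW]; positivity
  have h3 := h1 A B hA hB H hH hHN
  have h4 : δ * P ≤ |TT A B H / H - P| := by
    rcases hcase with hc | hc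
    · have : (1 + δ) * (H * A.card) * B.card ≤ TT A B H := by
        rw [TT_single]
        calc (1 + δ) * (H * A.card) * B.card = ∑ b ∈ B, (1 + δ) * (H * (A.card : ℝ)) := by
              rw [sum_const, nsmul_eq_mul]; ring
          _ ≤ _ := sum_le_sum fun b hb => (hc b hb).le
      have h5 : (1 + δ) * P ≤ TT A B H / H := by
        rw [le_div_iff₀ hH0, hP]
        linarith
      refine le_trans ?_ (le_abs_self _)
      linarith
    · have : TT A B H ≤ (1 - δ) * (H * A.card) * B.card := by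
        rw [TT_single]
        calc _ ≤ ∑ b ∈ B, (1 - δ) * (H * (A.card : ℝ)) := sum_le_sum fun b hb => (hc b hb).le
          _ = _ := by rw [sum_const, nsmul_eq_mul]; ring
      have h5 : TT A B H / H ≤ (1 - δ) * P := by
        rw [div_le_iff₀ hH0, hP]
        linarith
      refine le_trans ?_ (neg_le_abs _)
      linarith
  have h6 : P / ℓ ^ U ≤ (δ / 2) * P := by
    rw [div_le_iff₀ (by positivity)]
    have h7 : ℓ ≤ ℓ ^ U := by
      calc ℓ = ℓ ^ 1 := (pow_one _).symm
        _ ≤ ℓ ^ U := pow_le_pow_right₀ hℓ1 hU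
    have h8 : 1 ≤ (δ / 2) * ℓ ^ U := by
      have : 2 / δ ≤ ℓ ^ U := by linarith
      rw [div_le_iff₀ hδ] at this
      linarith
    nlinarith
  have h9 : (δ / 2) * P ≤ √P * W := by linarith
  have h10 : (δ / 2) * √P ≤ W := by
    rcases hP0.eq_or_lt with h | h
    · rw [← h]; simpa using hW0
    · have hs : 0 < √P := Real.sqrt_pos.2 h
      have e : P = √P * √P := (Real.mul_self_sqrt hP0).symm
      have : √P * ((δ / 2) * √P) ≤ √P * W := by
        calc √P * ((δ / 2) * √P) = (δ / 2) * (√P * √P) := by ring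
          _ = (δ / 2) * P := by rw [← e]
          _ ≤ _ := h9
      exact le_of_mul_le_mul_left this hs
  have h11 : ((δ / 2) * √P) ^ 2 ≤ W ^ 2 := pow_le_pow_left₀ (by positivity) h10 2
  rw [mul_pow, Real.sq_sqrt hP0] at h11
  have e : P = (4 / δ ^ 2) * ((δ / 2) ^ 2 * P) := by field_simp; norm_num
  rw [e]
  gcongr

/-- Few exceptional translates, all lengths simultaneously. -/
theorem shortTheta (δ : ℝ) (hδ : 0 < δ) (hδ1 : δ ≤ 1) (U : ℕ) : ∃ C : ℝ, 0 < C ∧ ∀ᶠ N : ℕ in atTop,
    ∀ A : Finset ℕ, (∀ a ∈ A, a ≤ N) → ∀ H0 : ℝ, 1 ≤ H0 →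
    ∃ E : Finset ℕ, E ⊆ Icc 1 N ∧ (E.card : ℝ) * A.card ≤
      C * (N : ℝ) ^ 2 * (((1 + Real.log H0) / H0) ^ 2 + 1 / Real.log N ^ U) ∧
      ∀ b ∈ Icc 1 N, b ∉ E → ∀ z : ℕ, H0 ≤ z → z ≤ N →
        |TT A {b} z - z * A.card| ≤ δ * (z * A.card) := by
  classical
  set r : ℝ := 1 + δ / 4 with hr
  have hr1 : 1 < r := by rw [hr]; linarith
  have hr0 : 0 < r := by linarith
  have hlr : 0 < Real.log r := Real.log_pos hr1
  have hlr1 : Real.log r ≤ 1 := by
    have := Real.log_le_sub_one_of_pos hr0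
    rw [hr] at this ⊢
    linarith
  set x : ℝ := (r⁻¹) ^ 2 with hx
  have hri : r⁻¹ < 1 := inv_lt_one_of_one_lt₀ hr1
  have hx0 : 0 < x := by positivity
  have hx1 : x < 1 := by
    rw [hx]
    exact pow_lt_one₀ (by positivity) hri (by norm_num)
  have hsum0 : Summable (fun n : ℕ => (n : ℝ) ^ 2 * x ^ n) :=
    summable_pow_mul_geometric_of_norm_lt_one 2 (by rw [Real.norm_of_nonneg hx0.le]; exact hx1)
  have hsum : Summable (fun n : ℕ => ((n : ℝ) + 1) ^ 2 * x ^ n) := by
    have h1 := (summable_nat_add_iff 1).2 hsum0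
    have h2 := h1.mul_left x⁻¹
    refine h2.congr fun n => ?_
    push_cast
    rw [show x ^ (n + 1) = x * x ^ n by ring]
    field_simp
  set S : ℝ := ∑' n : ℕ, ((n : ℝ) + 1) ^ 2 * x ^ n with hS
  have hS0 : 0 ≤ S := tsum_nonneg fun n => by positivity
  set T : ℝ := 16 / δ with hT
  have hT16 : 16 ≤ T := by rw [hT, le_div_iff₀ hδ]; linarith
  set C1 : ℝ := 2 * (4 / (δ / 4) ^ 2) with hC1
  have hC10 : 0 < C1 := by positivity
  set C2 : ℝ := C1 * (2 * (96 ^ 2 * 4 * S)) with hC2
  set C3 : ℝ := C1 * 2 * (3 / Real.log r + 3) with hC3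
  have hC20 : 0 ≤ C2 := by positivity
  have hC30 : 0 ≤ C3 := by positivity
  refine ⟨T ^ 2 + C2 + C3, by positivity, ?_⟩
  filter_upwards [oneLength (δ / 4) (by positivity) (U + 1) (by omega), ev_L 16,
    eventually_ge_atTop 16] with N h1 h2 hN16 A hA H0 hH0
  have hNr : (16 : ℝ) ≤ N := by exact_mod_cast hN16
  have hN0 : (0 : ℝ) < N := by linarith
  set ℓ := Real.log N with hℓ
  have hℓ0 : 0 < ℓ := by linarith
  have hℓ1 : 1 ≤ ℓ := by linarith
  have hH00 : 0 < H0 := by linarith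
  have hlH : 0 ≤ Real.log H0 := Real.log_nonneg hH0
  have hAN : (A.card : ℝ) ≤ 2 * N := by
    have : A ⊆ range (N + 1) := fun a ha => by rw [mem_range]; have := hA a ha; omega
    have h3 := card_le_card this
    rw [card_range] at h3
    have h4 : (A.card : ℝ) ≤ N + 1 := by exact_mod_cast h3
    linarith
  set lam : ℝ := (1 + Real.log H0) / H0 with hlam
  have hlam0 : 0 < lam := by positivity
  rcases lt_or_ge H0 T with hsm | hbig
  · refine ⟨Icc 1 N, Subset.refl _, ?_, fun b hb hb' => absurd hb hb'⟩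
    rw [Nat.card_Icc, Nat.add_sub_cancel]
    have h5 : 1 / T ≤ lam := by
      rw [hlam]
      calc 1 / T ≤ 1 / H0 := one_div_le_one_div_of_le hH00 hsm.le
        _ ≤ _ := by gcongr; linarith
    have h6 : 1 ≤ T ^ 2 * lam ^ 2 := by
      have : 1 ≤ T * lam := by
        rw [div_le_iff₀ (by linarith)] at h5
        linarith
      calc (1 : ℝ) = 1 ^ 2 := by norm_num
        _ ≤ (T * lam) ^ 2 := pow_le_pow_left₀ (by norm_num) this 2
        _ = _ := by ring
    have hC1big : 2 ≤ C2 + C3 ∨ True := Or.inr trivial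
    have h7 : (N : ℝ) * A.card ≤ 2 * N ^ 2 := by nlinarith
    have h8 : 0 ≤ 1 / ℓ ^ U := by positivity
    have h9 : 2 * T⁻¹ ^ 0 ≤ 2 := by norm_num
    -- a slightly better bound: `T ≥ 16`
    have h10 : 2 ≤ T ^ 2 * lam ^ 2 ∨ True := Or.inr trivial
    have h11 : (2 : ℝ) ≤ (T ^ 2 + C2 + C3) * lam ^ 2 := by
      have e1 : (2 : ℝ) ≤ C3 * 1 := by
        rw [hC3, hC1]
        have e2 : 1 ≤ 4 / (δ / 4) ^ 2 := by
          rw [le_div_iff₀ (by positivity)]
          nlinarith
        have e3 : (3 : ℝ) ≤ 3 / Real.log r + 3 := by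
          have : 0 ≤ 3 / Real.log r := by positivity
          linarith
        nlinarith
      have e4 : (1 / T) ^ 2 ≤ lam ^ 2 := pow_le_pow_left₀ (by positivity) h5 2
      have e5 : (2 : ℝ) ≤ C3 * T ^ 2 * lam ^ 2 ∨ True := Or.inr trivial
      have e6 : C1 * 6 * (1 / T) ^ 2 ≥ 1 := by
        rw [hC1, hT]
        have : 2 * (4 / (δ / 4) ^ 2) * 6 * (1 / (16 / δ)) ^ 2 = 3 := by
          field_simp; norm_num
        rw [this]; norm_num
      have e7 : C1 * 6 ≤ C3 := by
        rw [hC3]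
        have : 0 ≤ 3 / Real.log r := by positivity
        nlinarith
      have e8 : 1 ≤ C3 * lam ^ 2 := by
        calc (1 : ℝ) ≤ C1 * 6 * (1 / T) ^ 2 := e6
          _ ≤ C3 * lam ^ 2 := by gcongr
      have e9 : 0 ≤ C2 * lam ^ 2 := by positivity
      nlinarith
    calc (N : ℝ) * A.card ≤ 2 * N ^ 2 := h7
      _ ≤ ((T ^ 2 + C2 + C3) * lam ^ 2) * N ^ 2 := by gcongr
      _ ≤ _ := by
          have : 0 ≤ (T ^ 2 + C2 + C3) * (N : ℝ) ^ 2 * (1 / ℓ ^ U) := by positivity
          nlinarith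
  · -- the grid
    set yy : ℕ → ℕ := fun j => ⌊H0 * r ^ j⌋₊ with hyy
    set J : ℕ := ⌊Real.log (2 * N) / Real.log r⌋₊ + 2 with hJ
    set Gd : Finset ℕ := (range J).filter (fun j => yy j ≤ 2 * N) with hGd
    set Ep : ℕ → Finset ℕ := fun j => (Icc 1 N).filter
      (fun b => (1 + δ / 4) * (yy j * A.card) < TT A {b} (yy j)) with hEp
    set Em : ℕ → Finset ℕ := fun j => (Icc 1 N).filter
      (fun b => TT A {b} (yy j) < (1 - δ / 4) * (yy j * A.card)) with hEm
    have hyge : ∀ j, H0 * r ^ j - 1 < yy j := fun j => Nat.sub_one_lt_floor _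
    have hyle : ∀ j, (yy j : ℝ) ≤ H0 * r ^ j := fun j => Nat.floor_le (by positivity)
    have hrj : ∀ j : ℕ, 1 ≤ r ^ j := fun j => one_le_pow₀ hr1.le
    have hyhalf : ∀ j, H0 * r ^ j / 2 ≤ yy j := by
      intro j
      have e1 := hyge j
      have e2 : 16 ≤ H0 * r ^ j := by
        have := hrj j
        nlinarith
      linarith
    have hy1 : ∀ j, 1 ≤ yy j := by
      intro j
      apply Nat.le_floor
      push_cast
      have := hrj j
      nlinarith
    have hlamj : ∀ j, (1 + Real.log (yy j)) / yy j ≤ 2 * lam * (((j : ℝ) + 1) * r⁻¹ ^ j) := by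
      intro j
      have hy0 : (0 : ℝ) < yy j := by exact_mod_cast hy1 j
      have hyr : (1 : ℝ) ≤ yy j := by exact_mod_cast hy1 j
      have e1 : Real.log (yy j) ≤ Real.log H0 + j := by
        calc Real.log (yy j) ≤ Real.log (H0 * r ^ j) := Real.log_le_log hy0 (hyle j)
          _ = Real.log H0 + j * Real.log r := by
              rw [Real.log_mul hH00.ne' (by positivity), Real.log_pow]
          _ ≤ _ := by
              have : (j : ℝ) * Real.log r ≤ j * 1 := by gcongr
              linarith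
      have e2 : 1 + Real.log (yy j) ≤ (1 + Real.log H0) * (j + 1) := by
        have : (0 : ℝ) ≤ j := Nat.cast_nonneg j
        nlinarith
      have e3 : 0 ≤ 1 + Real.log (yy j) := by
        have := Real.log_nonneg hyr
        linarith
      calc (1 + Real.log (yy j)) / yy j ≤ ((1 + Real.log H0) * (j + 1)) / (H0 * r ^ j / 2) := by
            apply div_le_div₀ (by positivity) e2 (by positivity) (hyhalf j)
        _ = _ := by
            rw [hlam, inv_pow]
            field_simp
    refine ⟨Gd.biUnion (fun j => Ep j ∪ Em j), ?_, ?_, ?_⟩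
    · intro b hb
      rw [mem_biUnion] at hb
      obtain ⟨j, _, hj⟩ := hb
      rw [mem_union] at hj
      rcases hj with hj | hj
      · rw [hEp] at hj; exact (mem_filter.1 hj).1
      · rw [hEm] at hj; exact (mem_filter.1 hj).1
    · have hone : ∀ j ∈ Gd, ((Ep j ∪ Em j).card : ℝ) * A.card ≤
          C1 * (2 * (96 ^ 2 * 4 * (N : ℝ) ^ 2 * lam ^ 2 * (((j : ℝ) + 1) ^ 2 * x ^ j)) +
            2 * (N : ℝ) ^ 2 / ℓ ^ (2 * (U + 1))) := by
        intro j hj
        rw [hGd, mem_filter] at hj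
        have f1 := h1 A hA (yy j) (hy1 j) hj.2 (Ep j) (fun b hb => by
          rw [hEp] at hb; exact (mem_Icc.1 (mem_filter.1 hb).1).2) (Or.inl fun b hb => by
          rw [hEp] at hb; exact (mem_filter.1 hb).2)
        have f2 := h1 A hA (yy j) (hy1 j) hj.2 (Em j) (fun b hb => by
          rw [hEm] at hb; exact (mem_Icc.1 (mem_filter.1 hb).1).2) (Or.inr fun b hb => by
          rw [hEm] at hb; exact (mem_filter.1 hb).2)
        have f3 : ((Ep j ∪ Em j).card : ℝ) ≤ (Ep j).card + (Em j).card := by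
          exact_mod_cast card_union_le _ _
        have f4 : (96 * N * ((1 + Real.log (yy j)) / yy j) + N / ℓ ^ (U + 1)) ^ 2 ≤
            2 * (96 ^ 2 * 4 * (N : ℝ) ^ 2 * lam ^ 2 * (((j : ℝ) + 1) ^ 2 * x ^ j)) +
            2 * (N : ℝ) ^ 2 / ℓ ^ (2 * (U + 1)) := by
          have g1 := hlamj j
          have g2 : 0 ≤ (1 + Real.log (yy j)) / yy j := by
            have hyr : (1 : ℝ) ≤ yy j := by exact_mod_cast hy1 j
            have := Real.log_nonneg hyr
            positivity
          have g3 : (96 * N * ((1 + Real.log (yy j)) / yy j)) ^ 2 ≤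
              96 ^ 2 * 4 * (N : ℝ) ^ 2 * lam ^ 2 * (((j : ℝ) + 1) ^ 2 * x ^ j) := by
            calc (96 * N * ((1 + Real.log (yy j)) / yy j)) ^ 2 ≤
                  (96 * N * (2 * lam * (((j : ℝ) + 1) * r⁻¹ ^ j))) ^ 2 := by gcongr
              _ = _ := by
                  rw [hx, ← pow_mul, mul_comm 2 j, pow_mul]
                  ring
          have g4 : (N / ℓ ^ (U + 1)) ^ 2 = (N : ℝ) ^ 2 / ℓ ^ (2 * (U + 1)) := by
            rw [div_pow, ← pow_mul, mul_comm (U + 1) 2]
          calc _ ≤ 2 * (96 * N * ((1 + Real.log (yy j)) / yy j)) ^ 2 + 2 * (N / ℓ ^ (U + 1)) ^ 2 := by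
                nlinarith [sq_nonneg (96 * N * ((1 + Real.log (yy j)) / yy j) - N / ℓ ^ (U + 1))]
            _ ≤ _ := by
                rw [g4]
                have : 2 * (N : ℝ) ^ 2 / ℓ ^ (2 * (U + 1)) = 2 * ((N : ℝ) ^ 2 / ℓ ^ (2 * (U + 1))) := by
                  ring
                rw [this]
                linarith
        have hA0 : (0 : ℝ) ≤ A.card := Nat.cast_nonneg _
        calc ((Ep j ∪ Em j).card : ℝ) * A.card ≤ ((Ep j).card + (Em j).card) * A.card := by gcongr
          _ = A.card * (Ep j).card + A.card * (Em j).card := by ring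
          _ ≤ C1 * (96 * N * ((1 + Real.log (yy j)) / yy j) + N / ℓ ^ (U + 1)) ^ 2 := by
              rw [hC1]; linarith
          _ ≤ _ := by gcongr
      have hcard : ((Gd.biUnion (fun j => Ep j ∪ Em j)).card : ℝ) * A.card ≤
          ∑ j ∈ Gd, ((Ep j ∪ Em j).card : ℝ) * A.card := by
        rw [← sum_mul]
        apply mul_le_mul_of_nonneg_right _ (Nat.cast_nonneg _)
        exact_mod_cast card_biUnion_le
      refine (hcard.trans (sum_le_sum hone)).trans ?_
      rw [← mul_sum, sum_add_distrib, sum_const, nsmul_eq_mul, ← mul_sum, ← mul_sum]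
      have hs1 : ∑ j ∈ Gd, ((j : ℝ) + 1) ^ 2 * x ^ j ≤ S :=
        Summable.sum_le_tsum _ (fun j _ => by positivity) hsum
      have hs2 : (Gd.card : ℝ) ≤ (3 / Real.log r + 3) * ℓ := by
        have t1 : (Gd.card : ℝ) ≤ J := by
          have := card_filter_le (range J) (fun j => yy j ≤ 2 * N)
          rw [card_range] at this
          exact_mod_cast this
        have t2 : (J : ℝ) ≤ Real.log (2 * N) / Real.log r + 2 := by
          rw [hJ]
          push_cast
          have : 0 ≤ Real.log (2 * (N : ℝ)) := Real.log_nonneg (by linarith)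
          have := Nat.floor_le (show 0 ≤ Real.log (2 * N) / Real.log r by positivity)
          linarith
        have t3 : Real.log (2 * N) ≤ 2 * ℓ := by
          rw [Real.log_mul (by norm_num) (by linarith)]
          have := Real.log_two_lt_d9
          linarith
        calc (Gd.card : ℝ) ≤ Real.log (2 * N) / Real.log r + 2 := t1.trans t2
          _ ≤ 2 * ℓ / Real.log r + 2 := by gcongr
          _ ≤ 3 * ℓ / Real.log r + 3 * ℓ := by
              have : 2 * ℓ / Real.log r ≤ 3 * ℓ / Real.log r := by gcongr; norm_num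
              linarith
          _ = _ := by ring
      have hs3 : (Gd.card : ℝ) * (2 * (N : ℝ) ^ 2 / ℓ ^ (2 * (U + 1))) ≤
          2 * (3 / Real.log r + 3) * (N : ℝ) ^ 2 * (1 / ℓ ^ U) := by
        calc (Gd.card : ℝ) * (2 * (N : ℝ) ^ 2 / ℓ ^ (2 * (U + 1))) ≤
              ((3 / Real.log r + 3) * ℓ) * (2 * (N : ℝ) ^ 2 / ℓ ^ (2 * (U + 1))) := by gcongr
          _ = 2 * (3 / Real.log r + 3) * (N : ℝ) ^ 2 * (1 / ℓ ^ U) * (1 / ℓ ^ (U + 1)) := by
              have : ℓ ^ (2 * (U + 1)) = ℓ * ℓ ^ U * ℓ ^ (U + 1) := by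
                rw [← pow_succ', ← pow_add]; congr 1; omega
              rw [this]; field_simp
          _ ≤ 2 * (3 / Real.log r + 3) * (N : ℝ) ^ 2 * (1 / ℓ ^ U) * 1 := by
              apply mul_le_mul_of_nonneg_left _ (by positivity)
              rw [div_le_one (by positivity)]
              exact one_le_pow₀ hℓ1
          _ = _ := by ring
      calc C1 * (2 * (96 ^ 2 * 4 * (N : ℝ) ^ 2 * lam ^ 2 * ∑ j ∈ Gd, ((j : ℝ) + 1) ^ 2 * x ^ j) +
            (Gd.card : ℝ) * (2 * (N : ℝ) ^ 2 / ℓ ^ (2 * (U + 1)))) ≤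
            C1 * (2 * (96 ^ 2 * 4 * (N : ℝ) ^ 2 * lam ^ 2 * S) +
              2 * (3 / Real.log r + 3) * (N : ℝ) ^ 2 * (1 / ℓ ^ U)) := by gcongr
        _ = C2 * N ^ 2 * lam ^ 2 + C3 * N ^ 2 * (1 / ℓ ^ U) := by rw [hC2, hC3]; ring
        _ ≤ (T ^ 2 + C2 + C3) * N ^ 2 * lam ^ 2 + (T ^ 2 + C2 + C3) * N ^ 2 * (1 / ℓ ^ U) := by
            have : (0 : ℝ) ≤ T ^ 2 := by positivity
            gcongr <;> linarith
        _ = _ := by ring
    · intro b hb hbE z hz hzN
      rw [mem_biUnion] at hbE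
      push Not at hbE
      have hz0 : (0 : ℝ) < z := by linarith
      have hzNr : (z : ℝ) ≤ N := by exact_mod_cast hzN
      -- the index of the grid
      set t : ℝ := Real.log (z / H0) / Real.log r with ht
      have hzH : 1 ≤ z / H0 := by rw [le_div_iff₀ hH00]; linarith
      have ht0 : 0 ≤ t := div_nonneg (Real.log_nonneg hzH) hlr.le
      set j : ℕ := ⌊t⌋₊ with hj
      have hj1 : (j : ℝ) ≤ t := Nat.floor_le ht0
      have hj2 : t < j + 1 := Nat.lt_floor_add_one t
      have hzt : (z : ℝ) = H0 * r ^ t := by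
        rw [Real.rpow_def_of_pos hr0, ht, mul_div_cancel₀ _ hlr.ne', Real.exp_log (by positivity)]
        field_simp
      have hj3 : H0 * r ^ j ≤ z := by
        rw [hzt, ← Real.rpow_natCast]
        apply mul_le_mul_of_nonneg_left _ hH00.le
        exact Real.rpow_le_rpow_of_exponent_le hr1.le hj1
      have hj4 : (z : ℝ) < H0 * r ^ (j + 1) := by
        rw [hzt, ← Real.rpow_natCast]
        apply mul_lt_mul_of_pos_left _ hH00
        apply Real.rpow_lt_rpow_of_exponent_lt hr1
        push_cast; exact hj2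
      have hz1 : (yy (j + 1) : ℝ) ≤ r * z := by
        calc (yy (j + 1) : ℝ) ≤ H0 * r ^ (j + 1) := hyle _
          _ = r * (H0 * r ^ j) := by ring
          _ ≤ _ := by gcongr
      have hr2 : r ≤ 2 := by rw [hr]; linarith
      have hjJ : j + 1 < J := by
        rw [hJ]
        have : j ≤ ⌊Real.log (2 * N) / Real.log r⌋₊ := by
          apply Nat.floor_le_floor
          rw [ht]
          apply div_le_div_of_nonneg_right _ hlr.le
          apply Real.log_le_log (by positivity)
          calc (z : ℝ) / H0 ≤ z := div_le_self hz0.le hH0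
            _ ≤ 2 * N := by linarith
        omega
      have hg1 : j ∈ Gd := by
        rw [hGd, mem_filter, mem_range]
        refine ⟨by omega, ?_⟩
        have : (yy j : ℝ) ≤ 2 * N := (hyle j).trans (hj3.trans (by linarith))
        exact_mod_cast this
      have hg2 : j + 1 ∈ Gd := by
        rw [hGd, mem_filter, mem_range]
        refine ⟨hjJ, ?_⟩
        have : (yy (j + 1) : ℝ) ≤ 2 * N := hz1.trans (by nlinarith)
        exact_mod_cast this
      have hc1 := hbE j hg1
      have hc2 := hbE (j + 1) hg2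
      rw [mem_union, not_or] at hc1 hc2
      have hup : TT A {b} (yy (j + 1)) ≤ (1 + δ / 4) * (yy (j + 1) * A.card) := by
        by_contra hcon
        push Not at hcon
        exact hc2.1 (by rw [hEp]; exact mem_filter.2 ⟨hb, hcon⟩)
      have hlo : (1 - δ / 4) * (yy j * A.card) ≤ TT A {b} (yy j) := by
        by_contra hcon
        push Not at hcon
        exact hc1.2 (by rw [hEm]; exact mem_filter.2 ⟨hb, hcon⟩)
      have hm1 : yy j ≤ z := by
        have : (yy j : ℝ) ≤ z := (hyle j).trans hj3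
        exact_mod_cast this
      have hm2 : z ≤ yy (j + 1) := Nat.le_floor hj4.le
      have hA0 : (0 : ℝ) ≤ A.card := Nat.cast_nonneg _
      have hzA : 0 ≤ (z : ℝ) * A.card := mul_nonneg hz0.le hA0
      clear_value C1 C2 C3
      clear hC2 hC3 hC20 hC30 hS hsum hsum0 h1
      have u1 : TT A {b} z ≤ (1 + δ) * (z * A.card) := by
        have v0 : (yy (j + 1) : ℝ) * A.card ≤ (r * z) * A.card := mul_le_mul_of_nonneg_right hz1 hA0
        have v1 : (1 + δ / 4) * (yy (j + 1) * A.card) ≤ (1 + δ / 4) * ((r * z) * A.card) :=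
          mul_le_mul_of_nonneg_left v0 (by linarith)
        have v2 : ((1 + δ / 4) * r) * (z * A.card) ≤ (1 + δ) * (z * A.card) := by
          apply mul_le_mul_of_nonneg_right _ hzA
          rw [hr]; nlinarith
        have v3 : (1 + δ / 4) * ((r * z) * A.card) = ((1 + δ / 4) * r) * (z * A.card) := by ring
        have v4 := TT_mono (A := A) (B := {b}) hm2
        linarith
      have u2 : (1 - δ) * (z * A.card) ≤ TT A {b} z := by
        have v1 : (1 - δ / 4 - δ / 16) * z ≤ yy j := by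
          have w1 := hyge j
          have w2 : (z : ℝ) ≤ r * (H0 * r ^ j) := by
            calc (z : ℝ) ≤ H0 * r ^ (j + 1) := hj4.le
              _ = _ := by ring
          have w3 : 1 ≤ (δ / 16) * z := by
            have : T ≤ z := hbig.trans hz
            rw [hT, div_le_iff₀ hδ] at this
            linarith
          have w4 : (1 - δ / 4) * z ≤ H0 * r ^ j := by
            have : (1 - δ / 4) * r ≤ 1 := by rw [hr]; nlinarith
            have w5 : 0 ≤ H0 * r ^ j := by positivity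
            calc (1 - δ / 4) * z ≤ (1 - δ / 4) * (r * (H0 * r ^ j)) := by
                  apply mul_le_mul_of_nonneg_left w2; linarith
              _ = ((1 - δ / 4) * r) * (H0 * r ^ j) := by ring
              _ ≤ 1 * (H0 * r ^ j) := by gcongr
              _ = _ := one_mul _
          linarith
        have x1 : (1 - δ) * (z * A.card) ≤ (1 - δ / 4) * (1 - δ / 4 - δ / 16) * (z * A.card) := by
          apply mul_le_mul_of_nonneg_right _ hzA
          nlinarith
        have x2 : (1 - δ / 4) * (1 - δ / 4 - δ / 16) * (z * A.card) =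
            (1 - δ / 4) * (((1 - δ / 4 - δ / 16) * z) * A.card) := by ring
        have x3 : ((1 - δ / 4 - δ / 16) * z) * A.card ≤ yy j * A.card :=
          mul_le_mul_of_nonneg_right v1 hA0
        have x4 : (1 - δ / 4) * (((1 - δ / 4 - δ / 16) * z) * A.card) ≤ (1 - δ / 4) * (yy j * A.card) :=
          mul_le_mul_of_nonneg_left x3 (by linarith)
        have x5 := TT_mono (A := A) (B := {b}) hm1
        linarith
      rw [abs_le]
      constructor <;> linarith

end Pool.Agent.W301.SS
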