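import Mathlib
import Pool.Agent.W301.SS.Short
import Pool.Agent.W301.SS.Avg

/-! Averages of the normalised number of primes in short intervals over translates: all lengths. -/

set_option autoImplicit false

namespace Pool.Agent.W301.SS
open Finset Filter

lemma cs_TT (A : Finset ℕ) (N b y : ℕ) (hA : ∀ a ∈ A, a ≤ N) (hb : b ≤ N) (hy : y ≤ 2 * N) (δ : ℝ)
    (hδ : 0 < δ) (hδ1 : δ ≤ 1 / 8) (hlog : Real.log ((4 * N : ℕ) : ℝ) ≤ (1 + δ / 4) * Real.log N)
    (hbN : (N : ℝ) ^ (1 - δ / 4) ≤ b) (hN : 1 ≤ N)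
    (hT : |TT A {b} y - y * A.card| ≤ (δ / 4) * (y * A.card)) :
    (1 - δ) * ((A.card : ℝ) * y) ≤ cs A b y * Real.log N ∧
      cs A b y * Real.log N ≤ (1 + δ) * ((A.card : ℝ) * y) := by
  have hNr : (1 : ℝ) ≤ N := by exact_mod_cast hN
  have hN0 : (0 : ℝ) < N := by linarith
  have hℓ0 : 0 ≤ Real.log N := Real.log_nonneg hNr
  have hyA : 0 ≤ (y : ℝ) * A.card := by positivity
  have hcs : PCs A {b} y = cs A b y := by
    unfold PCs cs
    simp_rw [sum_singleton]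
  have h1 := conv_low (A := A) (B := {b}) (N := N) (y := y) hA (by simpa using hb) hy _ le_rfl
  rw [hcs] at h1
  have hcs0 : 0 ≤ cs A b y := by unfold cs; exact sum_nonneg fun _ _ => Nat.cast_nonneg _
  have h2 : (1 - δ / 4) * Real.log N * cs A b y ≤ TT A {b} y := by
    unfold TT cs
    simp_rw [sum_singleton]
    rw [mul_sum]
    apply sum_le_sum
    intro a ha
    rw [pn_eq, mul_sum]
    apply sum_le_sum
    intro h hh
    unfold om
    split_ifs with hp
    · rw [mul_one, ← Real.log_rpow hN0]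
      apply Real.log_le_log (by positivity)
      refine hbN.trans ?_
      exact_mod_cast (by omega : b ≤ a + b + h)
    · rw [mul_zero]
  rw [abs_le] at hT
  obtain ⟨t1, t2⟩ := hT
  have h3 : TT A {b} y ≤ (1 + δ / 4) * (cs A b y * Real.log N) := by
    refine h1.trans ?_
    calc _ ≤ ((1 + δ / 4) * Real.log N) * cs A b y := mul_le_mul_of_nonneg_right hlog hcs0
      _ = _ := by ring
  constructor
  · have h4 : (1 - δ / 4) * (y * A.card) ≤ (1 + δ / 4) * (cs A b y * Real.log N) := by linarith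
    have h5 : (1 + δ / 4) * ((1 - δ) * ((A.card : ℝ) * y)) ≤ (1 + δ / 4) * (cs A b y * Real.log N) := by
      refine le_trans ?_ h4
      have : (1 + δ / 4) * ((1 - δ) * ((A.card : ℝ) * y)) = ((1 + δ / 4) * (1 - δ)) * (y * A.card) := by
        ring
      rw [this]
      apply mul_le_mul_of_nonneg_right _ hyA
      nlinarith
    exact le_of_mul_le_mul_left h5 (by linarith)
  · have h4 : (1 - δ / 4) * (cs A b y * Real.log N) ≤ (1 + δ / 4) * (y * A.card) := by
      have : (1 - δ / 4) * (cs A b y * Real.log N) = (1 - δ / 4) * Real.log N * cs A b y := by ring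
      linarith
    have h5 : (1 - δ / 4) * (cs A b y * Real.log N) ≤ (1 - δ / 4) * ((1 + δ) * ((A.card : ℝ) * y)) := by
      refine h4.trans ?_
      have : (1 - δ / 4) * ((1 + δ) * ((A.card : ℝ) * y)) = ((1 - δ / 4) * (1 + δ)) * (y * A.card) := by
        ring
      rw [this]
      apply mul_le_mul_of_nonneg_right _ hyA
      nlinarith
    exact le_of_mul_le_mul_left h5 (by linarith)

/-- **Averages over translates, all lengths.** -/
theorem shortAvg (ε : ℝ) (hε : 0 < ε) (hε1 : ε ≤ 1) (U : ℕ) : ∃ C : ℝ, 0 < C ∧ ∀ᶠ N : ℕ in atTop,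
    ∀ A : Finset ℕ, (∀ a ∈ A, a ≤ N) → A.Nonempty → ∀ H0 : ℝ, 1 ≤ H0 →
    ∃ E : Finset ℕ, E ⊆ Icc 1 N ∧ (E.card : ℝ) * A.card ≤
      C * (N : ℝ) ^ 2 * (((1 + Real.log H0) / H0) ^ 2 + 1 / Real.log N ^ U) ∧
      ∀ b ∈ Icc 1 N, b ∉ E → (N : ℝ) ^ (1 - ε / 32) ≤ b ∧ ∀ Y : ℝ, H0 ≤ Y → Y ≤ N →
        ∀ y : ℕ → ℝ, (∀ a ∈ A, (1 - ε / 8) * Y ≤ y a ∧ y a ≤ Y) →
        |(∑ a ∈ A, ((Nat.primeCounting ⌊((a + b : ℕ) : ℝ) + y a⌋₊ : ℝ) - Nat.primeCounting (a + b)) /
          (y a / Real.log ((a + b : ℕ) : ℝ))) / A.card - 1| ≤ ε := by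
  classical
  set δ : ℝ := ε / 8 with hδ
  have hδ0 : 0 < δ := by positivity
  have hδ1 : δ ≤ 1 / 8 := by rw [hδ]; linarith
  have hδ4 : ε / 32 = δ / 4 := by rw [hδ]; ring
  obtain ⟨C, hC, hK⟩ := shortTheta (δ / 4) (by positivity) (by linarith) U
  set T : ℝ := 8 / δ with hT
  have hT64 : 64 ≤ T := by rw [hT, le_div_iff₀ hδ0]; linarith
  refine ⟨2 * T ^ 2 + 16 * C + 2, by positivity, ?_⟩
  filter_upwards [hK, ev_L (2 / δ + 4), ev_log U 1 (δ / 4) (by positivity),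
    ev_conv (δ / 4) (by positivity) (by linarith), eventually_ge_atTop 16] with
    N h1 h2 h3 h4 hN16 A hA hAne H0 hH0
  have hNr : (16 : ℝ) ≤ N := by exact_mod_cast hN16
  have hN0 : (0 : ℝ) < N := by linarith
  have hN1 : (1 : ℝ) ≤ N := by linarith
  set ℓ := Real.log N with hℓ
  have hd1 : 0 < 2 / δ := by positivity
  have hℓ4 : 4 ≤ ℓ := by linarith
  have hℓ0 : 0 < ℓ := by linarith
  have hA0 : (0 : ℝ) < A.card := by exact_mod_cast hAne.card_pos
  have hH00 : 0 < H0 := by linarith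
  have hlH : 0 ≤ Real.log H0 := Real.log_nonneg hH0
  have hAN : (A.card : ℝ) ≤ 2 * N := by
    have : A ⊆ range (N + 1) := fun a ha => by rw [mem_range]; have := hA a ha; omega
    have h3 := card_le_card this
    rw [card_range] at h3
    have h4 : (A.card : ℝ) ≤ N + 1 := by exact_mod_cast h3
    linarith
  set lam : ℝ := (1 + Real.log H0) / H0 with hlam
  have hlam0 : 0 < lam := by positivity
  have hℓU : 0 < 1 / ℓ ^ U := by positivity
  rcases lt_or_ge H0 T with hsm | hbig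
  · refine ⟨Icc 1 N, Subset.refl _, ?_, fun b hb hb' => absurd hb hb'⟩
    rw [Nat.card_Icc, Nat.add_sub_cancel]
    have h5 : 1 / T ≤ lam := by
      rw [hlam]
      calc 1 / T ≤ 1 / H0 := one_div_le_one_div_of_le hH00 hsm.le
        _ ≤ _ := by gcongr; linarith
    have h6 : 1 ≤ T ^ 2 * lam ^ 2 := by
      have : 1 ≤ T * lam := by
        rw [div_le_iff₀ (by linarith)] at h5
        linarith
      calc (1 : ℝ) = 1 ^ 2 := by norm_num
        _ ≤ (T * lam) ^ 2 := pow_le_pow_left₀ (by norm_num) this 2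
        _ = _ := by ring
    have h7 : (N : ℝ) * A.card ≤ 2 * N ^ 2 := by nlinarith
    have hN2 : 0 < (N : ℝ) ^ 2 := by positivity
    calc (N : ℝ) * A.card ≤ 2 * N ^ 2 := h7
      _ ≤ 2 * N ^ 2 * (T ^ 2 * lam ^ 2) := by nlinarith
      _ = (2 * T ^ 2) * N ^ 2 * lam ^ 2 := by ring
      _ ≤ (2 * T ^ 2 + 16 * C + 2) * N ^ 2 * (lam ^ 2 + 1 / ℓ ^ U) := by
          apply mul_le_mul _ (by linarith) (by positivity) (by positivity)
          apply mul_le_mul_of_nonneg_right _ hN2.le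
          linarith
  have hH04 : 1 ≤ H0 / 4 := by linarith
  obtain ⟨E, hE1, hE2, hE3⟩ := h1 A hA (H0 / 4) hH04
  set E' : Finset ℕ := E ∪ (Icc 1 N).filter (fun b : ℕ => ((b : ℕ) : ℝ) < (N : ℝ) ^ (1 - δ / 4)) with hE'
  refine ⟨E', union_subset hE1 (filter_subset _ _), ?_, ?_⟩
  · have a1 : (E'.card : ℝ) ≤ E.card + ((Icc 1 N).filter (fun b : ℕ => ((b : ℕ) : ℝ) < (N : ℝ) ^ (1 - δ / 4))).card := by
      exact_mod_cast card_union_le _ _
    have a2 : (((Icc 1 N).filter (fun b : ℕ => ((b : ℕ) : ℝ) < (N : ℝ) ^ (1 - δ / 4))).card : ℝ) ≤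
        (N : ℝ) ^ (1 - δ / 4) := by
      have a3 : (Icc 1 N).filter (fun b : ℕ => ((b : ℕ) : ℝ) < (N : ℝ) ^ (1 - δ / 4)) ⊆
          Icc 1 ⌊(N : ℝ) ^ (1 - δ / 4)⌋₊ := by
        intro b hb
        rw [mem_filter, mem_Icc] at hb
        rw [mem_Icc]
        exact ⟨hb.1.1, Nat.le_floor hb.2.le⟩
      have a4 := card_le_card a3
      rw [Nat.card_Icc] at a4
      have a5 : ((((Icc 1 N).filter (fun b : ℕ => ((b : ℕ) : ℝ) < (N : ℝ) ^ (1 - δ / 4))).card : ℕ) : ℝ) ≤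
          ((⌊(N : ℝ) ^ (1 - δ / 4)⌋₊ : ℕ) : ℝ) := by
        exact_mod_cast (by omega : _ ≤ ⌊(N : ℝ) ^ (1 - δ / 4)⌋₊)
      exact a5.trans (Nat.floor_le (by positivity))
    have a3 : (N : ℝ) ^ (1 - δ / 4) * A.card ≤ 2 * N ^ 2 * (1 / ℓ ^ U) := by
      have b1 : (N : ℝ) ^ (1 - δ / 4) ≤ N * (1 / ℓ ^ U) := by
        rw [mul_one_div, le_div_iff₀ (by positivity)]
        calc (N : ℝ) ^ (1 - δ / 4) * ℓ ^ U ≤ (N : ℝ) ^ (1 - δ / 4) * (N : ℝ) ^ (δ / 4) := by
              apply mul_le_mul_of_nonneg_left _ (by positivity)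
              linarith
          _ = N := by rw [← Real.rpow_add hN0]; norm_num
      calc (N : ℝ) ^ (1 - δ / 4) * A.card ≤ (N * (1 / ℓ ^ U)) * (2 * N) := by gcongr
        _ = _ := by ring
    have a4 : ((1 + Real.log (H0 / 4)) / (H0 / 4)) ^ 2 ≤ 16 * lam ^ 2 := by
      have b1 : Real.log (H0 / 4) ≤ Real.log H0 := Real.log_le_log (by positivity) (by linarith)
      have b2 : 0 ≤ Real.log (H0 / 4) := Real.log_nonneg hH04
      calc ((1 + Real.log (H0 / 4)) / (H0 / 4)) ^ 2 ≤ ((1 + Real.log H0) / (H0 / 4)) ^ 2 := by gcongr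
        _ = _ := by rw [hlam]; field_simp; norm_num
    calc (E'.card : ℝ) * A.card ≤ (E.card + (N : ℝ) ^ (1 - δ / 4)) * A.card := by gcongr; linarith
      _ = E.card * A.card + (N : ℝ) ^ (1 - δ / 4) * A.card := by ring
      _ ≤ C * (N : ℝ) ^ 2 * (16 * lam ^ 2 + 1 / ℓ ^ U) + 2 * N ^ 2 * (1 / ℓ ^ U) := by
          refine add_le_add (hE2.trans ?_) a3
          gcongr
      _ ≤ (2 * T ^ 2 + 16 * C + 2) * (N : ℝ) ^ 2 * (lam ^ 2 + 1 / ℓ ^ U) := by
          have b1 : 0 ≤ 2 * T ^ 2 * (N : ℝ) ^ 2 * (lam ^ 2 + 1 / ℓ ^ U) := by positivity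
          have b2 : 0 ≤ 15 * C * (N : ℝ) ^ 2 * (1 / ℓ ^ U) := by positivity
          have b3 : 0 ≤ 2 * (N : ℝ) ^ 2 * lam ^ 2 := by positivity
          nlinarith
  · intro b hb hbE
    rw [hE', mem_union, mem_filter] at hbE
    push Not at hbE
    obtain ⟨hbE1, hbE2⟩ := hbE
    have hbN4 := hbE2 hb
    have hbmem := hb
    rw [mem_Icc] at hb
    have hbr : (b : ℝ) ≤ N := by exact_mod_cast hb.2
    have hbN : (N : ℝ) ^ (1 - δ) ≤ b := by
      refine le_trans ?_ hbN4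
      exact Real.rpow_le_rpow_of_exponent_le hN1 (by linarith)
    rw [hδ4]
    refine ⟨hbN4, ?_⟩
    intro Y hY1 hY2 y hy
    have hYT : T ≤ Y := hbig.trans hY1
    have hY0 : 0 < Y := by linarith
    set f1 : ℕ := ⌊(1 - δ) * Y⌋₊ with hf1
    set f2 : ℕ := ⌊Y⌋₊ with hf2
    have hf2N : f2 ≤ N := by
      have : (f2 : ℝ) ≤ N := (Nat.floor_le hY0.le).trans hY2
      exact_mod_cast this
    have hf12 : f1 ≤ f2 := Nat.floor_mono (by nlinarith)
    have hf1lo : (1 - 2 * δ) * Y ≤ f1 := by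
      have a1 := Nat.lt_floor_add_one ((1 - δ) * Y)
      rw [← hf1] at a1
      have a2 : 1 ≤ δ * Y := by
        rw [hT, div_le_iff₀ hδ0] at hYT
        linarith
      linarith
    have hf2hi : (f2 : ℝ) ≤ Y := Nat.floor_le hY0.le
    have hf1K : H0 / 4 ≤ f1 := by
      refine le_trans ?_ hf1lo
      nlinarith
    have hf1r : (f1 : ℝ) ≤ f2 := by exact_mod_cast hf12
    have G := fun (z : ℕ) (hz1 : H0 / 4 ≤ z) (hz2 : z ≤ N) =>
      cs_TT A N b z hA hb.2 (by omega) δ hδ0 hδ1 h4.1 hbN4 (by omega)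
        (hE3 b hbmem hbE1 z hz1 hz2)
    obtain ⟨b1, _⟩ := G f1 hf1K (hf12.trans hf2N)
    obtain ⟨_, b2⟩ := G f2 (hf1K.trans hf1r) hf2N
    -- logarithms
    have hlog : ∀ a ∈ A, (1 - δ) * ℓ ≤ Real.log ((a + b : ℕ) : ℝ) ∧
        Real.log ((a + b : ℕ) : ℝ) ≤ (1 + δ) * ℓ := by
      intro a ha
      have ha1 : (a : ℝ) ≤ N := by exact_mod_cast hA a ha
      have ha0 : (0 : ℝ) ≤ a := Nat.cast_nonneg a
      constructor
      · rw [← Real.log_rpow hN0]
        apply Real.log_le_log (by positivity)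
        push_cast; linarith
      · have hab : ((a + b : ℕ) : ℝ) ≤ 2 * N := by push_cast; linarith
        have hab0 : (0 : ℝ) < ((a + b : ℕ) : ℝ) := by
          exact_mod_cast (by omega : 0 < a + b)
        have a1 := Real.log_le_log hab0 hab
        rw [Real.log_mul (by norm_num) hN0.ne'] at a1
        have a2 := Real.log_two_lt_d9
        have a3 : 1 ≤ δ * ℓ := by
          have : 2 / δ ≤ ℓ := by linarith
          rw [div_le_iff₀ hδ0] at this
          linarith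
        linarith
    have hd : 0 < 1 - δ := by linarith
    -- termwise bounds
    have hterm : ∀ a ∈ A, ((1 - δ) * ℓ / Y) * (pn (a + b) f1 : ℝ) ≤
        ((Nat.primeCounting ⌊((a + b : ℕ) : ℝ) + y a⌋₊ : ℝ) - Nat.primeCounting (a + b)) /
          (y a / Real.log ((a + b : ℕ) : ℝ)) ∧
        ((Nat.primeCounting ⌊((a + b : ℕ) : ℝ) + y a⌋₊ : ℝ) - Nat.primeCounting (a + b)) /
          (y a / Real.log ((a + b : ℕ) : ℝ)) ≤ ((1 + δ) * ℓ / ((1 - δ) * Y)) * (pn (a + b) f2 : ℝ) := by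
      intro a ha
      obtain ⟨y1, y2⟩ := hy a ha
      obtain ⟨l1, l2⟩ := hlog a ha
      have hya : 0 < y a := lt_of_lt_of_le (by positivity) y1
      have hl0 : 0 < Real.log ((a + b : ℕ) : ℝ) := lt_of_lt_of_le (by positivity) l1
      rw [pn_floor (a + b) (y a) hya.le]
      have m1 : (pn (a + b) f1 : ℝ) ≤ pn (a + b) ⌊y a⌋₊ := by
        exact_mod_cast pn_mono (Nat.floor_mono y1)
      have m2 : (pn (a + b) ⌊y a⌋₊ : ℝ) ≤ pn (a + b) f2 := by
        exact_mod_cast pn_mono (Nat.floor_mono y2)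
      have e : (pn (a + b) ⌊y a⌋₊ : ℝ) / (y a / Real.log ((a + b : ℕ) : ℝ)) =
          (Real.log ((a + b : ℕ) : ℝ) / y a) * (pn (a + b) ⌊y a⌋₊ : ℝ) := by
        field_simp
      rw [e]
      have p1 : (0 : ℝ) ≤ pn (a + b) f1 := Nat.cast_nonneg _
      have p2 : (0 : ℝ) ≤ pn (a + b) ⌊y a⌋₊ := Nat.cast_nonneg _
      constructor
      · apply mul_le_mul _ m1 p1 (by positivity)
        apply div_le_div₀ hl0.le l1 hya y2
      · apply mul_le_mul _ m2 p2 (by positivity)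
        apply div_le_div₀ (by positivity) l2 (by positivity) y1
    have hlow : ((1 - δ) * ℓ / Y) * cs A b f1 ≤ ∑ a ∈ A,
        ((Nat.primeCounting ⌊((a + b : ℕ) : ℝ) + y a⌋₊ : ℝ) - Nat.primeCounting (a + b)) /
          (y a / Real.log ((a + b : ℕ) : ℝ)) := by
      unfold cs
      rw [mul_sum]
      exact sum_le_sum fun a ha => (hterm a ha).1
    have hupp : ∑ a ∈ A,
        ((Nat.primeCounting ⌊((a + b : ℕ) : ℝ) + y a⌋₊ : ℝ) - Nat.primeCounting (a + b)) /
          (y a / Real.log ((a + b : ℕ) : ℝ)) ≤ ((1 + δ) * ℓ / ((1 - δ) * Y)) * cs A b f2 := by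
      unfold cs
      rw [mul_sum]
      exact sum_le_sum fun a ha => (hterm a ha).2
    have c1 : (1 - ε) * A.card ≤ ((1 - δ) * ℓ / Y) * cs A b f1 := by
      have e : ((1 - δ) * ℓ / Y) * cs A b f1 = ((1 - δ) / Y) * (cs A b f1 * ℓ) := by ring
      rw [e]
      calc (1 - ε) * (A.card : ℝ) ≤ ((1 - δ) * (1 - δ) * (1 - 2 * δ)) * A.card := by
            apply mul_le_mul_of_nonneg_right _ hA0.le
            have : ε = 8 * δ := by rw [hδ]; ring
            rw [this]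
            nlinarith [mul_nonneg hδ0.le hδ0.le, mul_nonneg (mul_nonneg hδ0.le hδ0.le) hδ0.le]
        _ = ((1 - δ) / Y) * ((1 - δ) * ((A.card : ℝ) * ((1 - 2 * δ) * Y))) := by
            field_simp
        _ ≤ ((1 - δ) / Y) * ((1 - δ) * ((A.card : ℝ) * f1)) := by gcongr
        _ ≤ _ := by gcongr
    have c2 : ((1 + δ) * ℓ / ((1 - δ) * Y)) * cs A b f2 ≤ (1 + ε) * A.card := by
      have e : ((1 + δ) * ℓ / ((1 - δ) * Y)) * cs A b f2 =
          ((1 + δ) / ((1 - δ) * Y)) * (cs A b f2 * ℓ) := by ring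
      rw [e]
      calc ((1 + δ) / ((1 - δ) * Y)) * (cs A b f2 * ℓ) ≤
            ((1 + δ) / ((1 - δ) * Y)) * ((1 + δ) * ((A.card : ℝ) * f2)) := by gcongr
        _ ≤ ((1 + δ) / ((1 - δ) * Y)) * ((1 + δ) * ((A.card : ℝ) * Y)) := by gcongr
        _ = ((1 + δ) * (1 + δ) / (1 - δ)) * A.card := by field_simp
        _ ≤ _ := by
            apply mul_le_mul_of_nonneg_right _ hA0.le
            rw [div_le_iff₀ hd]
            have : ε = 8 * δ := by rw [hδ]; ring
            rw [this]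
            nlinarith
    rw [abs_le]
    constructor
    · rw [le_sub_iff_add_le, le_div_iff₀ hA0]
      have := c1.trans hlow
      linarith
    · rw [sub_le_iff_le_add, div_le_iff₀ hA0]
      have := hupp.trans c2
      linarith

end Pool.Agent.W301.SS
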