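import Mathlib
import Pool.Agent.W301.SS.Cram
import Pool.Agent.H197R2.PG3
import Pool.Agent.H197R2.PG2

/-! The second moment of the number of primes in short intervals, and a positive proportion of the
points of most translates. -/

set_option autoImplicit false

namespace Pool.Agent.W301.SS
open Finset Filter
open Pool.Agent.H197R2.PG

lemma gg_sum : ∃ C : ℝ, 1 ≤ C ∧ ∀ H : ℕ, ∑ h ∈ Icc 1 H, gg (2 * h) ≤ C * H := by
  obtain ⟨C, hC, h⟩ := euler_le
  have hl : 1 ≤ Real.log 3 := by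
    have h1 : Real.exp 1 ≤ 3 := by linarith [Real.exp_one_lt_d9]
    have := Real.log_le_log (Real.exp_pos 1) h1
    rwa [Real.log_exp] at this
  have hCl : 1 ≤ C * Real.log 3 := by nlinarith
  refine ⟨2 * (C * Real.log 3) ^ 3, ?_, fun H => ?_⟩
  · have := one_le_pow₀ (n := 3) hCl
    linarith
  · have h1 := moment_le 3 (2 * H)
    have h2 := h 3 (2 * H) le_rfl
    have h3 : ∑ h ∈ Icc 1 H, gg (2 * h) ≤ ∑ h ∈ Icc 1 (2 * H), gg h ^ 3 := by
      have e : ∑ h ∈ Icc 1 H, gg (2 * h) = ∑ h ∈ (Icc 1 H).image (fun h => 2 * h), gg h := by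
        rw [sum_image]
        intro a _ b _ hab
        beta_reduce at hab
        omega
      rw [e]
      calc ∑ h ∈ (Icc 1 H).image (fun h => 2 * h), gg h ≤
            ∑ h ∈ (Icc 1 H).image (fun h => 2 * h), gg h ^ 3 := by
              apply sum_le_sum
              intro h _
              have := one_le_gg h
              calc gg h = gg h ^ 1 := (pow_one _).symm
                _ ≤ gg h ^ 3 := pow_le_pow_right₀ this (by norm_num)
        _ ≤ _ := by
              apply sum_le_sum_of_subset_of_nonneg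
              · intro k hk
                rw [mem_image] at hk
                obtain ⟨h, hh, rfl⟩ := hk
                rw [mem_Icc] at hh ⊢
                omega
              · intro h _ _
                have := one_le_gg h
                positivity
    refine h3.trans (h1.trans ?_)
    push_cast at h2 ⊢
    calc (2 * (H : ℝ)) * ∏ p ∈ PY (2 * H), (1 + wt 3 p / p) ≤ (2 * (H : ℝ)) * (C * Real.log 3) ^ 3 := by
          gcongr
      _ = _ := by ring

/-- the second moment -/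
theorem secondMoment : ∃ C : ℝ, 1 ≤ C ∧ ∀ᶠ N : ℕ in atTop, ∀ H : ℕ, 1 ≤ H →
    (H : ℝ) ≤ Real.log N ^ 3 →
    ∑ x ∈ range (2 * N + 1), (pn x H : ℝ) ^ 2 ≤
      C * N * (H / Real.log N + H ^ 2 / Real.log N ^ 2) := by
  obtain ⟨C1, hC1, u0, hps⟩ := pair_sieve_sharp
  obtain ⟨C2, hC2, hgs⟩ := gg_sum
  have hpi := Chebyshev.eventually_primeCounting_le (show (0 : ℝ) < 1 by norm_num)
  obtain ⟨x0, hx0⟩ := eventually_atTop.1 hpi
  refine ⟨9 + 6 * C1 * C2, by nlinarith, ?_⟩
  filter_upwards [ev_L 2, ev_log 3 1 1 (by norm_num), ev_log 3 2 (1 / 16) (by norm_num),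
    eventually_ge_atTop 16, eventually_ge_atTop ⌈x0⌉₊, eventually_ge_atTop u0] with
    N h1 h2 h3 hN16 hNx0 hNu0 H hH hHK
  have hNr : (16 : ℝ) ≤ N := by exact_mod_cast hN16
  have hN0 : (0 : ℝ) < N := by linarith
  set ℓ := Real.log N with hℓ
  have hℓ0 : 0 < ℓ := by linarith
  rw [Real.rpow_one, one_mul] at h2
  have hHN : (H : ℝ) ≤ N := hHK.trans h2
  have hHNn : H ≤ N := by exact_mod_cast hHN
  have hH0 : (0 : ℝ) < H := by exact_mod_cast hH
  set u : ℕ := 2 * N + H with hu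
  have huN : (N : ℝ) ≤ u := by rw [hu]; push_cast; linarith
  have hu3 : (u : ℝ) ≤ 3 * N := by rw [hu]; push_cast; linarith
  have hlu : ℓ ≤ Real.log u := Real.log_le_log hN0 huN
  have hlu0 : 0 < Real.log u := by linarith
  set f : ℕ → ℕ → ℝ := fun x i => if (x + i).Prime then (1 : ℝ) else 0 with hf
  have e1 : ∑ x ∈ range (2 * N + 1), (pn x H : ℝ) ^ 2 =
      ∑ i ∈ Ioc 0 H, ∑ j ∈ Ioc 0 H, ∑ x ∈ range (2 * N + 1), f x i * f x j := by
    have : ∀ x ∈ range (2 * N + 1), (pn x H : ℝ) ^ 2 = ∑ i ∈ Ioc 0 H, ∑ j ∈ Ioc 0 H, f x i * f x j := by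
      intro x _
      rw [pn_eq, sq, sum_mul_sum]
    rw [sum_congr rfl this, sum_comm]
    apply sum_congr rfl
    intro i _
    rw [sum_comm]
  rw [e1]
  -- the diagonal
  have hdiag : ∀ i ∈ Ioc 0 H, ∑ x ∈ range (2 * N + 1), f x i * f x i ≤ 9 * N / ℓ := by
    intro i hi
    rw [mem_Ioc] at hi
    have a1 : ∑ x ∈ range (2 * N + 1), f x i * f x i ≤ (Nat.primeCounting u : ℝ) := by
      have b1 : ∀ x ∈ range (2 * N + 1), f x i * f x i = if (x + i).Prime then (1 : ℝ) else 0 := by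
        intro x _
        rw [hf]
        beta_reduce
        split_ifs <;> norm_num
      rw [sum_congr rfl b1, ← sum_filter, sum_const, nsmul_eq_mul, mul_one, pi_card]
      have b2 : ((range (2 * N + 1)).filter (fun x => (x + i).Prime)).card ≤
          ((Ioc 0 u).filter Nat.Prime).card := by
        apply card_le_card_of_injOn (fun x => x + i)
        · intro x hx
          rw [mem_coe, mem_filter, mem_range] at hx
          rw [mem_coe, mem_filter, mem_Ioc]
          beta_reduce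
          rw [hu]
          refine ⟨⟨by omega, by omega⟩, hx.2⟩
        · intro x _ y _ hxy
          beta_reduce at hxy
          omega
      exact_mod_cast b2
    have a2 : (Nat.primeCounting u : ℝ) ≤ 9 * N / ℓ := by
      have b1 := hx0 (u : ℝ) (by
        calc x0 ≤ (⌈x0⌉₊ : ℝ) := Nat.le_ceil _
          _ ≤ N := by exact_mod_cast hNx0
          _ ≤ u := huN)
      rw [Nat.floor_natCast] at b1
      refine b1.trans ?_
      have := log4
      calc (Real.log 4 + 1) * (u : ℝ) / Real.log u ≤ 3 * (3 * N) / ℓ := by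
            gcongr
            linarith
        _ = _ := by ring
    exact a1.trans a2
  -- off the diagonal
  have hoff : ∀ i ∈ Ioc 0 H, ∀ j ∈ Ioc 0 H, i < j → ∑ x ∈ range (2 * N + 1), f x i * f x j ≤
      C1 * gg (2 * (j - i)) * (3 * N) / ℓ ^ 2 := by
    intro i hi j hj hij
    rw [mem_Ioc] at hi hj
    have a1 : ∑ x ∈ range (2 * N + 1), f x i * f x j ≤
        (((Ioc 0 (0 + u)).filter (fun n => n.Prime ∧ (n + (j - i)).Prime)).card : ℝ) := by
      have b1 : ∀ x ∈ range (2 * N + 1), f x i * f x j =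
          if ((x + i).Prime ∧ (x + i + (j - i)).Prime) then (1 : ℝ) else 0 := by
        intro x _
        rw [hf]
        beta_reduce
        rw [show x + i + (j - i) = x + j by omega]
        by_cases h1 : (x + i).Prime <;> by_cases h2 : (x + j).Prime <;> simp [h1, h2]
      rw [sum_congr rfl b1, ← sum_filter, sum_const, nsmul_eq_mul, mul_one]
      have b2 : ((range (2 * N + 1)).filter (fun x => (x + i).Prime ∧ (x + i + (j - i)).Prime)).card ≤
          ((Ioc 0 (0 + u)).filter (fun n => n.Prime ∧ (n + (j - i)).Prime)).card := by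
        apply card_le_card_of_injOn (fun x => x + i)
        · intro x hx
          rw [mem_coe, mem_filter, mem_range] at hx
          rw [mem_coe, mem_filter, mem_Ioc]
          beta_reduce
          rw [hu]
          refine ⟨⟨by omega, by omega⟩, hx.2⟩
        · intro x _ y _ hxy
          beta_reduce at hxy
          omega
      exact_mod_cast b2
    have a2 := hps (j - i) 0 u (by omega) (by omega) (by
      have b1 : ((j - i : ℕ) : ℝ) ≤ H := by exact_mod_cast (by omega : j - i ≤ H)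
      calc 2 * ((j - i : ℕ) : ℝ) ≤ 2 * ℓ ^ 3 := by linarith
        _ ≤ (N : ℝ) ^ (1 / 16 : ℝ) := h3
        _ ≤ (u : ℝ) ^ (1 / 16 : ℝ) := by gcongr)
    refine (a1.trans a2).trans ?_
    have := one_le_gg (2 * (j - i))
    gcongr
  have hall : ∀ i ∈ Ioc 0 H, ∑ j ∈ Ioc 0 H, ∑ x ∈ range (2 * N + 1), f x i * f x j ≤
      9 * N / ℓ + 6 * C1 * C2 * N * H / ℓ ^ 2 := by
    intro i hi
    have hi' := mem_Ioc.1 hi
    have b1 : Ioc 0 H = Ico 1 i ∪ ({i} ∪ Ioc i H) := by
      ext k; simp only [mem_union, mem_Ico, mem_Ioc, mem_singleton]; omega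
    have d1 : Disjoint (Ico 1 i) ({i} ∪ Ioc i H) := by
      rw [disjoint_left]; intro k hk hk'
      simp only [mem_union, mem_Ico, mem_Ioc, mem_singleton] at hk hk'; omega
    have d2 : Disjoint ({i} : Finset ℕ) (Ioc i H) := by
      rw [disjoint_left]; intro k hk hk'
      simp only [mem_Ioc, mem_singleton] at hk hk'; omega
    rw [b1, sum_union d1, sum_union d2, sum_singleton]
    have c1 : ∑ j ∈ Ico 1 i, ∑ x ∈ range (2 * N + 1), f x i * f x j ≤
        3 * C1 * C2 * N * H / ℓ ^ 2 := by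
      have t1 : ∀ j ∈ Ico 1 i, ∑ x ∈ range (2 * N + 1), f x i * f x j ≤
          C1 * gg (2 * (i - j)) * (3 * N) / ℓ ^ 2 := by
        intro j hj
        rw [mem_Ico] at hj
        have := hoff j (mem_Ioc.2 ⟨by omega, by omega⟩) i hi hj.2
        refine le_trans (le_of_eq ?_) this
        apply sum_congr rfl
        intro x _
        ring
      refine (sum_le_sum t1).trans ?_
      have t2 : ∑ j ∈ Ico 1 i, gg (2 * (i - j)) ≤ C2 * H := by
        refine le_trans ?_ (hgs H)
        have e : ∑ j ∈ Ico 1 i, gg (2 * (i - j)) = ∑ h ∈ (Ico 1 i).image (fun j => i - j), gg (2 * h) := by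
          rw [sum_image]
          intro a ha b hb hab
          rw [mem_coe, mem_Ico] at ha hb
          beta_reduce at hab
          omega
        rw [e]
        apply sum_le_sum_of_subset_of_nonneg
        · intro k hk
          rw [mem_image] at hk
          obtain ⟨h, hh, rfl⟩ := hk
          rw [mem_Ico] at hh
          rw [mem_Icc]
          omega
        · intro h _ _
          have := one_le_gg (2 * h)
          linarith
      calc ∑ j ∈ Ico 1 i, C1 * gg (2 * (i - j)) * (3 * N) / ℓ ^ 2 =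
            (C1 * (3 * N) / ℓ ^ 2) * ∑ j ∈ Ico 1 i, gg (2 * (i - j)) := by
              rw [mul_sum]; apply sum_congr rfl; intro j _; ring
        _ ≤ (C1 * (3 * N) / ℓ ^ 2) * (C2 * H) := by gcongr
        _ = _ := by ring
    have c2 : ∑ j ∈ Ioc i H, ∑ x ∈ range (2 * N + 1), f x i * f x j ≤
        3 * C1 * C2 * N * H / ℓ ^ 2 := by
      have t1 : ∀ j ∈ Ioc i H, ∑ x ∈ range (2 * N + 1), f x i * f x j ≤
          C1 * gg (2 * (j - i)) * (3 * N) / ℓ ^ 2 := by
        intro j hj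
        rw [mem_Ioc] at hj
        exact hoff i hi j (mem_Ioc.2 ⟨by omega, by omega⟩) hj.1
      refine (sum_le_sum t1).trans ?_
      have t2 : ∑ j ∈ Ioc i H, gg (2 * (j - i)) ≤ C2 * H := by
        refine le_trans ?_ (hgs H)
        have e : ∑ j ∈ Ioc i H, gg (2 * (j - i)) = ∑ h ∈ (Ioc i H).image (fun j => j - i), gg (2 * h) := by
          rw [sum_image]
          intro a ha b hb hab
          rw [mem_coe, mem_Ioc] at ha hb
          beta_reduce at hab
          omega
        rw [e]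
        apply sum_le_sum_of_subset_of_nonneg
        · intro k hk
          rw [mem_image] at hk
          obtain ⟨h, hh, rfl⟩ := hk
          rw [mem_Ioc] at hh
          rw [mem_Icc]
          omega
        · intro h _ _
          have := one_le_gg (2 * h)
          linarith
      calc ∑ j ∈ Ioc i H, C1 * gg (2 * (j - i)) * (3 * N) / ℓ ^ 2 =
            (C1 * (3 * N) / ℓ ^ 2) * ∑ j ∈ Ioc i H, gg (2 * (j - i)) := by
              rw [mul_sum]; apply sum_congr rfl; intro j _; ring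
        _ ≤ (C1 * (3 * N) / ℓ ^ 2) * (C2 * H) := by gcongr
        _ = _ := by ring
    have c3 := hdiag i hi
    have e : 6 * C1 * C2 * N * H / ℓ ^ 2 = 3 * C1 * C2 * N * H / ℓ ^ 2 + 3 * C1 * C2 * N * H / ℓ ^ 2 := by
      ring
    linarith
  refine (sum_le_sum hall).trans ?_
  rw [sum_const, Nat.card_Ioc, nsmul_eq_mul, Nat.sub_zero]
  have e : (H : ℝ) * (9 * N / ℓ + 6 * C1 * C2 * N * H / ℓ ^ 2) =
      9 * (N * (H / ℓ)) + 6 * C1 * C2 * (N * (H ^ 2 / ℓ ^ 2)) := by ring
  rw [e]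
  have p1 : 0 ≤ (N : ℝ) * (H / ℓ) := by positivity
  have p2 : 0 ≤ (N : ℝ) * (H ^ 2 / ℓ ^ 2) := by positivity
  have p3 : 0 ≤ 6 * C1 * C2 := by nlinarith
  nlinarith

open Classical in
/-- **A positive proportion of the points of most translates have a prime in a short interval to
their right.** -/
theorem posProp (β lam : ℝ) (hβ : 0 < β) (hlam : 0 < lam) : ∃ c C : ℝ, 0 < c ∧ 0 < C ∧
    ∀ᶠ N : ℕ in atTop, ∀ H : ℕ, lam * Real.log N ≤ H → (H : ℝ) ≤ Real.log N ^ 3 →
    ∀ A : Finset ℕ, (∀ a ∈ A, a ≤ N) → C * N * ((1 + Real.log H) / H) ^ 2 ≤ A.card →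
    (((Icc 1 N).filter (fun b : ℕ => (((A.filter (fun a => (H : ℝ) / Real.log N / 8 ≤
      (pn (a + b) H : ℝ))).card : ℕ) : ℝ) < c * A.card)).card : ℝ) ≤ β * N := by
  obtain ⟨C0, hC0, hsec⟩ := secondMoment
  have hk0 : 0 < 16 * C0 * (1 + 1 / lam) := by positivity
  obtain ⟨c, hc⟩ : ∃ c : ℝ, c = β / (32 * (16 * C0 * (1 + 1 / lam))) := ⟨_, rfl⟩
  have hc0 : 0 < c := by rw [hc]; positivity
  refine ⟨c, 16 * 96 ^ 2 * 16 / β, hc0, by positivity, ?_⟩
  filter_upwards [hsec, shortPair 4, ev_L (16 + 1 / lam + 1), ev_log 3 1 1 (by norm_num),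
    ev_conv (1 / 4) (by norm_num) (by norm_num),
    eventually_ge_atTop 16] with N h1 h2 h3 h4 h5 hN16 H hH1 hH2 A hA hAC
  have hNr : (16 : ℝ) ≤ N := by exact_mod_cast hN16
  have hN0 : (0 : ℝ) < N := by linarith
  set ℓ := Real.log N with hℓ
  have q2 : 0 < 1 / lam := by positivity
  have hℓ16 : 16 ≤ ℓ := by linarith
  have hℓ0 : 0 < ℓ := by linarith
  have hHr : 1 ≤ (H : ℝ) := by
    refine le_trans ?_ hH1
    have : 1 / lam ≤ ℓ := by linarith
    rw [div_le_iff₀ hlam] at this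
    linarith
  have hH : 1 ≤ H := by exact_mod_cast hHr
  have hH0 : (0 : ℝ) < H := by linarith
  rw [Real.rpow_one, one_mul] at h4
  have hHN : H ≤ N := by
    have : (H : ℝ) ≤ N := hH2.trans h4
    exact_mod_cast this
  have hlH : 0 ≤ Real.log H := Real.log_nonneg hHr
  set B : Finset ℕ := (Icc 1 N).filter (fun b : ℕ => (((A.filter (fun a => (H : ℝ) / ℓ / 8 ≤
      (pn (a + b) H : ℝ))).card : ℕ) : ℝ) < c * A.card) with hB
  by_contra hcon
  push Not at hcon
  have hBN : ∀ b ∈ B, b ≤ N := fun b hb => (mem_Icc.1 (mem_filter.1 hb).1).2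
  have hB0 : 0 < (B.card : ℝ) := lt_of_le_of_lt (by positivity) hcon
  set lm : ℝ := (1 + Real.log H) / H with hlm
  have hlm0 : 0 < lm := by positivity
  have hA0 : 0 < (A.card : ℝ) := lt_of_lt_of_le (by positivity) hAC
  set P : ℝ := (A.card : ℝ) * B.card with hP
  have hP0 : 0 < P := by positivity
  -- first moment
  have hPbig : 16 * 96 ^ 2 * 16 * (N * lm) ^ 2 ≤ P := by
    calc 16 * 96 ^ 2 * 16 * (N * lm) ^ 2 = (16 * 96 ^ 2 * 16 / β * N * lm ^ 2) * (β * N) := by
          field_simp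
      _ ≤ (A.card : ℝ) * (B.card : ℝ) := mul_le_mul hAC hcon.le (by positivity) hA0.le
  have hsq : 16 * 96 * (N * lm) ≤ √P := by
    apply Real.le_sqrt_of_sq_le
    refine le_trans (le_of_eq ?_) hPbig
    ring
  have hNl : (N : ℝ) / ℓ ^ 4 ≤ N * lm := by
    rw [div_eq_mul_one_div]
    apply mul_le_mul_of_nonneg_left _ hN0.le
    rw [hlm, div_le_div_iff₀ (by positivity) hH0]
    have t1 : (H : ℝ) ≤ ℓ ^ 4 := by
      calc (H : ℝ) ≤ ℓ ^ 3 := hH2
        _ ≤ ℓ ^ 4 := pow_le_pow_right₀ (by linarith) (by norm_num)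
    have t2 : 0 ≤ Real.log H * ℓ ^ 4 := by positivity
    nlinarith
  have hfirst : P * H / 2 ≤ TT A B H := by
    have t0 := h2 A B hA hBN H hH (by omega)
    have t1 : √P * (96 * N * lm + N / ℓ ^ 4) ≤ P / 8 := by
      have s1 : 96 * N * lm + N / ℓ ^ 4 ≤ 97 * (N * lm) := by linarith
      have s2 : 97 * (N * lm) ≤ √P / 8 := by
        have : 0 ≤ (N : ℝ) * lm := by positivity
        linarith
      calc √P * (96 * N * lm + N / ℓ ^ 4) ≤ √P * (√P / 8) := by
            apply mul_le_mul_of_nonneg_left (s1.trans s2) (Real.sqrt_nonneg _)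
        _ = (√P * √P) / 8 := by ring
        _ = P / 8 := by rw [Real.mul_self_sqrt hP0.le]
    have t2 : P / ℓ ^ 4 ≤ P / 8 := by
      apply div_le_div_of_nonneg_left hP0.le (by norm_num)
      calc (8 : ℝ) ≤ ℓ := by linarith
        _ = ℓ ^ 1 := (pow_one _).symm
        _ ≤ ℓ ^ 4 := pow_le_pow_right₀ (by linarith) (by norm_num)
    have t3 := (abs_le.1 t0).1
    have t4 : P / 2 ≤ TT A B H / H := by
      rw [← hlm, ← hP] at t3
      linarith
    rw [le_div_iff₀ hH0] at t4
    linarith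
  have hPC : P * H / (4 * ℓ) ≤ PCs A B H := by
    have t1 := conv_low (A := A) (B := B) (N := N) (y := H) hA hBN (by omega) _ h5.1
    have t2 : 0 ≤ PCs A B H := by
      unfold PCs
      exact sum_nonneg fun _ _ => sum_nonneg fun _ _ => Nat.cast_nonneg _
    rw [div_le_iff₀ (by positivity)]
    have t3 : (1 + 1 / 4) * ℓ * PCs A B H ≤ 2 * ℓ * PCs A B H := by
      apply mul_le_mul_of_nonneg_right _ t2
      linarith
    linarith
  -- Cauchy-Schwarz
  set g : ℕ × ℕ → ℝ := fun x => if (H : ℝ) / ℓ / 8 ≤ (pn (x.1 + x.2) H : ℝ) then (1 : ℝ) else 0 with hg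
  have hPCe : P * H / (8 * ℓ) ≤ ∑ x ∈ A ×ˢ B, g x * (pn (x.1 + x.2) H : ℝ) := by
    have t1 : PCs A B H ≤ ∑ x ∈ A ×ˢ B, (g x * (pn (x.1 + x.2) H : ℝ) + (H : ℝ) / ℓ / 8) := by
      unfold PCs
      rw [sum_product]
      apply sum_le_sum; intro a _
      apply sum_le_sum; intro b _
      rw [hg]
      beta_reduce
      have p0 : 0 ≤ (H : ℝ) / ℓ / 8 := by positivity
      split_ifs with h
      · rw [one_mul]; linarith
      · have h' : ¬ (H : ℝ) / ℓ / 8 ≤ (pn (a + b) H : ℝ) := h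
        push Not at h'
        rw [zero_mul, zero_add]
        exact h'.le
    rw [sum_add_distrib, sum_const, nsmul_eq_mul, card_product] at t1
    push_cast at t1
    have e1 : (A.card : ℝ) * (B.card : ℝ) * ((H : ℝ) / ℓ / 8) = P * H / (8 * ℓ) := by
      rw [hP]; field_simp
    rw [e1] at t1
    have e2 : P * H / (4 * ℓ) = P * H / (8 * ℓ) + P * H / (8 * ℓ) := by field_simp; norm_num
    linarith
  have hCS := Finset.sum_mul_sq_le_sq_mul_sq (A ×ˢ B) g (fun x => (pn (x.1 + x.2) H : ℝ))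
  have hg2 : ∑ x ∈ A ×ˢ B, g x ^ 2 ≤ c * P := by
    rw [sum_product_right]
    have t1 : ∀ b ∈ B, ∑ a ∈ A, g (a, b) ^ 2 ≤ c * A.card := by
      intro b hb
      rw [hB, mem_filter] at hb
      refine le_trans (le_of_eq ?_) hb.2.le
      rw [card_filter]
      push_cast
      apply sum_congr rfl
      intro a _
      rw [hg]
      beta_reduce
      split_ifs <;> norm_num
    refine (sum_le_sum t1).trans ?_
    rw [sum_const, nsmul_eq_mul, hP]
    linarith
  have hp2 : ∑ x ∈ A ×ˢ B, (pn (x.1 + x.2) H : ℝ) ^ 2 ≤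
      A.card * (C0 * N * (H / ℓ + H ^ 2 / ℓ ^ 2)) := by
    rw [sum_product]
    have t1 : ∀ a ∈ A, ∑ b ∈ B, (pn (a + b) H : ℝ) ^ 2 ≤ C0 * N * (H / ℓ + H ^ 2 / ℓ ^ 2) := by
      intro a ha
      refine le_trans ?_ (h1 H hH hH2)
      have e : ∑ b ∈ B, (pn (a + b) H : ℝ) ^ 2 = ∑ x ∈ B.image (fun b => a + b), (pn x H : ℝ) ^ 2 := by
        rw [sum_image]
        intro x _ y _ hxy
        beta_reduce at hxy
        omega
      rw [e]
      apply sum_le_sum_of_subset_of_nonneg
      · intro x hx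
        rw [mem_image] at hx
        obtain ⟨b, hb, rfl⟩ := hx
        rw [mem_range]
        have := hA a ha
        have := hBN b hb
        omega
      · intro x _ _
        positivity
    refine (sum_le_sum t1).trans ?_
    rw [sum_const, nsmul_eq_mul]
  have hH3 : (H : ℝ) / ℓ + H ^ 2 / ℓ ^ 2 ≤ (H ^ 2 / ℓ ^ 2) * (1 + 1 / lam) := by
    have t1 : (1 : ℝ) ≤ (H / ℓ) * (1 / lam) := by
      rw [div_mul_div_comm, mul_one, le_div_iff₀ (by positivity)]
      linarith
    have t2 : 0 ≤ (H : ℝ) / ℓ := by positivity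
    calc (H : ℝ) / ℓ + H ^ 2 / ℓ ^ 2 ≤ (H / ℓ) * ((H / ℓ) * (1 / lam)) + H ^ 2 / ℓ ^ 2 := by
          have := mul_le_mul_of_nonneg_left t1 t2
          linarith
      _ = _ := by ring
  have hfin : (P * H / (8 * ℓ)) ^ 2 ≤ (c * P) * (A.card * (C0 * N * ((H ^ 2 / ℓ ^ 2) * (1 + 1 / lam)))) := by
    calc (P * H / (8 * ℓ)) ^ 2 ≤ (∑ x ∈ A ×ˢ B, g x * (pn (x.1 + x.2) H : ℝ)) ^ 2 := by gcongr
      _ ≤ (∑ x ∈ A ×ˢ B, g x ^ 2) * ∑ x ∈ A ×ˢ B, (pn (x.1 + x.2) H : ℝ) ^ 2 := hCS
      _ ≤ (c * P) * (A.card * (C0 * N * (H / ℓ + H ^ 2 / ℓ ^ 2))) := by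
          apply mul_le_mul hg2 hp2 (sum_nonneg fun _ _ => sq_nonneg _) (by positivity)
      _ ≤ _ := by gcongr
  have hfin2 : (B.card : ℝ) ≤ 64 * c * C0 * (1 + 1 / lam) * N := by
    have e1 : (P * H / (8 * ℓ)) ^ 2 = (P * A.card * (H ^ 2 / ℓ ^ 2) / 64) * B.card := by
      rw [hP]; ring
    have e2 : (c * P) * (A.card * (C0 * N * ((H ^ 2 / ℓ ^ 2) * (1 + 1 / lam)))) =
        (P * A.card * (H ^ 2 / ℓ ^ 2) / 64) * (64 * c * C0 * (1 + 1 / lam) * N) := by ring
    rw [e1, e2] at hfin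
    exact le_of_mul_le_mul_left hfin (by positivity)
  have hfin3 : 64 * c * C0 * (1 + 1 / lam) * N = (β / 8) * N := by
    rw [hc]; field_simp; norm_num
  rw [hfin3] at hfin2
  have : 0 < β * N := by positivity
  linarith

end Pool.Agent.W301.SS
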