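import Mathlib
import Pool.Agent.W301.SS.Second

/-! Windows of all lengths: the two results. -/

set_option autoImplicit false

namespace Pool.Agent.W301.SS
open Finset Filter

/-- averages, all window lengths -/
theorem allWindows (ε : ℝ) (hε : 0 < ε) (U : ℕ) : ∃ C : ℝ, 0 < C ∧ ∃ K : ℕ, ∀ N : ℕ, K ≤ N →
    ∀ A : Finset ℕ, A ⊆ Icc 1 N → A.Nonempty → ∀ H : ℝ, 1 ≤ H →
    ∃ E : Finset ℕ, E ⊆ Icc 1 N ∧ (E.card : ℝ) ≤
      C * ((N : ℝ) ^ 2 / A.card) * (((1 + Real.log H) / H) ^ 2 + 1 / Real.log N ^ U) ∧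
      ∀ b ∈ Icc 1 N, b ∉ E → ∀ y : ℝ, H ≤ y → y ≤ N →
        |(∑ a ∈ A, ((Nat.primeCounting ⌊((a + b : ℕ) : ℝ) + y⌋₊ : ℝ) - Nat.primeCounting (a + b)) /
          (y / Real.log ((a + b : ℕ) : ℝ))) / A.card - 1| ≤ ε := by
  obtain ⟨ε', hε'⟩ : ∃ ε' : ℝ, ε' = min ε 1 := ⟨_, rfl⟩
  have he0 : 0 < ε' := by rw [hε']; exact lt_min hε one_pos
  have he1 : ε' ≤ 1 := by rw [hε']; exact min_le_right _ _
  have heε : ε' ≤ ε := by rw [hε']; exact min_le_left _ _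
  obtain ⟨C, hC, hav⟩ := shortAvg ε' he0 he1 U
  obtain ⟨K, hK⟩ := eventually_atTop.1 hav
  refine ⟨C, hC, K, ?_⟩
  intro N hN A hA hAne H hH
  have hA0 : (0 : ℝ) < A.card := by exact_mod_cast hAne.card_pos
  obtain ⟨E, hE1, hE2, hE3⟩ := hK N hN A (fun a ha => (mem_Icc.1 (hA ha)).2) hAne H hH
  refine ⟨E, hE1, ?_, ?_⟩
  · have e : C * ((N : ℝ) ^ 2 / A.card) * (((1 + Real.log H) / H) ^ 2 + 1 / Real.log N ^ U) =
        (C * (N : ℝ) ^ 2 * (((1 + Real.log H) / H) ^ 2 + 1 / Real.log N ^ U)) / A.card := by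
      ring
    rw [e, le_div_iff₀ hA0]
    exact hE2
  · intro b hb hbE y hy1 hy2
    obtain ⟨_, h2⟩ := hE3 b hb hbE
    have hy0 : 0 < y := by linarith
    refine (h2 y hy1 hy2 (fun _ => y) (fun a _ => ⟨?_, le_rfl⟩)).trans heε
    nlinarith

/-- positive proportion, all window lengths -/
theorem propWindows (lam β : ℝ) (hlam : 0 < lam) (hβ : 0 < β) : ∃ c C : ℝ, 0 < c ∧ 0 < C ∧
    ∃ K : ℕ, ∀ N : ℕ, K ≤ N → ∀ y : ℝ, lam * Real.log N ≤ y → y ≤ Real.log N ^ 3 →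
    ∀ A : Finset ℕ, A ⊆ Icc 1 N → C * N * (Real.log y / y) ^ 2 ≤ A.card →
    ∃ E : Finset ℕ, E ⊆ Icc 1 N ∧ (E.card : ℝ) ≤ β * N ∧
      ∀ b ∈ Icc 1 N, b ∉ E → c * A.card ≤ (Set.ncard {a : ℕ | a ∈ A ∧
        c * (y / Real.log ((a + b : ℕ) : ℝ)) ≤
        (Nat.primeCounting ⌊((a + b : ℕ) : ℝ) + y⌋₊ : ℝ) - Nat.primeCounting (a + b)} : ℝ) := by
  classical
  obtain ⟨c, C, hc, hC, hpp⟩ := posProp (β / 2) (lam / 2) (by positivity) (by positivity)
  obtain ⟨K, hK⟩ := eventually_atTop.1 (hpp.and ((ev_L (4 / lam + 16)).and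
    ((ev_log 1 (2 / β) (1 / 8) (by norm_num)).and (eventually_ge_atTop 16))))
  refine ⟨min c (1 / 32), C * 16, lt_min hc (by positivity), by positivity, K, ?_⟩
  intro N hN y hy1 hy2 A hA hAC
  obtain ⟨h1, h4, h5, hN16⟩ := hK N hN
  have hNr : (16 : ℝ) ≤ N := by exact_mod_cast hN16
  have hN0 : (0 : ℝ) < N := by linarith
  set ℓ := Real.log N with hℓ
  have q1 : 0 < 4 / lam := by positivity
  have hℓ0 : 0 < ℓ := by linarith
  have hℓ1 : 1 ≤ ℓ := by linarith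
  have hℓ16 : 16 ≤ ℓ := by linarith
  have hy4 : 4 ≤ y := by
    have : 4 / lam ≤ ℓ := by linarith
    rw [div_le_iff₀ hlam] at this
    linarith
  have hy0 : 0 < y := by linarith
  set H : ℕ := ⌊y⌋₊ with hH
  have hHle : (H : ℝ) ≤ y := Nat.floor_le hy0.le
  have hHge : y / 2 ≤ H := by
    have a1 := Nat.lt_floor_add_one y
    rw [← hH] at a1
    linarith
  have hH2 : (2 : ℝ) ≤ H := by linarith
  have g3 := h1 H (by linarith) (hHle.trans hy2) A (fun a ha => (mem_Icc.1 (hA ha)).2) (by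
    have hlH : 0 ≤ Real.log (H : ℝ) := Real.log_nonneg (by linarith)
    have hlHy : Real.log (H : ℝ) ≤ Real.log y := Real.log_le_log (by linarith) hHle
    have hly : 1 ≤ Real.log y := by
      rw [Real.le_log_iff_exp_le hy0]
      have := Real.exp_one_lt_d9
      linarith
    calc C * N * ((1 + Real.log H) / H) ^ 2 ≤ C * N * ((2 * Real.log y) / (y / 2)) ^ 2 := by
          gcongr
          linarith
      _ = C * 16 * N * (Real.log y / y) ^ 2 := by
          field_simp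
          norm_num
      _ ≤ A.card := hAC)
  set B : Finset ℕ := (Icc 1 N).filter (fun b : ℕ => (((A.filter (fun a => (H : ℝ) / ℓ / 8 ≤
      (pn (a + b) H : ℝ))).card : ℕ) : ℝ) < c * A.card) with hB
  set B' : Finset ℕ := (Icc 1 N).filter (fun b : ℕ => ((b : ℕ) : ℝ) < (N : ℝ) ^ (1 - 1 / 8 : ℝ)) with hB'
  refine ⟨B ∪ B', union_subset (filter_subset _ _) (filter_subset _ _), ?_, ?_⟩
  · have a1 : ((B ∪ B').card : ℝ) ≤ B.card + B'.card := by exact_mod_cast card_union_le _ _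
    have a2 : (B'.card : ℝ) ≤ (N : ℝ) ^ (1 - 1 / 8 : ℝ) := by
      have a3 : B' ⊆ Icc 1 ⌊(N : ℝ) ^ (1 - 1 / 8 : ℝ)⌋₊ := by
        intro b hb
        rw [hB', mem_filter, mem_Icc] at hb
        rw [mem_Icc]
        exact ⟨hb.1.1, Nat.le_floor hb.2.le⟩
      have a4 := card_le_card a3
      rw [Nat.card_Icc] at a4
      have a5 : ((B'.card : ℕ) : ℝ) ≤ ((⌊(N : ℝ) ^ (1 - 1 / 8 : ℝ)⌋₊ : ℕ) : ℝ) := by
        exact_mod_cast (by omega : B'.card ≤ ⌊(N : ℝ) ^ (1 - 1 / 8 : ℝ)⌋₊)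
      exact a5.trans (Nat.floor_le (by positivity))
    have a3 : (N : ℝ) ^ (1 - 1 / 8 : ℝ) ≤ β / 2 * N := by
      have b1 : 2 / β ≤ (N : ℝ) ^ (1 / 8 : ℝ) := by
        refine le_trans ?_ h5
        rw [pow_one]
        have : 0 < 2 / β := by positivity
        nlinarith
      have b2 : (N : ℝ) ^ (1 - 1 / 8 : ℝ) * (2 / β) ≤ N := by
        calc (N : ℝ) ^ (1 - 1 / 8 : ℝ) * (2 / β) ≤ (N : ℝ) ^ (1 - 1 / 8 : ℝ) * (N : ℝ) ^ (1 / 8 : ℝ) := by
              gcongr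
          _ = N := by rw [← Real.rpow_add hN0]; norm_num
      rw [mul_div_assoc', div_le_iff₀ hβ] at b2
      linarith
    linarith
  · intro b hb hbE
    rw [mem_union, not_or] at hbE
    obtain ⟨e1, e2⟩ := hbE
    have hbN : (N : ℝ) ^ (1 - 1 / 8 : ℝ) ≤ b := by
      by_contra hcon
      push Not at hcon
      exact e2 (by rw [hB']; exact mem_filter.2 ⟨hb, hcon⟩)
    have e3 : c * A.card ≤ (((A.filter (fun a => (H : ℝ) / ℓ / 8 ≤ (pn (a + b) H : ℝ))).card : ℕ) : ℝ) := by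
      by_contra hcon
      push Not at hcon
      exact e1 (by rw [hB]; exact mem_filter.2 ⟨hb, hcon⟩)
    have hb1 := (mem_Icc.1 hb).1
    have hA0 : (0 : ℝ) ≤ A.card := Nat.cast_nonneg _
    have e4 : min c (1 / 32) * A.card ≤ c * A.card :=
      mul_le_mul_of_nonneg_right (min_le_left _ _) hA0
    refine (e4.trans e3).trans ?_
    have hfin : {a : ℕ | a ∈ A ∧ min c (1 / 32) * (y / Real.log ((a + b : ℕ) : ℝ)) ≤
        (Nat.primeCounting ⌊((a + b : ℕ) : ℝ) + y⌋₊ : ℝ) -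
          Nat.primeCounting (a + b)}.Finite :=
      (A.finite_toSet).subset (fun a ha => ha.1)
    rw [← Set.ncard_coe_finset]
    have hsub : ((A.filter (fun a => (H : ℝ) / ℓ / 8 ≤ (pn (a + b) H : ℝ)) : Finset ℕ) : Set ℕ) ⊆
        {a : ℕ | a ∈ A ∧ min c (1 / 32) * (y / Real.log ((a + b : ℕ) : ℝ)) ≤
        (Nat.primeCounting ⌊((a + b : ℕ) : ℝ) + y⌋₊ : ℝ) -
          Nat.primeCounting (a + b)} := by
      intro a ha
      rw [mem_coe, mem_filter] at ha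
      obtain ⟨ha1, ha2⟩ := ha
      refine ⟨ha1, ?_⟩
      rw [pn_floor (a + b) _ hy0.le]
      refine le_trans ?_ ha2
      have l1 : (1 - 1 / 8) * ℓ ≤ Real.log ((a + b : ℕ) : ℝ) := by
        rw [← Real.log_rpow hN0]
        apply Real.log_le_log (by positivity)
        refine hbN.trans ?_
        exact_mod_cast (by omega : b ≤ a + b)
      have l2 : 0 < Real.log ((a + b : ℕ) : ℝ) := by linarith
      have l3 : y / Real.log ((a + b : ℕ) : ℝ) ≤ (2 * H) / (ℓ / 2) := by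
        apply div_le_div₀ (by positivity) (by linarith) (by positivity) (by linarith)
      calc min c (1 / 32) * (y / Real.log ((a + b : ℕ) : ℝ)) ≤ (1 / 32) * ((2 * H) / (ℓ / 2)) := by
            apply mul_le_mul (min_le_right _ _) l3 (by positivity) (by positivity)
        _ = (H : ℝ) / ℓ / 8 := by field_simp; norm_num
    exact_mod_cast Set.ncard_le_ncard hsub hfin

end Pool.Agent.W301.SS
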