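import Mathlib
import Pool.Agent.W301.SS.Core

/-! Translates of sets of residue classes: the variance. -/

set_option autoImplicit false

namespace Pool.Agent.W301.SS
open Finset Filter
open Pool.Agent.H807R2.Dav

/-- Parseval's identity for functions modulo `M` -/
lemma parsevalF {M : ℕ} (hM : 1 ≤ M) (h : ℕ → ℂ) :
    ∑ r ∈ range M, ‖∑ n ∈ range M, h n * ee ((n : ℝ) * ((r : ℝ) / M))‖ ^ 2 =
      M * ∑ n ∈ range M, ‖h n‖ ^ 2 := by
  have key : ((∑ r ∈ range M, ‖∑ n ∈ range M, h n * ee ((n : ℝ) * ((r : ℝ) / M))‖ ^ 2 : ℝ) : ℂ) =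
      ((M * ∑ n ∈ range M, ‖h n‖ ^ 2 : ℝ) : ℂ) := by
    push_cast
    have e1 : ∀ r ∈ range M, ((‖∑ n ∈ range M, h n * ee ((n : ℝ) * ((r : ℝ) / M))‖ : ℂ)) ^ 2 =
        ∑ a ∈ range M, ∑ b ∈ range M, (h a * (starRingEnd ℂ) (h b)) *
          ee (((a : ℤ) - (b : ℤ) : ℤ) * ((r : ℝ) / M)) := by
      intro r _
      rw [← Complex.mul_conj', map_sum, sum_mul_sum]
      apply sum_congr rfl
      intro a _
      apply sum_congr rfl
      intro b _
      rw [map_mul, star_ee]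
      have : ee ((((a : ℤ) - (b : ℤ) : ℤ) : ℝ) * ((r : ℝ) / M)) =
          ee ((a : ℝ) * ((r : ℝ) / M)) * ee (-((b : ℝ) * ((r : ℝ) / M))) := by
        rw [← ee_add]; congr 1; push_cast; ring
      rw [this]; ring
    rw [sum_congr rfl e1, sum_comm]
    have e2 : ∀ a ∈ range M, ∑ r ∈ range M, ∑ b ∈ range M, (h a * (starRingEnd ℂ) (h b)) *
          ee (((a : ℤ) - (b : ℤ) : ℤ) * ((r : ℝ) / M)) = (M : ℂ) * (‖h a‖ : ℂ) ^ 2 := by
      intro a ha
      rw [sum_comm]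
      rw [sum_eq_single a]
      · rw [← mul_sum, orth hM]
        simp only [sub_self, dvd_zero, if_true]
        rw [Complex.mul_conj']; ring
      · intro b hb hba
        rw [← mul_sum, orth hM, if_neg, mul_zero]
        intro h
        rw [mem_range] at ha hb
        have h3 := Int.eq_zero_of_abs_lt_dvd h (by rw [abs_lt]; constructor <;> omega)
        apply hba; omega
      · intro h; exact absurd ha h
    rw [sum_congr rfl e2, mul_sum]
  exact_mod_cast key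

lemma sum_shift {M : ℕ} (p : ℕ → ℂ) (hp : ∀ n, p (n + M) = p n) (a : ℕ) :
    ∑ b ∈ range M, p (a + b) = ∑ b ∈ range M, p b := by
  induction a with
  | zero => simp
  | succ a ih =>
    have h1 : ∑ b ∈ range (M + 1), p (a + b) = ∑ b ∈ range M, p (a + b) + p (a + M) :=
      sum_range_succ _ _
    have h2 : ∑ b ∈ range (M + 1), p (a + b) = ∑ b ∈ range M, p (a + (b + 1)) + p (a + 0) :=
      sum_range_succ' _ _
    have h3 : ∑ b ∈ range M, p (a + 1 + b) = ∑ b ∈ range M, p (a + (b + 1)) := by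
      apply sum_congr rfl
      intro b _
      congr 1
      ring
    have h4 := hp a
    rw [h3, ← ih]
    rw [add_zero] at h2
    linear_combination h1 - h2 + h4

/-- the variance over the translates -/
lemma varQ {M : ℕ} (hM : 1 ≤ M) (f : ℕ → ℝ) (hf : ∀ n, f (n + M) = f n) (A : Finset ℕ)
    (hA : ∀ a ∈ A, a < M) (D : ℝ)
    (hD : ∀ c ∈ range M, ‖∑ n ∈ range M, ((f n : ℝ) : ℂ) * ee ((n : ℝ) * ((c : ℝ) / M))‖ ≤ D) :
    ∑ b ∈ range M, (∑ a ∈ A, f (a + b)) ^ 2 ≤ A.card * D ^ 2 := by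
  have hM0 : (0 : ℝ) < M := by exact_mod_cast hM
  have hM0' : (M : ℝ) ≠ 0 := hM0.ne'
  have hG : ∀ c : ℕ, ∑ b ∈ range M, ((∑ a ∈ A, f (a + b) : ℝ) : ℂ) * ee ((b : ℝ) * ((c : ℝ) / M)) =
      (∑ a ∈ A, ee (-((a : ℝ) * ((c : ℝ) / M)))) *
        ∑ n ∈ range M, ((f n : ℝ) : ℂ) * ee ((n : ℝ) * ((c : ℝ) / M)) := by
    intro c
    have e0 : ∀ b ∈ range M, ((∑ a ∈ A, f (a + b) : ℝ) : ℂ) * ee ((b : ℝ) * ((c : ℝ) / M)) =
        ∑ a ∈ A, ((f (a + b) : ℝ) : ℂ) * ee ((b : ℝ) * ((c : ℝ) / M)) := by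
      intro b _
      rw [Complex.ofReal_sum, sum_mul]
    rw [sum_congr rfl e0, sum_comm, sum_mul]
    apply sum_congr rfl
    intro a _
    have h1 := sum_shift (M := M) (fun n => ((f n : ℝ) : ℂ) * ee ((n : ℝ) * ((c : ℝ) / M))) (by
      intro n
      show ((f (n + M) : ℝ) : ℂ) * ee (((n + M : ℕ) : ℝ) * ((c : ℝ) / M)) = ((f n : ℝ) : ℂ) * ee ((n : ℝ) * ((c : ℝ) / M))
      rw [hf]
      congr 1
      have : (((n + M : ℕ) : ℕ) : ℝ) * ((c : ℝ) / M) = (n : ℝ) * ((c : ℝ) / M) + ((c : ℤ) : ℝ) := by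
        push_cast
        field_simp
      rw [this, ee_add_int]) a
    rw [← h1, mul_sum]
    apply sum_congr rfl
    intro b _
    have : ee (((a + b : ℕ) : ℝ) * ((c : ℝ) / M)) =
        ee ((a : ℝ) * ((c : ℝ) / M)) * ee ((b : ℝ) * ((c : ℝ) / M)) := by
      rw [← ee_add]; congr 1; push_cast; ring
    have h2 : ee (-((a : ℝ) * ((c : ℝ) / M))) * ee ((a : ℝ) * ((c : ℝ) / M)) = 1 := by
      rw [← ee_add, neg_add_cancel, ee_zero]
    rw [this]
    linear_combination (-(((f (a + b) : ℝ) : ℂ) * ee ((b : ℝ) * ((c : ℝ) / M)))) * h2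
  have hP := parsevalF hM (fun b => ((∑ a ∈ A, f (a + b) : ℝ) : ℂ))
  have h1 : ∀ c ∈ range M, ‖∑ b ∈ range M, ((∑ a ∈ A, f (a + b) : ℝ) : ℂ) *
      ee ((b : ℝ) * ((c : ℝ) / M))‖ ^ 2 ≤ ‖FA A ((c : ℝ) / M)‖ ^ 2 * D ^ 2 := by
    intro c hc
    rw [hG c, norm_mul, mul_pow]
    have e : ‖∑ a ∈ A, ee (-((a : ℝ) * ((c : ℝ) / M)))‖ = ‖FA A ((c : ℝ) / M)‖ := by
      have : ∑ a ∈ A, ee (-((a : ℝ) * ((c : ℝ) / M))) = (starRingEnd ℂ) (FA A ((c : ℝ) / M)) := by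
        unfold FA
        rw [map_sum]
        exact sum_congr rfl fun a _ => (star_ee _).symm
      rw [this, RCLike.norm_conj]
    rw [e]
    apply mul_le_mul_of_nonneg_left _ (by positivity)
    exact pow_le_pow_left₀ (norm_nonneg _) (hD c hc) 2
  have h2 := sum_le_sum h1
  rw [← sum_mul, parseval hM A hA] at h2
  have h3 : ∑ b ∈ range M, ‖((∑ a ∈ A, f (a + b) : ℝ) : ℂ)‖ ^ 2 = ∑ b ∈ range M, (∑ a ∈ A, f (a + b)) ^ 2 := by
    apply sum_congr rfl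
    intro b _
    rw [Complex.norm_real, Real.norm_eq_abs, sq_abs]
  rw [hP, h3] at h2
  have h4 : (M : ℝ) * ∑ b ∈ range M, (∑ a ∈ A, f (a + b)) ^ 2 ≤ M * (A.card * D ^ 2) := by
    calc _ ≤ _ := h2
      _ = _ := by ring
  exact le_of_mul_le_mul_left h4 hM0

/-- the translates with a large deviation -/
lemma badQ {M : ℕ} (hM : 1 ≤ M) (f : ℕ → ℝ) (hf : ∀ n, f (n + M) = f n) (A : Finset ℕ)
    (hA : ∀ a ∈ A, a < M) (D : ℝ)
    (hD : ∀ c ∈ range M, ‖∑ n ∈ range M, ((f n : ℝ) : ℂ) * ee ((n : ℝ) * ((c : ℝ) / M))‖ ≤ D)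
    (lam : ℝ) (hlam : 0 ≤ lam) :
    (((range M).filter (fun b => lam < |∑ a ∈ A, f (a + b)|)).card : ℝ) * lam ^ 2 ≤ A.card * D ^ 2 := by
  refine le_trans ?_ (varQ hM f hf A hA D hD)
  calc (((range M).filter (fun b => lam < |∑ a ∈ A, f (a + b)|)).card : ℝ) * lam ^ 2 =
        ∑ b ∈ (range M).filter (fun b => lam < |∑ a ∈ A, f (a + b)|), lam ^ 2 := by
        rw [sum_const, nsmul_eq_mul]
    _ ≤ ∑ b ∈ (range M).filter (fun b => lam < |∑ a ∈ A, f (a + b)|), (∑ a ∈ A, f (a + b)) ^ 2 := by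
        apply sum_le_sum
        intro b hb
        rw [mem_filter] at hb
        rw [← sq_abs (∑ a ∈ A, f (a + b))]
        exact pow_le_pow_left₀ hlam hb.2.le 2
    _ ≤ _ := sum_le_sum_of_subset_of_nonneg (filter_subset _ _) (fun _ _ _ => sq_nonneg _)

/-- a weighted sum over a residue class -/
noncomputable def WA (w : ℕ → ℝ) (x q a : ℕ) : ℝ :=
  ∑ m ∈ (Icc 1 x).filter (fun m => m ≡ a [MOD q]), w m

lemma WA_periodic (w : ℕ → ℝ) (x q n : ℕ) : WA w x q (n + q) = WA w x q n := by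
  unfold WA
  apply sum_congr _ (fun _ _ => rfl)
  apply filter_congr
  intro m _
  unfold Nat.ModEq
  rw [Nat.add_mod_right]

lemma dft_AP (w : ℕ → ℝ) (x q c : ℕ) (hq : 1 ≤ q) :
    ∑ n ∈ range q, ((WA w x q n : ℝ) : ℂ) * ee ((n : ℝ) * ((c : ℝ) / q)) =
      ∑ m ∈ Icc 1 x, ((w m : ℝ) : ℂ) * ee ((m : ℝ) * ((c : ℝ) / q)) := by
  have hq0 : (q : ℝ) ≠ 0 := by positivity
  rw [← sum_fiberwise_of_maps_to (s := Icc 1 x) (t := range q) (g := fun n => n % q)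
    (fun n _ => mem_range.2 (Nat.mod_lt n (by omega)))]
  apply sum_congr rfl
  intro a ha
  rw [mem_range] at ha
  unfold WA
  rw [Complex.ofReal_sum, sum_mul]
  have hf : (Icc 1 x).filter (fun n => n % q = a) = (Icc 1 x).filter (fun n => n ≡ a [MOD q]) := by
    ext n
    simp only [mem_filter]
    unfold Nat.ModEq
    rw [Nat.mod_eq_of_lt ha]
  rw [hf]
  apply sum_congr rfl
  intro m hm
  rw [mem_filter] at hm
  congr 1
  have h1 : m % q = a := by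
    have := hm.2
    unfold Nat.ModEq at this
    rwa [Nat.mod_eq_of_lt ha] at this
  have h2 := Nat.mod_add_div m q
  rw [h1] at h2
  have h3 : (m : ℝ) = (a : ℝ) + q * ((m / q : ℕ) : ℝ) := by exact_mod_cast h2.symm
  have h4 : (m : ℝ) * ((c : ℝ) / q) = (a : ℝ) * ((c : ℝ) / q) + (((m / q * c : ℕ) : ℤ) : ℝ) := by
    rw [Int.cast_natCast, Nat.cast_mul]
    generalize ((m / q : ℕ) : ℝ) = u at *
    rw [h3]
    field_simp
  rw [h4, ee_add_int]

end Pool.Agent.W301.SS
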