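import Mathlib
import Pool.Agent.W301.SS.ModQ
import Pool.Agent.W301.SS.Point
import Pool.Agent.H95R2.Leh.ApSieve

/-! Translates of sets of residue classes. -/

set_option autoImplicit false

namespace Pool.Agent.W301.SS
open Finset Filter
open Pool.Agent.H807R2.Dav

/-- the exponential sum over primes at all fractions -/
theorem spRat (B : ℕ) : ∃ K : ℕ, ∀ᶠ N : ℕ in atTop, ∀ q r : ℕ, 1 ≤ q → Nat.Coprime r q →
    (q : ℝ) * Real.log N ^ K ≤ N →
    ‖SP N ((r : ℝ) / q) - ((ArithmeticFunction.moebius q : ℤ) : ℂ) / (Nat.totient q : ℂ) * ((N : ℝ) : ℂ)‖ ≤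
      N / Real.log N ^ B := by
  obtain ⟨C, hC0, hV⟩ := vinoP
  obtain ⟨K, hK⟩ : ∃ K : ℕ, K = B + 9 := ⟨_, rfl⟩
  refine ⟨2 * K, ?_⟩
  filter_upwards [swT (2 * K + B + 1) (2 * K), pnt_unif (B + 1), ev_L (384 * C + 20),
    ev_log (2 * K + B + 1) 1 1 (by norm_num), ev_log K 1 (1 / 5) (by norm_num), eventually_ge_atTop 16] with
    N h1 hpnt h2 h3 h4 hN16 q r hq hr hqN
  have hNr : (16 : ℝ) ≤ N := by exact_mod_cast hN16
  have hN0 : (0 : ℝ) < N := by linarith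
  set ℓ := Real.log N with hℓ
  have hℓ0 : 0 < ℓ := by linarith
  have hℓ1 : 1 ≤ ℓ := by linarith
  have hqr : (1 : ℝ) ≤ q := by exact_mod_cast hq
  have hq0 : (0 : ℝ) < q := by linarith
  have hφ : (0 : ℝ) < Nat.totient q := by exact_mod_cast Nat.totient_pos.2 hq
  have hℓB : 0 < (N : ℝ) / ℓ ^ B := by positivity
  set μ : ℂ := ((ArithmeticFunction.moebius q : ℤ) : ℂ) / (Nat.totient q : ℂ) with hμ
  have hμ1 : ‖μ‖ ≤ 1 / (Nat.totient q : ℝ) := by
    rw [hμ, norm_div, Complex.norm_natCast]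
    apply div_le_div_of_nonneg_right _ hφ.le
    rw [Complex.norm_intCast]
    have := ArithmeticFunction.abs_moebius_le_one (n := q)
    exact_mod_cast this
  have hμ2 : ‖μ‖ ≤ 1 := by
    refine hμ1.trans ?_
    rw [div_le_one hφ]
    exact_mod_cast Nat.totient_pos.2 hq
  rw [Real.rpow_one] at h3
  rcases lt_or_ge (ℓ ^ (2 * K)) (q : ℝ) with hbig | hsmall
  · have a1 : ‖SP N ((r : ℝ) / q)‖ ≤ C * (1 + Real.log N) ^ 7 * VB N q := by
      apply hV N q (by omega) hq (r : ℤ) (Nat.isCoprime_iff_coprime.2 hr)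
      rw [Int.cast_natCast, sub_self, abs_zero]
      positivity
    have hsq : ℓ ^ K ≤ √(q : ℝ) := by
      apply Real.le_sqrt_of_sq_le
      rw [← pow_mul, mul_comm K 2]; exact hbig.le
    have b1 : (N : ℝ) / √(q : ℝ) ≤ N / ℓ ^ K := by gcongr
    have b2 : (N : ℝ) ^ (4 / 5 : ℝ) ≤ N / ℓ ^ K := by
      rw [le_div_iff₀ (by positivity)]
      calc (N : ℝ) ^ (4 / 5 : ℝ) * ℓ ^ K ≤ (N : ℝ) ^ (4 / 5 : ℝ) * (N : ℝ) ^ (1 / 5 : ℝ) := by
            apply mul_le_mul_of_nonneg_left _ (by positivity)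
            linarith
        _ = N := by rw [← Real.rpow_add hN0]; norm_num
    have hqD : (q : ℝ) ≤ N / ℓ ^ (2 * K) := by rwa [le_div_iff₀ (by positivity)]
    have b3 : √((N : ℝ) * q) ≤ N / ℓ ^ K := by
      apply Real.sqrt_le_iff.2
      refine ⟨by positivity, ?_⟩
      calc (N : ℝ) * q ≤ N * (N / ℓ ^ (2 * K)) := mul_le_mul_of_nonneg_left hqD hN0.le
        _ = (N / ℓ ^ K) ^ 2 := by rw [div_pow, ← pow_mul, mul_comm K 2]; ring
    have b4 : VB N q ≤ 3 * (N / ℓ ^ K) := by unfold VB; linarith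
    have b5 : (1 + ℓ) ^ 7 ≤ 128 * ℓ ^ 7 := by
      calc (1 + ℓ) ^ 7 ≤ (2 * ℓ) ^ 7 := pow_le_pow_left₀ (by linarith) (by linarith) 7
        _ = _ := by ring
    have b6 : ‖SP N ((r : ℝ) / q)‖ ≤ C * (128 * ℓ ^ 7) * (3 * (N / ℓ ^ K)) := by
      refine a1.trans ?_
      have g1 : C * (1 + Real.log N) ^ 7 ≤ C * (128 * ℓ ^ 7) := mul_le_mul_of_nonneg_left b5 hC0.le
      apply mul_le_mul g1 b4 (by unfold VB; positivity) (by positivity)
    have b7 : C * (128 * ℓ ^ 7) * (3 * (N / ℓ ^ K)) ≤ 1 / 2 * (N / ℓ ^ B) := by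
      calc C * (128 * ℓ ^ 7) * (3 * (N / ℓ ^ K)) = (384 * C / ℓ ^ 2) * (N / ℓ ^ B) := by
            rw [hK, show B + 9 = B + 7 + 2 by omega, pow_add, pow_add]; field_simp; ring
        _ ≤ _ := by
            apply mul_le_mul_of_nonneg_right _ hℓB.le
            rw [div_le_iff₀ (by positivity)]
            nlinarith
    have b8 : ‖μ * ((N : ℝ) : ℂ)‖ ≤ 1 / 2 * (N / ℓ ^ B) := by
      rw [norm_mul, Complex.norm_real, Real.norm_eq_abs, abs_of_pos hN0]
      have c5 : (q : ℝ) ≤ 2 * (1 + Real.log q) * Nat.totient q := Pool.Agent.H442R2.EHI.Mdl.tot_lower q hq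
      have c6 : Real.log q ≤ ℓ := by
        apply Real.log_le_log hq0
        calc (q : ℝ) = q * 1 := (mul_one _).symm
          _ ≤ q * ℓ ^ (2 * K) := mul_le_mul_of_nonneg_left (one_le_pow₀ hℓ1) hq0.le
          _ ≤ N := hqN
      have c7 : (q : ℝ) ≤ 4 * ℓ * Nat.totient q := by
        refine c5.trans ?_
        apply mul_le_mul_of_nonneg_right _ hφ.le
        linarith
      have c8 : 1 / (Nat.totient q : ℝ) ≤ 4 * ℓ / ℓ ^ (2 * K) := by
        rw [div_le_div_iff₀ hφ (by positivity), one_mul]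
        exact hbig.le.trans c7
      calc ‖μ‖ * N ≤ (4 * ℓ / ℓ ^ (2 * K)) * N := mul_le_mul_of_nonneg_right (hμ1.trans c8) hN0.le
        _ = (4 / ℓ ^ (B + 17)) * (N / ℓ ^ B) := by
            rw [hK, show 2 * (B + 9) = (B + 17) + B + 1 by omega, pow_add, pow_add]; field_simp
        _ ≤ 1 / 2 * (N / ℓ ^ B) := by
            apply mul_le_mul_of_nonneg_right _ hℓB.le
            have : ℓ ^ 1 ≤ ℓ ^ (B + 17) := pow_le_pow_right₀ hℓ1 (by omega)
            rw [div_le_iff₀ (by positivity)]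
            nlinarith
    calc _ ≤ ‖SP N ((r : ℝ) / q)‖ + ‖μ * ((N : ℝ) : ℂ)‖ := norm_sub_le _ _
      _ ≤ _ := by linarith
  · set E : ℝ := N / ℓ ^ (2 * K + B + 1) with hE
    have hE1 : 1 ≤ E := by
      rw [hE, le_div_iff₀ (by positivity), one_mul]
      linarith
    have c1 : ‖SP N ((r : ℝ) / q) - μ * ((Chebyshev.theta (N : ℝ) : ℝ) : ℂ)‖ ≤ q * E + q :=
      TS_approx N q r hq hr E (fun a ha hac => h1 N le_rfl q hq hsmall a ha hac)
    have c2 : q * E + q ≤ 2 * (N / ℓ ^ (B + 1)) := by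
      have e1 : (q : ℝ) * E ≤ ℓ ^ (2 * K) * E := by gcongr
      have e2 : (q : ℝ) ≤ q * E := by nlinarith
      have e3 : ℓ ^ (2 * K) * E = N / ℓ ^ (B + 1) := by
        rw [hE, show 2 * K + B + 1 = 2 * K + (B + 1) by omega, pow_add]; field_simp
      linarith
    have c3 : ‖μ * ((Chebyshev.theta (N : ℝ) : ℝ) : ℂ) - μ * ((N : ℝ) : ℂ)‖ ≤ N / ℓ ^ (B + 1) := by
      rw [← mul_sub, norm_mul, ← Complex.ofReal_sub, Complex.norm_real, Real.norm_eq_abs]
      have e1 := hpnt N (by omega)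
      calc ‖μ‖ * |Chebyshev.theta (N : ℝ) - N| ≤ 1 * (N / ℓ ^ (B + 1)) :=
            mul_le_mul hμ2 e1 (abs_nonneg _) zero_le_one
        _ = _ := one_mul _
    have c4 : 3 * (N / ℓ ^ (B + 1)) ≤ N / ℓ ^ B := by
      calc 3 * (N / ℓ ^ (B + 1)) = (3 / ℓ) * (N / ℓ ^ B) := by rw [pow_succ]; field_simp
        _ ≤ 1 * (N / ℓ ^ B) := by
            apply mul_le_mul_of_nonneg_right _ hℓB.le
            rw [div_le_one hℓ0]; linarith
        _ = _ := one_mul _
    calc _ = ‖(SP N ((r : ℝ) / q) - μ * ((Chebyshev.theta (N : ℝ) : ℝ) : ℂ)) +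
          (μ * ((Chebyshev.theta (N : ℝ) : ℝ) : ℂ) - μ * ((N : ℝ) : ℂ))‖ := by congr 1; ring
      _ ≤ _ := norm_add_le _ _
      _ ≤ _ := by linarith

/-- sums over reduced residues and units -/
lemma sum_units (q : ℕ) [NeZero q] (F : ℕ → ℂ) :
    ∑ n ∈ (range q).filter (fun n => Nat.Coprime n q), F n = ∑ u : (ZMod q)ˣ, F ((u : ZMod q).val) := by
  symm
  refine sum_nbij (fun u : (ZMod q)ˣ => (u : ZMod q).val) ?_ ?_ ?_ ?_
  · intro u _
    rw [mem_filter, mem_range]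
    exact ⟨ZMod.val_lt _, ZMod.val_coe_unit_coprime u⟩
  · intro u _ v _ h
    exact Units.ext (ZMod.val_injective q h)
  · intro n hn
    rw [mem_coe, mem_filter, mem_range] at hn
    refine ⟨ZMod.unitOfCoprime n hn.2, mem_coe.2 (mem_univ _), ?_⟩
    simp only [ZMod.coe_unitOfCoprime]
    exact ZMod.val_natCast_of_lt hn.1
  · intro _ _; rfl

lemma fib (q' q : ℕ) (hq : 1 ≤ q) (hd : q' ∣ q) (F : ℕ → ℂ) (hF : ∀ n, F (n % q') = F n) :
    ∑ n ∈ (range q).filter (fun n => Nat.Coprime n q), F n =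
      ((Nat.totient q : ℂ) / (Nat.totient q' : ℂ)) *
        ∑ n ∈ (range q').filter (fun n => Nat.Coprime n q'), F n := by
  classical
  have hq' : 1 ≤ q' := Nat.pos_of_dvd_of_pos hd hq
  haveI : NeZero q := ⟨by omega⟩
  haveI : NeZero q' := ⟨by omega⟩
  rw [sum_units q, sum_units q']
  set f : (ZMod q)ˣ →* (ZMod q')ˣ := ZMod.unitsMap hd with hf
  have hsurj : Function.Surjective f := ZMod.unitsMap_surjective hd
  have h1 : ∀ u : (ZMod q)ˣ, F ((u : ZMod q).val) = F ((f u : ZMod q').val) := by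
    intro u
    rw [hf, ZMod.unitsMap_val, ← ZMod.natCast_val, ZMod.val_natCast, hF]
  have hfib : ∀ G : (ZMod q')ˣ → ℂ, ∑ u : (ZMod q)ˣ, G (f u) =
      ((univ.filter (fun u : (ZMod q)ˣ => f u = 1)).card : ℂ) * ∑ v : (ZMod q')ˣ, G v := by
    intro G
    rw [← sum_fiberwise univ f (fun u => G (f u)), mul_sum]
    apply sum_congr rfl
    intro v _
    have e1 : ∑ u ∈ univ.filter (fun u : (ZMod q)ˣ => f u = v), G (f u) =
        ∑ u ∈ univ.filter (fun u : (ZMod q)ˣ => f u = v), G v := by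
      apply sum_congr rfl
      intro u hu
      rw [(mem_filter.1 hu).2]
    rw [e1, sum_const, nsmul_eq_mul]
    congr 2
    exact MonoidHom.card_fiber_eq_of_mem_range f (hsurj v) (hsurj 1)
  have h2 := hfib (fun _ => 1)
  simp only [sum_const, card_univ, ZMod.card_units_eq_totient, nsmul_eq_mul, mul_one] at h2
  have hφ' : (Nat.totient q' : ℂ) ≠ 0 := by
    have := Nat.totient_pos.2 hq'
    exact_mod_cast this.ne'
  rw [sum_congr rfl (fun u _ => h1 u), hfib (fun v => F ((v : ZMod q').val)), h2]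
  field_simp

/-- the Ramanujan sum -/
lemma ramG (q c : ℕ) (hq : 1 ≤ q) :
    ∑ a ∈ (range q).filter (fun a => Nat.Coprime a q), ee ((a : ℝ) * ((c : ℝ) / q)) =
      ((Nat.totient q : ℂ) / (Nat.totient (q / Nat.gcd c q) : ℂ)) *
        ((ArithmeticFunction.moebius (q / Nat.gcd c q) : ℤ) : ℂ) := by
  have hg : 0 < Nat.gcd c q := Nat.gcd_pos_of_pos_right _ hq
  set g := Nat.gcd c q with hgd
  set q' := q / g with hq'
  set c' := c / g with hc'
  have h1 : q' * g = q := Nat.div_mul_cancel (Nat.gcd_dvd_right c q)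
  have h2 : c' * g = c := Nat.div_mul_cancel (Nat.gcd_dvd_left c q)
  have hq'1 : 1 ≤ q' := by
    rcases Nat.eq_zero_or_pos q' with h | h
    · rw [h, zero_mul] at h1; omega
    · exact h
  have hcop : Nat.Coprime c' q' := Nat.coprime_div_gcd_div_gcd hg
  have hcq : (c : ℝ) / q = (c' : ℝ) / q' := by
    have hg0 : (g : ℝ) ≠ 0 := by exact_mod_cast hg.ne'
    have hq0 : (q' : ℝ) ≠ 0 := by exact_mod_cast (by omega : q' ≠ 0)
    have e1 : (q : ℝ) = q' * g := by exact_mod_cast h1.symm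
    have e2 : (c : ℝ) = c' * g := by exact_mod_cast h2.symm
    rw [e1, e2]; field_simp
  rw [hcq, fib q' q hq ⟨g, h1.symm⟩ (fun a => ee ((a : ℝ) * ((c' : ℝ) / q'))) (fun n => (ee_mod q' c' n hq'1).symm),
    ram q' c' hq'1 hcop]

end Pool.Agent.W301.SS
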