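import Mathlib
import Pool.Agent.W301.SS.ModR

/-! Translates of sets of residue classes: the averages. -/

set_option autoImplicit false

namespace Pool.Agent.W301.SS
open Finset Filter
open Pool.Agent.H807R2.Dav

/-- the deviation in a residue class -/
noncomputable def gd (x q n : ℕ) : ℝ := thA x q n - (x : ℝ) / Nat.totient q * (if Nat.Coprime n q then 1 else 0)

lemma thA_periodic (x q n : ℕ) : thA x q (n + q) = thA x q n := WA_periodic om x q n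

lemma gd_periodic (x q n : ℕ) : gd x q (n + q) = gd x q n := by
  unfold gd
  rw [thA_periodic]
  congr 3
  rw [Nat.coprime_add_self_left]

lemma gd_dft (x q c : ℕ) (hq : 1 ≤ q) :
    ∑ n ∈ range q, ((gd x q n : ℝ) : ℂ) * ee ((n : ℝ) * ((c : ℝ) / q)) =
      SP x (((c / Nat.gcd c q : ℕ) : ℝ) / ((q / Nat.gcd c q : ℕ) : ℝ)) -
        ((ArithmeticFunction.moebius (q / Nat.gcd c q) : ℤ) : ℂ) /
          (Nat.totient (q / Nat.gcd c q) : ℂ) * ((x : ℝ) : ℂ) := by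
  have hg : 0 < Nat.gcd c q := Nat.gcd_pos_of_pos_right _ hq
  have hφ : (Nat.totient q : ℂ) ≠ 0 := by
    have := Nat.totient_pos.2 hq
    exact_mod_cast this.ne'
  have hcq : (c : ℝ) / q = ((c / Nat.gcd c q : ℕ) : ℝ) / ((q / Nat.gcd c q : ℕ) : ℝ) := by
    have hg0 : ((Nat.gcd c q : ℕ) : ℝ) ≠ 0 := by exact_mod_cast hg.ne'
    rw [Nat.cast_div (Nat.gcd_dvd_left c q) hg0, Nat.cast_div (Nat.gcd_dvd_right c q) hg0]
    have hq0 : (q : ℝ) ≠ 0 := by exact_mod_cast (by omega : q ≠ 0)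
    field_simp
  have h1 : ∑ n ∈ range q, ((thA x q n : ℝ) : ℂ) * ee ((n : ℝ) * ((c : ℝ) / q)) = SP x ((c : ℝ) / q) :=
    dft_AP om x q c hq
  have h2 := ramG q c hq
  have h3 : ∑ n ∈ range q, ((gd x q n : ℝ) : ℂ) * ee ((n : ℝ) * ((c : ℝ) / q)) =
      ∑ n ∈ range q, ((thA x q n : ℝ) : ℂ) * ee ((n : ℝ) * ((c : ℝ) / q)) -
      ((x : ℝ) : ℂ) / (Nat.totient q : ℂ) *
        ∑ a ∈ (range q).filter (fun a => Nat.Coprime a q), ee ((a : ℝ) * ((c : ℝ) / q)) := by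
    rw [sum_filter, mul_sum, ← sum_sub_distrib]
    apply sum_congr rfl
    intro n _
    unfold gd
    by_cases h : Nat.Coprime n q
    · rw [if_pos h, if_pos h]
      push_cast
      ring
    · rw [if_neg h, if_neg h]
      push_cast
      ring
  rw [h3, h1, h2, hcq]
  congr 1
  field_simp

theorem transRes (C : ℕ) : ∃ K : ℕ, ∀ᶠ x : ℕ in atTop, ∀ q : ℕ, 1 ≤ q → (q : ℝ) * Real.log x ^ K ≤ x →
    ∀ A : Finset ℕ, (∀ a ∈ A, a < q) → (q : ℝ) ≤ A.card * Real.log x ^ C →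
    ((((range q).filter (fun b => (A.card : ℝ) * x / (q * Real.log x ^ C) <
      |∑ a ∈ A, gd x q (a + b)|)).card : ℕ) : ℝ) * Real.log x ^ C ≤ q := by
  obtain ⟨K, hK⟩ := spRat (2 * C)
  refine ⟨K, ?_⟩
  filter_upwards [hK, ev_L 1, eventually_ge_atTop 2] with x h1 h2 hx2 q hq hqx A hA hAc
  have hx0 : (0 : ℝ) < x := by exact_mod_cast (by omega : 0 < x)
  set ℓ := Real.log x with hℓ
  have hℓ0 : 0 < ℓ := by linarith
  have hq0 : (0 : ℝ) < q := by exact_mod_cast hq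
  have hA0 : (0 : ℝ) < A.card := by
    by_contra h
    have h' : (A.card : ℝ) ≤ 0 := not_lt.1 h
    have : (A.card : ℝ) * ℓ ^ C ≤ 0 := mul_nonpos_of_nonpos_of_nonneg h' (by positivity)
    linarith
  have hD : ∀ c ∈ range q, ‖∑ n ∈ range q, ((gd x q n : ℝ) : ℂ) * ee ((n : ℝ) * ((c : ℝ) / q))‖ ≤
      x / ℓ ^ (2 * C) := by
    intro c _
    rw [gd_dft x q c hq]
    have hg : 0 < Nat.gcd c q := Nat.gcd_pos_of_pos_right _ hq
    have hq1 : 1 ≤ q / Nat.gcd c q := Nat.div_pos (Nat.le_of_dvd hq (Nat.gcd_dvd_right c q)) hg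
    apply h1 _ _ hq1 (Nat.coprime_div_gcd_div_gcd hg)
    have h3 : ((q / Nat.gcd c q : ℕ) : ℝ) ≤ q := by exact_mod_cast Nat.div_le_self _ _
    calc ((q / Nat.gcd c q : ℕ) : ℝ) * ℓ ^ K ≤ q * ℓ ^ K := by gcongr
      _ ≤ x := hqx
  have hlam : 0 < (A.card : ℝ) * x / (q * ℓ ^ C) := by positivity
  have h3 := badQ hq (gd x q) (gd_periodic x q) A hA _ hD ((A.card : ℝ) * x / (q * ℓ ^ C)) hlam.le
  set F : ℝ := (((range q).filter (fun b => (A.card : ℝ) * x / (q * ℓ ^ C) <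
      |∑ a ∈ A, gd x q (a + b)|)).card : ℝ) with hF
  have hF0 : 0 ≤ F := Nat.cast_nonneg _
  have e1 : F * ((A.card : ℝ) * x / (q * ℓ ^ C)) ^ 2 = (F * ℓ ^ C) * (A.card * (x ^ 2 / (q * ℓ ^ (4 * C)))) *
      (A.card * ℓ ^ C / q) := by
    field_simp
    ring
  have e2 : (A.card : ℝ) * (x / ℓ ^ (2 * C)) ^ 2 = q * (A.card * (x ^ 2 / (q * ℓ ^ (4 * C)))) := by
    rw [div_pow, ← pow_mul]
    have : 2 * C * 2 = 4 * C := by ring
    rw [this]
    field_simp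
  rw [e1, e2] at h3
  have h4 : 1 ≤ (A.card : ℝ) * ℓ ^ C / q := by rw [le_div_iff₀ hq0]; linarith
  have h5 : 0 < (A.card : ℝ) * (x ^ 2 / (q * ℓ ^ (4 * C))) := by positivity
  have h6 : (F * ℓ ^ C) * (A.card * (x ^ 2 / (q * ℓ ^ (4 * C)))) ≤ q * (A.card * (x ^ 2 / (q * ℓ ^ (4 * C)))) := by
    refine le_trans ?_ h3
    exact le_mul_of_one_le_right (by positivity) h4
  exact le_of_mul_le_mul_right h6 h5

end Pool.Agent.W301.SS
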