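import Mathlib
import Pool.Agent.W301.SS.ModS

/-! Translates of sets of residue classes: least primes. -/

set_option autoImplicit false

namespace Pool.Agent.W301.SS
open Finset Filter

/-- a Brun-Titchmarsh bound for every modulus -/
lemma btTheta : ∃ M : ℝ, 2 ≤ M ∧ ∀ x q n : ℕ, 1 ≤ q → 2 * q ≤ x →
    thA x q n ≤ M * ((x : ℝ) / Nat.totient q) * (Real.log x / Real.log ((x : ℝ) / q)) := by
  classical
  obtain ⟨C, hC, h⟩ := Pool.Agent.H95R2.Leh.ap_sieve
  refine ⟨2 * (C + 4), by linarith, fun x q n hq hqx => ?_⟩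
  set r := n % q with hr
  set N := x / q + 1 with hN
  have hq0 : (0 : ℝ) < q := by exact_mod_cast hq
  have hφ : (0 : ℝ) < Nat.totient q := by exact_mod_cast Nat.totient_pos.2 hq
  have hφq : (Nat.totient q : ℝ) ≤ q := by exact_mod_cast Nat.totient_le q
  have hx2 : 2 ≤ x := by omega
  have hx0 : (0 : ℝ) < x := by exact_mod_cast (by omega : 0 < x)
  have hxq : (2 : ℝ) ≤ (x : ℝ) / q := by
    rw [le_div_iff₀ hq0]; exact_mod_cast hqx
  have hL : 0 < Real.log ((x : ℝ) / q) := Real.log_pos (by linarith)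
  have hdiv : 2 ≤ x / q := by rwa [Nat.le_div_iff_mul_le hq]
  have hN2 : 2 ≤ N := by omega
  have hNR : (2 : ℝ) ≤ N := by exact_mod_cast hN2
  have hN0 : (0 : ℝ) < N := by linarith
  have hNge : (x : ℝ) / q ≤ N := by
    rw [div_le_iff₀ hq0]
    have h1 := Nat.div_add_mod x q
    have h2 := Nat.mod_lt x hq
    have : x ≤ N * q := by rw [hN]; nlinarith
    exact_mod_cast this
  have hNle : (N : ℝ) ≤ 2 * x / q := by
    have h1 : ((x / q : ℕ) : ℝ) ≤ (x : ℝ) / q := Nat.cast_div_le
    rw [hN]; push_cast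
    have : 2 * (x : ℝ) / q = (x : ℝ) / q + (x : ℝ) / q := by ring
    linarith
  have hlogN : 0 < Real.log N := Real.log_pos (by linarith)
  set P := (range N).filter (fun i => (r + i * q).Prime) with hP
  -- `thA` in terms of `P`
  have h1 : thA x q n ≤ Real.log x * P.card := by
    unfold thA
    have e1 : ∑ m ∈ (Icc 1 x).filter (fun m => m ≡ n [MOD q]), om m ≤
        ∑ m ∈ ((Icc 1 x).filter (fun m => m ≡ n [MOD q])).filter Nat.Prime, Real.log x := by
      rw [sum_filter (p := Nat.Prime)]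
      apply sum_le_sum
      intro m hm
      unfold om
      rw [mem_filter, mem_Icc] at hm
      split_ifs with hp
      · exact Real.log_le_log (by exact_mod_cast hp.pos) (by exact_mod_cast hm.1.2)
      · exact le_rfl
    refine e1.trans ?_
    rw [sum_const, nsmul_eq_mul, mul_comm]
    apply mul_le_mul_of_nonneg_left _ (Real.log_natCast_nonneg x)
    have : (((Icc 1 x).filter (fun m => m ≡ n [MOD q])).filter Nat.Prime).card ≤ P.card := by
      apply card_le_card_of_injOn (fun m => m / q)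
      · intro m hm
        rw [mem_coe, mem_filter, mem_filter, mem_Icc] at hm
        rw [mem_coe, hP, mem_filter, mem_range]
        obtain ⟨⟨⟨hm1, hm2⟩, hm3⟩, hm4⟩ := hm
        have hmod : m % q = r := hm3
        have e : r + m / q * q = m := by rw [← hmod, mul_comm]; exact Nat.mod_add_div m q
        refine ⟨?_, by rw [e]; exact hm4⟩
        rw [hN]
        exact Nat.lt_succ_of_le (Nat.div_le_div_right hm2)
      · intro m hm m' hm' hmm
        rw [mem_coe, mem_filter, mem_filter, mem_Icc] at hm hm'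
        have hmod : m % q = r := hm.1.2
        have hmod' : m' % q = r := hm'.1.2
        beta_reduce at hmm
        rw [← Nat.mod_add_div m q, ← Nat.mod_add_div m' q, hmod, hmod', hmm]
    exact_mod_cast this
  -- the sieve
  have h2 : (P.card : ℝ) ≤ (C + 4) * (q / Nat.totient q) * (N / Real.log N) := by
    have e1 : P ⊆ ((range N).filter (fun i => ∀ p : ℕ, p.Prime → (p : ℝ) ^ 8 ≤ N → ¬ p ∣ r + i * q)) ∪
        range (Nat.sqrt N + 1) := by
      intro i hi
      rw [hP, mem_filter, mem_range] at hi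
      rw [mem_union, mem_filter, mem_range, mem_range]
      by_cases hb : ∀ p : ℕ, p.Prime → (p : ℝ) ^ 8 ≤ N → ¬ p ∣ r + i * q
      · exact Or.inl ⟨hi.1, hb⟩
      · push Not at hb
        obtain ⟨p, hp, hp8, hpd⟩ := hb
        have hpe : p = r + i * q := (Nat.prime_dvd_prime_iff_eq hp hi.2).1 hpd
        right
        rw [Nat.lt_succ_iff, Nat.le_sqrt]
        have hip : i ≤ p := by
          rw [hpe]
          have : i * 1 ≤ i * q := Nat.mul_le_mul_left i hq
          omega
        have hp8' : p ^ 8 ≤ N := by exact_mod_cast hp8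
        have : p * p ≤ p ^ 8 := by
          calc p * p = p ^ 2 := by ring
            _ ≤ p ^ 8 := Nat.pow_le_pow_right hp.pos (by norm_num)
        exact (Nat.mul_le_mul hip hip).trans (this.trans hp8')
    have e2 := (card_le_card e1).trans (card_union_le _ _)
    rw [card_range] at e2
    have e3 := h r q N hq hN2
    have e4 : ((Nat.sqrt N + 1 : ℕ) : ℝ) ≤ 4 * (N / Real.log N) := by
      have f1 : (Nat.sqrt N : ℝ) ≤ √(N : ℝ) := Real.nat_sqrt_le_real_sqrt
      have f2 : 1 ≤ √(N : ℝ) := Real.one_le_sqrt.2 (by linarith)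
      have f3 : Real.log N ≤ (N : ℝ) ^ (1 / 2 : ℝ) / (1 / 2) := Real.log_le_rpow_div hN0.le (by norm_num)
      rw [← Real.sqrt_eq_rpow] at f3
      have f4 : √(N : ℝ) * Real.log N ≤ 2 * N := by
        have : √(N : ℝ) * √(N : ℝ) = N := Real.mul_self_sqrt hN0.le
        nlinarith
      have f5 : √(N : ℝ) ≤ 2 * (N / Real.log N) := by
        rw [← mul_div_assoc, le_div_iff₀ hlogN]; exact f4
      push_cast
      linarith
    have e5 : (1 : ℝ) ≤ q / Nat.totient q := by rw [le_div_iff₀ hφ, one_mul]; exact hφq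
    have e6 : (P.card : ℝ) ≤ C * ((q : ℝ) / Nat.totient q) * N / Real.log N + 4 * (N / Real.log N) := by
      have : (P.card : ℝ) ≤ ((((range N).filter (fun i => ∀ p : ℕ, p.Prime → (p : ℝ) ^ 8 ≤ N → ¬ p ∣ r + i * q)).card : ℕ) : ℝ) +
        ((Nat.sqrt N + 1 : ℕ) : ℝ) := by exact_mod_cast e2
      linarith
    have e7 : 0 ≤ (N : ℝ) / Real.log N := by positivity
    calc (P.card : ℝ) ≤ C * ((q : ℝ) / Nat.totient q) * (N / Real.log N) + 4 * 1 * (N / Real.log N) := by
          refine e6.trans (le_of_eq ?_); ring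
      _ ≤ C * ((q : ℝ) / Nat.totient q) * (N / Real.log N) + 4 * (q / Nat.totient q) * (N / Real.log N) := by
          gcongr
      _ = _ := by ring
  have h3 : (N : ℝ) / Real.log N ≤ (2 * x / q) / Real.log ((x : ℝ) / q) := by
    apply div_le_div₀ (by positivity) hNle hL
    exact Real.log_le_log (by positivity) hNge
  have hlx : 0 ≤ Real.log x := Real.log_natCast_nonneg x
  calc thA x q n ≤ Real.log x * P.card := h1
    _ ≤ Real.log x * ((C + 4) * (q / Nat.totient q) * ((2 * x / q) / Real.log ((x : ℝ) / q))) := by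
        apply mul_le_mul_of_nonneg_left _ hlx
        refine h2.trans ?_
        apply mul_le_mul_of_nonneg_left h3 (by positivity)
    _ = _ := by field_simp

lemma thA_noncop (x q n : ℕ) (hq : 1 ≤ q) (hn : ¬ Nat.Coprime n q) : thA x q n ≤ Real.log q := by
  unfold thA
  set S := ((Icc 1 x).filter (fun m => m ≡ n [MOD q])).filter Nat.Prime with hS
  have hdiv : ∀ m ∈ S, m.Prime ∧ m ∣ q ∧ m ≡ n [MOD q] := by
    intro m hm
    rw [hS, mem_filter, mem_filter] at hm
    refine ⟨hm.2, ?_, hm.1.2⟩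
    by_contra h
    apply hn
    have h1 : Nat.Coprime m q := (Nat.Prime.coprime_iff_not_dvd hm.2).2 h
    have h2 : Nat.gcd m q = Nat.gcd n q := Nat.ModEq.gcd_eq hm.1.2
    unfold Nat.Coprime at h1 ⊢
    rw [← h2]; exact h1
  have hcard : S.card ≤ 1 := by
    rw [card_le_one]
    intro a ha b hb
    obtain ⟨ha1, ha2, ha3⟩ := hdiv a ha
    obtain ⟨hb1, hb2, hb3⟩ := hdiv b hb
    have hab : a ≡ b [MOD q] := ha3.trans hb3.symm
    have haq := Nat.le_of_dvd hq ha2
    have hbq := Nat.le_of_dvd hq hb2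
    rcases Nat.lt_or_ge a q with h1 | h1
    · rcases Nat.lt_or_ge b q with h2 | h2
      · exact Nat.ModEq.eq_of_lt_of_lt hab h1 h2
      · have e : b = q := le_antisymm hbq h2
        rw [← e] at ha2
        exact (Nat.prime_dvd_prime_iff_eq ha1 hb1).1 ha2
    · have e : a = q := le_antisymm haq h1
      rw [← e] at hb2
      exact ((Nat.prime_dvd_prime_iff_eq hb1 ha1).1 hb2).symm
  have e1 : ∑ m ∈ (Icc 1 x).filter (fun m => m ≡ n [MOD q]), om m ≤ ∑ m ∈ S, Real.log q := by
    rw [hS, sum_filter (p := Nat.Prime)]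
    apply sum_le_sum
    intro m hm
    unfold om
    split_ifs with hp
    · have : m ∈ S := by rw [hS, mem_filter]; exact ⟨hm, hp⟩
      have h3 := (hdiv m this).2.1
      exact Real.log_le_log (by exact_mod_cast hp.pos) (by exact_mod_cast Nat.le_of_dvd hq h3)
    · exact le_rfl
  refine e1.trans ?_
  rw [sum_const, nsmul_eq_mul]
  have h1 : (S.card : ℝ) ≤ 1 := by exact_mod_cast hcard
  have h2 : 0 ≤ Real.log q := Real.log_natCast_nonneg q
  nlinarith

lemma thA_pos {x q n : ℕ} (h : thA x q n ≠ 0) : ∃ p : ℕ, p.Prime ∧ p ≤ x ∧ p ≡ n [MOD q] := by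
  by_contra hc
  push Not at hc
  apply h
  unfold thA
  apply sum_eq_zero
  intro m hm
  rw [mem_filter, mem_Icc] at hm
  unfold om
  rw [if_neg]
  intro hp
  exact hc m hp hm.1.2 hm.2

lemma thA_nonneg (x q n : ℕ) : 0 ≤ thA x q n := sum_nonneg fun n _ => om_nonneg n

open Classical in
theorem chowT : ∃ M : ℝ, 2 ≤ M ∧ ∀ C : ℕ, ∃ K : ℕ, ∀ᶠ x : ℕ in atTop, ∀ q : ℕ, 1 ≤ q →
    (q : ℝ) * Real.log x ^ K ≤ x →
    ∀ A : Finset ℕ, (∀ a ∈ A, a < q) → (q : ℝ) ≤ A.card * Real.log x ^ C →
    ((((range q).filter (fun b => ¬ (|∑ a ∈ A, thA x q (a + b) - (x : ℝ) / Nat.totient q *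
        ((A.filter (fun a => Nat.Coprime (a + b) q)).card : ℝ)| ≤ (A.card : ℝ) * x / (q * Real.log x ^ C) ∧
      Real.log ((x : ℝ) / q) / (M * Real.log x) * ((A.filter (fun a => Nat.Coprime (a + b) q)).card : ℝ) -
        A.card / Real.log x ^ C ≤
        ((A.filter (fun a => Nat.Coprime (a + b) q ∧ ∃ p : ℕ, p.Prime ∧ p ≤ x ∧
          p ≡ a + b [MOD q])).card : ℝ)))).card : ℕ) : ℝ) * Real.log x ^ C ≤ q := by
  obtain ⟨M, hM, hbt⟩ := btTheta
  refine ⟨M, hM, fun C => ?_⟩
  obtain ⟨K, hK⟩ := transRes C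
  refine ⟨K + C + 1, ?_⟩
  filter_upwards [hK, ev_L 2, eventually_ge_atTop 2] with x h1 h2 hx2 q hq hqx A hA hAc
  have hx0 : (0 : ℝ) < x := by exact_mod_cast (by omega : 0 < x)
  set ℓ := Real.log x with hℓ
  have hℓ0 : 0 < ℓ := by linarith
  have hℓ1 : 1 ≤ ℓ := by linarith
  have hq0 : (0 : ℝ) < q := by exact_mod_cast hq
  have hq1 : (1 : ℝ) ≤ q := by exact_mod_cast hq
  have hφ : (0 : ℝ) < Nat.totient q := by exact_mod_cast Nat.totient_pos.2 hq
  have hφq : (Nat.totient q : ℝ) ≤ q := by exact_mod_cast Nat.totient_le q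
  have hA00 : (0 : ℝ) ≤ A.card := Nat.cast_nonneg _
  have hqx1 : (q : ℝ) * ℓ ^ K ≤ x := by
    refine le_trans ?_ hqx
    apply mul_le_mul_of_nonneg_left _ hq0.le
    exact pow_le_pow_right₀ hℓ1 (by omega)
  have hqx2 : (q : ℝ) * ℓ ^ (C + 1) ≤ x := by
    refine le_trans ?_ hqx
    apply mul_le_mul_of_nonneg_left _ hq0.le
    exact pow_le_pow_right₀ hℓ1 (by omega)
  have hqx3 : 2 * q ≤ x := by
    have : 2 * (q : ℝ) ≤ x := by
      refine le_trans ?_ hqx2
      have : ℓ ^ 1 ≤ ℓ ^ (C + 1) := pow_le_pow_right₀ hℓ1 (by omega)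
      nlinarith
    exact_mod_cast this
  have hxq : (2 : ℝ) ≤ (x : ℝ) / q := by
    rw [le_div_iff₀ hq0]; exact_mod_cast hqx3
  have hL : 0 < Real.log ((x : ℝ) / q) := Real.log_pos (by linarith)
  have hLℓ : Real.log ((x : ℝ) / q) ≤ ℓ := Real.log_le_log (by positivity) (div_le_self hx0.le hq1)
  have h3 := h1 q hq hqx1 A hA hAc
  refine le_trans (mul_le_mul_of_nonneg_right ?_ (by positivity)) h3
  have hsub : ((range q).filter (fun b => ¬ (|∑ a ∈ A, thA x q (a + b) - (x : ℝ) / Nat.totient q *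
        ((A.filter (fun a => Nat.Coprime (a + b) q)).card : ℝ)| ≤ (A.card : ℝ) * x / (q * ℓ ^ C) ∧
      Real.log ((x : ℝ) / q) / (M * ℓ) * ((A.filter (fun a => Nat.Coprime (a + b) q)).card : ℝ) -
        A.card / ℓ ^ C ≤
        ((A.filter (fun a => Nat.Coprime (a + b) q ∧ ∃ p : ℕ, p.Prime ∧ p ≤ x ∧
          p ≡ a + b [MOD q])).card : ℝ)))) ⊆
      ((range q).filter (fun b => (A.card : ℝ) * x / (q * ℓ ^ C) < |∑ a ∈ A, gd x q (a + b)|)) := by
    intro b hb
    rw [mem_filter] at hb ⊢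
    refine ⟨hb.1, ?_⟩
    by_contra hc
    apply hb.2
    rw [not_lt] at hc
    set lam := (A.card : ℝ) * x / (q * ℓ ^ C) with hlam
    set R := ((A.filter (fun a => Nat.Coprime (a + b) q)).card : ℝ) with hR
    have e1 : ∑ a ∈ A, gd x q (a + b) = ∑ a ∈ A, thA x q (a + b) - (x : ℝ) / Nat.totient q * R := by
      unfold gd
      rw [sum_sub_distrib, ← mul_sum, hR, card_filter]
      push_cast
      rfl
    rw [e1] at hc
    refine ⟨hc, ?_⟩
    set Hs := A.filter (fun a => Nat.Coprime (a + b) q ∧ ∃ p : ℕ, p.Prime ∧ p ≤ x ∧ p ≡ a + b [MOD q]) with hHs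
    set T := M * ((x : ℝ) / Nat.totient q) * (ℓ / Real.log ((x : ℝ) / q)) with hT
    have hT0 : 0 < T := by positivity
    -- upper bound for the sum
    have e2 : ∑ a ∈ A, thA x q (a + b) ≤ T * Hs.card + A.card * ℓ := by
      have g1 : ∀ a ∈ A, thA x q (a + b) ≤ (if (Nat.Coprime (a + b) q ∧ ∃ p : ℕ, p.Prime ∧ p ≤ x ∧
          p ≡ a + b [MOD q]) then T else 0) + ℓ := by
        intro a _
        by_cases hcop : Nat.Coprime (a + b) q
        · by_cases hz : thA x q (a + b) = 0
          · rw [hz]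
            have : (0 : ℝ) ≤ if (Nat.Coprime (a + b) q ∧ ∃ p : ℕ, p.Prime ∧ p ≤ x ∧
              p ≡ a + b [MOD q]) then T else 0 := by split_ifs <;> linarith
            linarith
          · rw [if_pos ⟨hcop, thA_pos hz⟩]
            have := hbt x q (a + b) hq hqx3
            linarith
        · have g2 := thA_noncop x q (a + b) hq hcop
          have g3 : Real.log q ≤ ℓ := Real.log_le_log hq0 (by
            have : (q : ℝ) ≤ 2 * q := by linarith
            have h5 : 2 * (q : ℝ) ≤ x := by exact_mod_cast hqx3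
            linarith)
          have : (0 : ℝ) ≤ if (Nat.Coprime (a + b) q ∧ ∃ p : ℕ, p.Prime ∧ p ≤ x ∧
              p ≡ a + b [MOD q]) then T else 0 := by split_ifs <;> linarith
          linarith
      refine (sum_le_sum g1).trans ?_
      rw [sum_add_distrib, ← sum_filter, sum_const, sum_const, nsmul_eq_mul, nsmul_eq_mul]
      exact le_of_eq (by rw [mul_comm T])
    have e3 : (A.card : ℝ) * ℓ ≤ lam := by
      rw [hlam, le_div_iff₀ (by positivity)]
      calc (A.card : ℝ) * ℓ * (q * ℓ ^ C) = A.card * (q * ℓ ^ (C + 1)) := by ring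
        _ ≤ A.card * x := mul_le_mul_of_nonneg_left hqx2 hA00
    have e4 : (x : ℝ) / Nat.totient q * R - 2 * lam ≤ T * Hs.card := by
      have := (abs_le.1 hc).1
      linarith
    have e5 : 2 * lam ≤ T * (A.card / ℓ ^ C) := by
      have g1 : lam ≤ (x : ℝ) / Nat.totient q * (A.card / ℓ ^ C) := by
        rw [hlam]
        calc (A.card : ℝ) * x / (q * ℓ ^ C) = (x : ℝ) / q * (A.card / ℓ ^ C) := by field_simp
          _ ≤ _ := by gcongr
      have g2 : 1 ≤ ℓ / Real.log ((x : ℝ) / q) := by rw [le_div_iff₀ hL]; linarith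
      calc 2 * lam ≤ 2 * ((x : ℝ) / Nat.totient q * (A.card / ℓ ^ C)) * 1 := by linarith
        _ ≤ M * ((x : ℝ) / Nat.totient q * (A.card / ℓ ^ C)) * (ℓ / Real.log ((x : ℝ) / q)) := by
            gcongr
        _ = _ := by rw [hT]; ring
    have e6 : (x : ℝ) / Nat.totient q * R = T * (Real.log ((x : ℝ) / q) / (M * ℓ) * R) := by
      rw [hT]
      have hM0 : M ≠ 0 := by linarith
      field_simp
    rw [e6] at e4
    have e7 : T * (Real.log ((x : ℝ) / q) / (M * ℓ) * R - A.card / ℓ ^ C) ≤ T * Hs.card := by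
      rw [mul_sub]; linarith
    exact le_of_mul_le_mul_left e7 hT0
  exact_mod_cast card_le_card hsub

end Pool.Agent.W301.SS
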